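import Pool.Agent.Lib.MP_82ec8b_co.G.Far

/-!
# The case `i ≤ j`, `l + 2 ≤ b`

The estimate of `G/Far.lean`: `2 * 2 ^ (i + j) * 9 ^ b ≤ 8 * 16 * 4 ^ i * 9 ^ l`; here
`2 ^ (i + j) ≥ 4 ^ i` and `9 ^ b ≥ 81 * 9 ^ l`, and `162 > 128`.
-/

namespace MP82
namespace G
open Finset

theorem far2 (i j K l b : ℕ) (hK : 1 ≤ K) (hj : 3 ≤ j) (hij : i ≤ j) (hl : l + 2 ≤ b)
    (F : ZMod (2 ^ i) × ZMod (2 ^ j) → ZMod (3 ^ K) → ℤ)
    (hB : ∀ x c, |F x c| ≤ 3 ^ l)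
    (hF : ∀ d v, ∑ x, ∑ c, F x c * F (x + d) (c + v)
      = if d = 0 ∧ v = 0 then 2 ^ (i + j) * 9 ^ b else 0) : False := by
  have h9 : (9 : ℤ) ^ b = 3 ^ (2 * b) := by rw [pow_mul]; norm_num
  have hF' : ∀ d v, ∑ x, ∑ c, F x c * F (x + d) (c + v)
      = if d = 0 ∧ v = 0 then 2 ^ (i + j) * 3 ^ (2 * b) else 0 := by
    intro d v
    rw [hF d v, h9]
  obtain ⟨r0, h1, ⟨e, h2⟩, h3⟩ := act_of j K (by omega) hK F (i + j) (2 * b) hF'
    (fun x => x.2) (fun x y => rfl)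
  obtain ⟨u, hu⟩ : ∃ u : ZMod (2 ^ i) × ZMod (2 ^ j) → E, u = fun x => MP82.comp K (F x) r0 :=
    ⟨_, rfl⟩
  rw [← hu] at h2 h3
  have huN : ∀ x, N (u x) ≤ 4 * 9 ^ l := by
    intro x
    rw [hu]
    exact MP82.comp_N K l (F x) (hB x) r0
  obtain ⟨c, hc⟩ : ∃ c : ZMod (2 ^ j) → E,
    c = cc (fun x : ZMod (2 ^ i) × ZMod (2 ^ j) => x.2) u := ⟨_, rfl⟩
  rw [← hc] at h2 h3
  have hE := h3 0
  simp only [add_zero, if_true] at hE
  rw [MP82.star_sum_mul_eq] at hE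
  have hE' : ∑ s, N (c s) = 2 * (2 ^ (i + j) * 3 ^ (2 * b)) := by
    have := congrArg QuadraticAlgebra.re hE
    rwa [QuadraticAlgebra.re_intCast, QuadraticAlgebra.re_intCast] at this
  have hcN : ∀ s, N (c s) ≤ 16 * 4 ^ i * 9 ^ l := by
    intro s
    have hcs : c s = ∑ x : ZMod (2 ^ i), (u (x, s) - u (x, s + 2 ^ (j - 1))) := by
      rw [hc]
      unfold cc
      rw [push_snd_eq_far, push_snd_eq_far, sum_sub_distrib]
    rw [hcs]
    have hcard : ((univ : Finset (ZMod (2 ^ i))).card : ℤ) = 2 ^ i := by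
      rw [card_univ, ZMod.card]; push_cast; rfl
    calc N (∑ x : ZMod (2 ^ i), (u (x, s) - u (x, s + 2 ^ (j - 1))))
        ≤ (univ : Finset (ZMod (2 ^ i))).card *
          ∑ x : ZMod (2 ^ i), N (u (x, s) - u (x, s + 2 ^ (j - 1))) := MP82.N_sum_le _ _
      _ ≤ (univ : Finset (ZMod (2 ^ i))).card * ∑ x : ZMod (2 ^ i), (16 * 9 ^ l : ℤ) := by
          refine mul_le_mul_of_nonneg_left (sum_le_sum fun x _ => ?_) (by positivity)
          have a1 := N_sub_le_far (u (x, s)) (u (x, s + 2 ^ (j - 1)))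
          have a2 := huN (x, s)
          have a3 := huN (x, s + 2 ^ (j - 1))
          linarith
      _ = 16 * 4 ^ i * 9 ^ l := by
          rw [sum_const, nsmul_eq_mul, hcard]
          rw [show (4 : ℤ) = 2 ^ 2 by norm_num, ← pow_mul, show 2 * i = i + i by ring, pow_add]
          ring
  have hsum : ∑ s, N (c s) ≤ 8 * (16 * 4 ^ i * 9 ^ l) := by
    calc ∑ s, N (c s)
        = ∑ s ∈ univ.filter (fun s : ZMod (2 ^ j) => 8 * (s - e) = 0), N (c s) := by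
          rw [sum_filter]
          refine sum_congr rfl fun s _ => ?_
          split_ifs with h
          · rfl
          · rw [h2 s h]; simp [N]
      _ ≤ ∑ s ∈ univ.filter (fun s : ZMod (2 ^ j) => 8 * (s - e) = 0),
            (16 * 4 ^ i * 9 ^ l : ℤ) := sum_le_sum fun s _ => hcN s
      _ = ((univ.filter fun s : ZMod (2 ^ j) => 8 * (s - e) = 0).card : ℤ)
            * (16 * 4 ^ i * 9 ^ l) := by rw [sum_const, nsmul_eq_mul]
      _ ≤ 8 * (16 * 4 ^ i * 9 ^ l) := by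
          refine mul_le_mul_of_nonneg_right ?_ (by positivity)
          exact_mod_cast card_eight_far j (by omega) e
  rw [hE'] at hsum
  obtain ⟨n, rfl⟩ : ∃ n, j = i + n := ⟨j - i, by omega⟩
  obtain ⟨q, rfl⟩ : ∃ q, b = l + 2 + q := ⟨b - (l + 2), by omega⟩
  rw [← h9] at hsum
  have e1 : (2 : ℤ) ^ (i + (i + n)) = 4 ^ i * 2 ^ n := by
    rw [show i + (i + n) = 2 * i + n by ring, pow_add, pow_mul]
    norm_num
  have e2 : (9 : ℤ) ^ (l + 2 + q) = 81 * 9 ^ l * 9 ^ q := by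
    rw [pow_add, pow_add]; ring
  rw [e1, e2] at hsum
  have p1 : (1 : ℤ) ≤ 2 ^ n := one_le_pow₀ (by norm_num)
  have p2 : (1 : ℤ) ≤ 9 ^ q := one_le_pow₀ (by norm_num)
  have p3 : (0 : ℤ) < 4 ^ i * 9 ^ l := by positivity
  have p4 : (1 : ℤ) ≤ 2 ^ n * 9 ^ q := one_le_mul_of_one_le_of_one_le p1 p2
  nlinarith [mul_le_mul_of_nonneg_left p4 p3.le]

end G
end MP82
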