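import Pool.Agent.Lib.MP_82ec8b_co.M0

/-!
# PB-Sq: the volume of a perfect binary array is a square; odd volume

`vol_sq`: `(∑ i, ∑ j, a i j) ^ 2 = ∑ u, ∑ v, ∑ i, ∑ j, a i j * a (i + u) (j + v)`, all terms with
`(u, v) ≠ 0` vanish and the term `(0, 0)` is `s * t` (compare `hsq` in the proof of `MP82.M0`).
`even_exp`: from `vol_sq`, `2 ^ (i + j) * 3 ^ (k + l)` is a square; compare the exponents of `2`
(`Nat.factorization`, as in `hpar` in the proof of `MP82.M0`).
`odd_vol`: if `s * t` is odd and `1 < s * t`, there is a nonzero shift `(u, v)`; the sum of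
`s * t` (an odd number of) terms `± 1` is odd, not `0`. So `s * t = 1`.
-/

namespace MP82
namespace G
open Finset

lemma vol_sq {s t : ℕ} [NeZero s] [NeZero t] {a : ZMod s → ZMod t → ℤ} (ha : IsPBA s t a) :
    (∑ i, ∑ j, a i j) ^ 2 = (s : ℤ) * t := by
  have h1 : (∑ x, ∑ c, a x c) ^ 2 = ∑ d, ∑ v, ∑ x, ∑ c, a x c * a (x + d) (c + v) := by
    rw [sq, sum_mul]
    have h2 : ∀ x, (∑ c, a x c) * (∑ x, ∑ c, a x c)
        = ∑ c, ∑ d, ∑ v, a x c * a (x + d) (c + v) := by
      intro x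
      rw [sum_mul]
      refine Fintype.sum_congr _ _ fun c => ?_
      rw [mul_sum, ← Equiv.sum_comp (Equiv.addLeft x)]
      refine Fintype.sum_congr _ _ fun d => ?_
      rw [mul_sum, ← Equiv.sum_comp (Equiv.addLeft c)]
      rfl
    simp only [h2]
    rw [← Fintype.sum_prod_type' (f := fun x c => ∑ d, ∑ v, a x c * a (x + d) (c + v)),
      ← Fintype.sum_prod_type' (f := fun d v => ∑ x, ∑ c, a x c * a (x + d) (c + v))]
    have h4 : ∀ p : ZMod s × ZMod t,
        ∑ d, ∑ v, a p.1 p.2 * a (p.1 + d) (p.2 + v)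
        = ∑ q : ZMod s × ZMod t, a p.1 p.2 * a (p.1 + q.1) (p.2 + q.2) := by
      intro p
      exact (Fintype.sum_prod_type' (fun d v => a p.1 p.2 * a (p.1 + d) (p.2 + v))).symm
    have h5 : ∀ q : ZMod s × ZMod t,
        ∑ x, ∑ c, a x c * a (x + q.1) (c + q.2)
        = ∑ p : ZMod s × ZMod t, a p.1 p.2 * a (p.1 + q.1) (p.2 + q.2) := by
      intro q
      exact (Fintype.sum_prod_type' (fun x c => a x c * a (x + q.1) (c + q.2))).symm
    simp only [h4, h5]
    rw [sum_comm]
  rw [h1]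
  rw [← Fintype.sum_prod_type'
    (f := fun (d : ZMod s) (v : ZMod t) => ∑ x, ∑ c, a x c * a (x + d) (c + v))]
  rw [Fintype.sum_eq_single (0, 0)]
  · have h3 : ∀ p q, a p q * a (p + 0) (q + 0) = 1 := by
      intro p q
      rw [add_zero, add_zero]
      rcases ha.1 p q with h | h <;> rw [h] <;> norm_num
    simp only [h3, sum_const, card_univ, ZMod.card, mul_one, nsmul_eq_mul]
  · rintro ⟨d, v⟩ hne
    refine ha.2 d v ?_
    by_contra hcon
    push Not at hcon
    exact hne (Prod.ext hcon.1 hcon.2)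

lemma even_exp (i j k l : ℕ) (a : ZMod (2 ^ i * 3 ^ k) → ZMod (2 ^ j * 3 ^ l) → ℤ)
    (ha : IsPBA (2 ^ i * 3 ^ k) (2 ^ j * 3 ^ l) a) : Even (i + j) := by
  have h1 : (∑ x, ∑ c, a x c).natAbs ^ 2 = 2 ^ (i + j) * 3 ^ (k + l) := by
    have := congrArg Int.natAbs (vol_sq ha)
    rw [Int.natAbs_pow] at this
    rw [this, Int.natAbs_mul, Int.natAbs_natCast, Int.natAbs_natCast, pow_add, pow_add]
    ring
  have h2 := congrArg (fun n => n.factorization 2) h1
  simp only [Nat.factorization_pow] at h2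
  rw [Nat.factorization_mul (by positivity) (by positivity), Nat.factorization_pow,
    Nat.factorization_pow] at h2
  simp only [Finsupp.coe_smul, Finsupp.coe_add, Pi.smul_apply, Pi.add_apply, smul_eq_mul] at h2
  rw [Nat.Prime.factorization_self Nat.prime_two,
    Nat.factorization_eq_zero_of_not_dvd (by norm_num : ¬ 2 ∣ 3)] at h2
  rw [mul_zero, add_zero, mul_one] at h2
  rw [← h2]
  exact even_two_mul _

lemma odd_vol {s t : ℕ} [NeZero s] [NeZero t] (hs : Odd s) (ht : Odd t)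
    {a : ZMod s → ZMod t → ℤ} (ha : IsPBA s t a) : s = 1 ∧ t = 1 := by
  have key : ∀ u v, ∑ i, ∑ j, a i j * a (i + u) (j + v) ≠ 0 := by
    intro u v h
    have h1 := congrArg (fun n : ℤ => (n : ZMod 2)) h
    simp only [Int.cast_sum, Int.cast_mul, Int.cast_zero] at h1
    have h2 : ∀ p q, ((a p q : ℤ) : ZMod 2) = 1 := by
      intro p q
      rcases ha.1 p q with h | h <;> rw [h] <;> decide
    simp only [h2, mul_one, sum_const, card_univ, ZMod.card, nsmul_eq_mul] at h1
    have h3 : ((s * t : ℕ) : ZMod 2) = 0 := by push_cast; exact h1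
    rw [ZMod.natCast_eq_zero_iff_even] at h3
    exact (Nat.not_even_iff_odd.mpr (hs.mul ht)) h3
  have hu : ∀ u : ZMod s, u = 0 := by
    intro u
    by_contra hu
    exact key u 0 (ha.2 u 0 (Or.inl hu))
  have hv : ∀ v : ZMod t, v = 0 := by
    intro v
    by_contra hv
    exact key 0 v (ha.2 0 v (Or.inr hv))
  constructor
  · have : Fintype.card (ZMod s) = 1 :=
      Fintype.card_eq_one_iff.mpr ⟨0, hu⟩
    rwa [ZMod.card] at this
  · have : Fintype.card (ZMod t) = 1 :=
      Fintype.card_eq_one_iff.mpr ⟨0, hv⟩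
    rwa [ZMod.card] at this

end G
end MP82
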