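import Pool.Agent.Lib.MP_82ec8b_co.SC.Main
import Pool.Agent.Lib.MP_82ec8b_co.G.Sq

/-!
# The exponent bound at `2`

`2` is self-conjugate modulo every power of `3`, so a `PBA(2 ^ i * 3 ^ k, 2 ^ j * 3 ^ l)` has
`|i - j| ≤ 2` (Turyn).
-/

namespace MP82
namespace G
open Finset MP82.SC

/-- `3 ^ (m + 1) ∣ 2 ^ (3 ^ m) + 1`. -/
lemma three_dvd (m : ℕ) : 3 ^ (m + 1) ∣ 2 ^ (3 ^ m) + 1 := by
  induction m with
  | zero => norm_num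
  | succ m ih =>
    obtain ⟨w, hw⟩ := ih
    obtain ⟨y, hy⟩ : ∃ y : ℤ, y = 2 ^ (3 ^ m) := ⟨_, rfl⟩
    have hw' : y + 1 = 3 ^ (m + 1) * (w : ℤ) := by
      rw [hy]
      exact_mod_cast hw
    have h1 : (3 : ℤ) ^ (m + 1 + 1) ∣ 2 ^ (3 ^ (m + 1)) + 1 := by
      have h2 : (2 : ℤ) ^ (3 ^ (m + 1)) = y ^ 3 := by
        rw [hy, ← pow_mul, pow_succ]
      have h3 : y ^ 3 + 1 = (y + 1) * ((y + 1) * (y + 1) - 3 * y) := by ring
      rw [h2, h3, pow_succ 3 (m + 1)]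
      refine mul_dvd_mul ⟨w, hw'⟩ ?_
      refine dvd_sub ?_ (Dvd.intro _ rfl)
      rw [hw', pow_succ]
      exact ⟨3 ^ m * (w : ℤ) * (3 ^ m * 3 * (w : ℤ)), by ring⟩
    exact_mod_cast h1

/-- The exponent bound at `2` for a group `H × ZMod (2 ^ (a + 1)) × ZMod (2 ^ b)`. -/
theorem unbal2 {H : Type} [AddCommGroup H] [Fintype H] {x a b : ℕ} (hx : 1 ≤ x)
    (hneg : ∀ h : H, (2 ^ x) • h = -h) (hb : b + 2 < a + 1) (hpar : Even (a + 1 + b))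
    (f : H × ZMod (2 ^ (a + 1)) × ZMod (2 ^ b) → ℤ) (hf : Perf f) : False := by
  have : Fact (Nat.Prime 2) := ⟨Nat.prime_two⟩
  obtain ⟨γ, hγ⟩ := hpar
  have hγb : b + 2 ≤ γ := by omega
  have hcard : (Fintype.card (H × ZMod (2 ^ (a + 1)) × ZMod (2 ^ b)) : ℤ) =
      ((2 : ℕ) : ℤ) ^ (2 * γ) * Fintype.card H := by
    rw [Fintype.card_prod, Fintype.card_prod, ZMod.card, ZMod.card, ← pow_add, hγ]
    push_cast
    rw [two_mul]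
    ring
  have hdl := dl hx hneg γ (line f 0) _ (Dvd.intro _ hcard.symm) (line_self hf 0)
    (fun d hd => line_corr hf 0 d hd)
  have hle := line_le hf (0 : ZMod (2 ^ b) →+ ZMod (2 ^ (a + 1)))
  rw [ZMod.card, Nat.cast_pow] at hle
  have hper : ∀ g : H × ZMod (2 ^ (a + 1)),
      line f 0 (g + (0, ((2 ^ a : ℕ) : ZMod (2 ^ (a + 1))))) = line f 0 g := by
    intro g
    apply eq_of_sub_eq_zero
    apply Int.eq_zero_of_abs_lt_dvd (hdl g)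
    have h1 := hle g
    have h2 := hle (g + (0, ((2 ^ a : ℕ) : ZMod (2 ^ (a + 1)))))
    have h3 := abs_sub (line f 0 (g + (0, ((2 ^ a : ℕ) : ZMod (2 ^ (a + 1)))))) (line f 0 g)
    have h4 : ((2 : ℕ) : ℤ) ^ (b + 2) ≤ ((2 : ℕ) : ℤ) ^ γ :=
      pow_le_pow_right₀ (by norm_num) hγb
    have h5 : (0 : ℤ) < ((2 : ℕ) : ℤ) ^ b := by positivity
    generalize line f 0 (g + (0, ((2 ^ a : ℕ) : ZMod (2 ^ (a + 1))))) = u at h2 h3 ⊢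
    generalize line f 0 g = v at h1 h3 ⊢
    rw [pow_add] at h4
    push_cast at h1 h2 h4 h5 ⊢
    linarith
  have h1 := line_corr hf (0 : ZMod (2 ^ b) →+ ZMod (2 ^ (a + 1)))
    (0, ((2 ^ a : ℕ) : ZMod (2 ^ (a + 1)))) (fun h => om_ne (p := 2) a (congrArg Prod.snd h))
  rw [Finset.sum_congr rfl (fun g _ => by rw [hper g]), line_self hf 0] at h1
  have h2 : 0 < Fintype.card (H × ZMod (2 ^ (a + 1)) × ZMod (2 ^ b)) := Fintype.card_pos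
  have h3 : Fintype.card (H × ZMod (2 ^ (a + 1)) × ZMod (2 ^ b)) = 0 := by exact_mod_cast h1
  omega

lemma turyn_le (i j k l : ℕ) (A : ZMod (2 ^ i * 3 ^ k) → ZMod (2 ^ j * 3 ^ l) → ℤ)
    (hA : IsPBA (2 ^ i * 3 ^ k) (2 ^ j * 3 ^ l) A) : i ≤ j + 2 := by
  by_contra hcon
  have hev := even_exp i j k l A hA
  obtain ⟨a, rfl⟩ : ∃ a, i = a + 1 := ⟨i - 1, by omega⟩
  have cop1 : Nat.Coprime (2 ^ (a + 1)) (3 ^ k) := Nat.Coprime.pow _ _ (by norm_num)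
  have cop2 : Nat.Coprime (2 ^ j) (3 ^ l) := Nat.Coprime.pow _ _ (by norm_num)
  have e1 : ZMod (3 ^ k) × ZMod (2 ^ (a + 1)) ≃+ ZMod (2 ^ (a + 1) * 3 ^ k) :=
    AddEquiv.prodComm.trans (ZMod.chineseRemainder cop1).symm.toAddEquiv
  have e2 : ZMod (3 ^ l) × ZMod (2 ^ j) ≃+ ZMod (2 ^ j * 3 ^ l) :=
    AddEquiv.prodComm.trans (ZMod.chineseRemainder cop2).symm.toAddEquiv
  obtain ⟨m, hm⟩ : ∃ m, m = max k l := ⟨_, rfl⟩
  have hk : 3 ^ k ∣ 2 ^ (3 ^ m) + 1 := (pow_dvd_pow 3 (by omega)).trans (three_dvd m)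
  have hl : 3 ^ l ∣ 2 ^ (3 ^ m) + 1 := (pow_dvd_pow 3 (by omega)).trans (three_dvd m)
  have hneg : ∀ h : ZMod (3 ^ k) × ZMod (3 ^ l), (2 ^ (3 ^ m)) • h = -h := by
    intro h
    rw [eq_neg_iff_add_eq_zero, ← succ_nsmul]
    ext
    · rw [Prod.smul_fst, nsmul_eq_mul, (ZMod.natCast_eq_zero_iff _ _).2 hk, zero_mul]
      rfl
    · rw [Prod.smul_snd, nsmul_eq_mul, (ZMod.natCast_eq_zero_iff _ _).2 hl, zero_mul]
      rfl
  exact unbal2 (Nat.one_le_pow _ _ (by norm_num)) hneg (by omega) hev _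
    (Perf.comp ((AddEquiv.prodProdProdComm (ZMod (3 ^ k)) (ZMod (3 ^ l)) (ZMod (2 ^ (a + 1)))
      (ZMod (2 ^ j))).trans (AddEquiv.prodCongr e1 e2)) (perf_of_pba hA))

/-- `|i - j| ≤ 2`. -/
theorem turyn (i j k l : ℕ) (A : ZMod (2 ^ i * 3 ^ k) → ZMod (2 ^ j * 3 ^ l) → ℤ)
    (hA : IsPBA (2 ^ i * 3 ^ k) (2 ^ j * 3 ^ l) A) : i ≤ j + 2 ∧ j ≤ i + 2 :=
  ⟨turyn_le i j k l A hA, turyn_le j i l k _ hA.transpose⟩

end G
end MP82
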