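import Pool.Agent.Lib.MP_82ec8b_co.G.Main
import Pool.Agent.Lib.MP_82ec8b_co.G.Far2
import Pool.Agent.Lib.MP_82ec8b_co.G.Turyn

/-!
# All sizes `2 ^ i * 3 ^ k × 2 ^ j * 3 ^ l`
-/

namespace MP82
namespace G
open Finset

/-- `i = j ≥ 4` and `k ≥ l + 4`. -/
theorem eq_far (i k l : ℕ) (hi : 4 ≤ i) (hkl : l + 4 ≤ k)
    (A : ZMod (2 ^ i * 3 ^ k) → ZMod (2 ^ i * 3 ^ l) → ℤ)
    (hA : IsPBA (2 ^ i * 3 ^ k) (2 ^ i * 3 ^ l) A) : False := by
  obtain ⟨b, F, hb0, hb, _, hB, hF⟩ := M0 i i k l (even_exp i i k l A hA) (by omega) A hA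
  exact far2 i i k l b (by omega) (by omega) le_rfl (by omega) F hB hF

lemma parity (i j k l : ℕ) (A : ZMod (2 ^ i * 3 ^ k) → ZMod (2 ^ j * 3 ^ l) → ℤ)
    (hA : IsPBA (2 ^ i * 3 ^ k) (2 ^ j * 3 ^ l) A) (hkl : l < k) : Even (k + l) := by
  obtain ⟨b, _, hb0, _⟩ := M0 i j k l (even_exp i j k l A hA) hkl A hA
  exact ⟨b, by omega⟩

/-- The main theorem. -/
theorem all (i j k l : ℕ) (A : ZMod (2 ^ i * 3 ^ k) → ZMod (2 ^ j * 3 ^ l) → ℤ)
    (hA : IsPBA (2 ^ i * 3 ^ k) (2 ^ j * 3 ^ l) A) :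
    (k = l ∧ (i = j ∨ i = j + 2 ∨ j = i + 2)) ∨
      (4 ≤ i ∧ i = j ∧ (k = l + 2 ∨ l = k + 2)) := by
  obtain ⟨h1, h2⟩ := turyn i j k l A hA
  obtain ⟨m, hm⟩ := even_exp i j k l A hA
  by_cases hkl : k = l
  · exact Or.inl ⟨hkl, by omega⟩
  · right
    by_cases hij : i ≠ j ∨ i ≤ 3
    · exact absurd (main i j k l hij A hA) hkl
    · rw [not_or, not_not, not_le] at hij
      obtain ⟨rfl, hi⟩ := hij
      refine ⟨hi, rfl, ?_⟩
      rcases lt_or_gt_of_ne hkl with h | h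
      · right
        obtain ⟨c, hc⟩ := parity i i l k _ hA.transpose h
        by_contra hcon
        exact eq_far i l k hi (by omega) _ hA.transpose
      · left
        obtain ⟨c, hc⟩ := parity i i k l A hA h
        by_contra hcon
        exact eq_far i k l hi (by omega) A hA

end G
end MP82
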