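import Pool.Agent.Lib.MP_82ec8b_co.G.Lev

/-!
# PB-Par: the parity identities
-/

namespace MP82
namespace G
open Finset

section
variable {a b : ℕ} {R : Type} [DecidableEq R] {g : R → HH a → E}
  {rP : ZMod (2 ^ a) → R} {YP : ZMod (2 ^ a) → ZMod (2 ^ (a + 2)) → E}
  {dP : ZMod (2 ^ a) → ZMod (2 ^ (a + 2))} {yP : ZMod (2 ^ a) → ZMod 2 × ZMod 2}
  {rQ : ZMod (2 ^ a) → R} {YQ : ZMod (2 ^ a) → ZMod (2 ^ (a + 2)) → E}
  {dQ : ZMod (2 ^ a) → ZMod (2 ^ (a + 2))} {yQ : ZMod (2 ^ a) → ZMod 2 × ZMod 2}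

theorem par1 (ha : 2 ≤ a) (D : Data a b R g rP YP dP yP rQ YQ dQ yQ) (r : R) (x : HH a) :
    (∑ q, if rQ q = r then red (YQ q (phi a q x)) else 0)
      = ∑ p, if rP p = r ∧ 4 * (psi a p x - dP p) = 0 then yP p else 0 := by
  have h2 := congrArg red (level2 (by omega) D r x)
  have h1 := congrArg red (level1 (by omega) D r x)
  have h1' := congrArg red (level1 (by omega) D r (x + (0, 2 ^ a)))
  have h3 : red (∑ q, if rQ q = r then YQ q (phi a q x) else 0)
      = ∑ q, if rQ q = r then red (YQ q (phi a q x)) else 0 := by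
    rw [red_sum]
    refine sum_congr rfl fun q _ => ?_
    split_ifs
    · rfl
    · exact red_zero
  rw [← h3, ← h2]
  have h4 : red ((g r x + g r (x + (0, 2 ^ (a + 1))))
      - (g r (x + (0, 2 ^ a)) + g r (x + (0, 2 ^ a) + (0, 2 ^ (a + 1)))))
      = red (g r x - g r (x + (0, 2 ^ (a + 1))))
        + red (g r (x + (0, 2 ^ a)) - g r (x + (0, 2 ^ a) + (0, 2 ^ (a + 1)))) := by
    simp only [red_sub, red_add]
  rw [h4, h1, h1', red_sum, red_sum, ← sum_add_distrib]
  refine sum_congr rfl fun p _ => ?_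
  have h5 : psi a p (x + (0, 2 ^ a)) = psi a p x + 2 ^ a := by
    rw [psi_add]
    congr 1
    simp [psi]
  by_cases hr : rP p = r
  · rw [if_pos hr, if_pos hr, h5, (D.famP p).par]
    simp [hr]
  · simp [hr]

lemma par_two (ha : 2 ≤ a) (D : Data a b R g rP YP dP yP rQ YQ dQ yQ) (r : R) (x u : HH a) :
    (∑ q, if rQ q = r then red (YQ q (phi a q x)) + red (YQ q (phi a q x + phi a q u)) else 0)
      = ∑ p, if rP p = r then ((if 4 * (psi a p x - dP p) = 0 then yP p else 0)
          + (if 4 * (psi a p x + psi a p u - dP p) = 0 then yP p else 0)) else 0 := by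
  have h1 := par1 ha D r x
  have h2 := par1 ha D r (x + u)
  have h3 : (∑ q, if rQ q = r then red (YQ q (phi a q x)) + red (YQ q (phi a q x + phi a q u)) else 0)
      = (∑ q, if rQ q = r then red (YQ q (phi a q x)) else 0)
        + ∑ q, if rQ q = r then red (YQ q (phi a q (x + u))) else 0 := by
    rw [← sum_add_distrib]
    refine sum_congr rfl fun q _ => ?_
    rw [phi_add]
    split_ifs
    · rfl
    · rw [add_zero]
  rw [h3, h1, h2, ← sum_add_distrib]
  refine sum_congr rfl fun p _ => ?_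
  rw [psi_add]
  by_cases hr : rP p = r
  · simp [hr]
  · simp [hr]

lemma par_four_pow (a : ℕ) : (4 : ZMod (2 ^ (a + 2))) * 2 ^ a = 0 := by
  have h := pow_self (a + 2)
  have e : (4 : ZMod (2 ^ (a + 2))) * 2 ^ a = 2 ^ (a + 2) := by ring
  rw [e, h]

lemma par_four_jj (ha : 2 ≤ a) (q : ZMod (2 ^ a)) : 4 * jj a (q * 2 ^ (a - 2)) = 0 := by
  have h4 := par_four_pow a
  have h4' : (4 : ZMod (2 ^ (a + 2))) * 2 ^ (a + 1) = 0 := by
    have e : (4 : ZMod (2 ^ (a + 2))) * 2 ^ (a + 1) = 2 * (4 * 2 ^ a) := by ring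
    rw [e, h4, mul_zero]
  have hq := jj_quarter a ha q
  rcases Nat.even_or_odd q.val with he | ho
  · rcases hq.1 he with h | h
    · rw [h, mul_zero]
    · rw [h, h4']
  · rcases hq.2 ho with h | h
    · rw [h, h4]
    · rw [h, mul_add, h4, h4', add_zero]

theorem par2 (ha : 2 ≤ a) (D : Data a b R g rP YP dP yP rQ YQ dQ yQ) (r : R) (x : HH a) :
    (∑ q, if rQ q = r ∧ Odd q.val ∧ 4 * (phi a q x - dQ q) = 0 then yQ q else 0) = 0 := by
  have h := par_two ha D r x (2 ^ (a - 2), 0)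
  have hR : (∑ p, if rP p = r then ((if 4 * (psi a p x - dP p) = 0 then yP p else 0)
      + (if 4 * (psi a p x + psi a p (2 ^ (a - 2), 0) - dP p) = 0 then yP p else 0)) else 0) = 0 := by
    refine sum_eq_zero fun p _ => ?_
    have e : 4 * (psi a p x + psi a p (2 ^ (a - 2), 0) - dP p) = 4 * (psi a p x - dP p) := by
      have e1 : psi a p (2 ^ (a - 2), 0) = jj a (p * 2 ^ (a - 2)) := by simp [psi]
      rw [e1]
      have e2 := par_four_jj ha p
      linear_combination e2
    rw [e, red_self_add]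
    simp
  rw [hR] at h
  refine Eq.trans (sum_congr rfl fun q _ => ?_) h
  by_cases hr : rQ q = r
  · rw [if_pos hr]
    have e1 : phi a q (2 ^ (a - 2), 0) = jj a (q * 2 ^ (a - 2)) := by simp [phi]
    rw [e1]
    have hq := jj_quarter a ha q
    have hanti : ∀ s, red (YQ q (s + 2 ^ (a + 1))) = red (YQ q s) := by
      intro s
      rw [(D.famQ q).anti, red_neg]
    rcases Nat.even_or_odd q.val with he | ho
    · have hno : ¬ Odd q.val := Nat.not_odd_iff_even.mpr he
      rw [if_neg (fun hh => hno hh.2.1)]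
      rcases hq.1 he with h0 | h0
      · rw [h0, add_zero, red_self_add]
      · rw [h0, hanti, red_self_add]
    · have hfin : red (YQ q (phi a q x)) + red (YQ q (phi a q x + jj a (q * 2 ^ (a - 2))))
          = if 4 * (phi a q x - dQ q) = 0 then yQ q else 0 := by
        rcases hq.2 ho with h0 | h0
        · rw [h0, (D.famQ q).par]
        · rw [h0, ← add_assoc, hanti, (D.famQ q).par]
      rw [hfin]
      simp [hr, ho]
  · simp [hr]

theorem par3 (ha : 2 ≤ a) (D : Data a b R g rP YP dP yP rQ YQ dQ yQ) (r : R) (x : HH a) :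
    (∑ p, if rP p = r ∧ 8 * (psi a p x - dP p) = 0 then yP p else 0)
      = ∑ q, if rQ q = r ∧ Even q.val ∧ 4 * (phi a q x - dQ q) = 0 then yQ q else 0 := by
  have h := par_two ha D r x (0, 2 ^ (a - 1))
  have htwo : ∀ z : ZMod (2 ^ (a + 2)), 2 * z = 0 ↔ (z = 0 ∨ z = 2 ^ (a + 1)) :=
    fun z => two_mul_eq_zero_iff (a + 2) (by omega) z
  have hne : (2 : ZMod (2 ^ (a + 2))) ^ (a + 1) ≠ 0 := half_ne (a + 2) (by omega)
  have hhalf : (2 : ZMod (2 ^ (a + 2))) ^ (a + 1) + 2 ^ (a + 1) = 0 := half_add (a + 2) (by omega)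
  obtain ⟨c, rfl⟩ : ∃ c, a = c + 1 := ⟨a - 1, by omega⟩
  have hP : (∑ p, if rP p = r then ((if 4 * (psi (c + 1) p x - dP p) = 0 then yP p else 0)
      + (if 4 * (psi (c + 1) p x + psi (c + 1) p (0, 2 ^ (c + 1 - 1)) - dP p) = 0 then yP p else 0)) else 0)
      = ∑ p, if rP p = r ∧ 8 * (psi (c + 1) p x - dP p) = 0 then yP p else 0 := by
    refine sum_congr rfl fun p _ => ?_
    by_cases hr : rP p = r
    · rw [if_pos hr]
      have e1 : psi (c + 1) p (0, 2 ^ (c + 1 - 1)) = 2 ^ c := by simp [psi]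
      rw [e1]
      have e2 : 4 * (psi (c + 1) p x + 2 ^ c - dP p)
          = 4 * (psi (c + 1) p x - dP p) + 2 ^ (c + 1 + 1) := by ring
      rw [e2]
      have e3 : 8 * (psi (c + 1) p x - dP p) = 2 * (4 * (psi (c + 1) p x - dP p)) := by ring
      rw [e3]
      generalize 4 * (psi (c + 1) p x - dP p) = w
      have e4 : (w + 2 ^ (c + 1 + 1) = 0) ↔ (w = 2 ^ (c + 1 + 1)) := by
        constructor
        · intro h3
          linear_combination h3 - hhalf
        · intro h3
          rw [h3, hhalf]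
      have e5 := htwo w
      by_cases hw : w = 0
      · have hw2 : ¬ (w + 2 ^ (c + 1 + 1) = 0) := by
          rw [hw, zero_add]; exact hne
        rw [if_pos hw, if_neg hw2, add_zero, if_pos ⟨hr, e5.mpr (Or.inl hw)⟩]
      · by_cases hw3 : w = 2 ^ (c + 1 + 1)
        · rw [if_neg hw, if_pos (e4.mpr hw3), zero_add, if_pos ⟨hr, e5.mpr (Or.inr hw3)⟩]
        · rw [if_neg hw, if_neg (fun hh => hw3 (e4.mp hh)), add_zero,
            if_neg (fun hh => (e5.mp hh.2).elim hw hw3)]
    · simp [hr]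
  rw [hP] at h
  rw [← h]
  have h2 := par2 ha D r x
  have hQ : (∑ q, if rQ q = r then red (YQ q (phi (c + 1) q x))
      + red (YQ q (phi (c + 1) q x + phi (c + 1) q (0, 2 ^ (c + 1 - 1)))) else 0)
      = (∑ q, if rQ q = r ∧ Odd q.val ∧ 4 * (phi (c + 1) q x - dQ q) = 0 then yQ q else 0)
        + ∑ q, if rQ q = r ∧ Even q.val ∧ 4 * (phi (c + 1) q x - dQ q) = 0 then yQ q else 0 := by
    rw [← sum_add_distrib]
    refine sum_congr rfl fun q _ => ?_
    by_cases hr : rQ q = r
    · rw [if_pos hr]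
      have e1 : phi (c + 1) q (0, 2 ^ (c + 1 - 1)) = 2 ^ (c + 1) := by
        simp only [phi, mul_zero, jj_zero, zero_add, Nat.add_sub_cancel]
        ring
      rw [e1, (D.famQ q).par]
      rcases Nat.even_or_odd q.val with he | ho
      · have hno : ¬ Odd q.val := Nat.not_odd_iff_even.mpr he
        simp [hr, he, hno]
      · have hne2 : ¬ Even q.val := Nat.not_even_iff_odd.mpr ho
        simp [hr, ho, hne2]
    · simp [hr]
  rw [hQ, h2, zero_add]

end
end G
end MP82
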