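import Pool.Agent.Lib.MP_82ec8b_co.G.Disj
import Pool.Agent.Lib.MP_82ec8b_co.G.Par

/-!
# PB-Count: the counting contradiction

`card_eight`: `z ↦ 8 z` on `ZMod (2 ^ (a + 2))`, `a ≥ 1`: the solutions of `8 z = c` are empty or a
coset of `{z | 8 z = 0}`, which has 8 elements (`z.val` divisible by `2 ^ (a - 1)`,
`z.val < 2 ^ (a+2)`).
`card_psi`: for every `x₁` the number of `x₂` with `8 (jj (p x₁) + x₂ - d) = 0` is `8`
(substitution). `card_phi`: for every `x₁` the number of `x₂` with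
`4 (jj (q x₁) + 2 x₂ - d) = 0`, i.e. `8 x₂ = 4 (d - jj (q x₁))`, is at most `8`.
`count`: by `disj` the left side of `par3` at `x` has at most one nonzero summand, so it is nonzero
(`Fam.y_ne`) exactly if `x ∈ ⋃ B p`. Hence `⋃_{rP p = r} B p ⊆ ⋃_{rQ q = r, q even} {x | 4 (φ_q x - d_q) = 0}`;
the left union is disjoint (`Finset.card_biUnion`), cardinality `#{p} * 2 ^ (a + 3)`, the right one
has at most `#{q} * 2 ^ (a + 3)` elements (`Finset.card_biUnion_le`).
`no_data`: sum over `r` (`Finset.card_eq_sum_card_fiberwise`): `2 ^ a = #{p} ≤ #{q | Even q.val} = 2 ^ (a - 1)`.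
-/

namespace MP82
namespace G
open Finset

/-- The number of residues modulo `c * d` whose representative is divisible by `d`. -/
lemma card_dvd_val (n c d : ℕ) [NeZero n] (hn : n = c * d) :
    (univ.filter (fun z : ZMod n => d ∣ z.val)).card = c := by
  have hn0 : 0 < n := Nat.pos_of_ne_zero (NeZero.ne n)
  have hd : 0 < d := by
    rcases Nat.eq_zero_or_pos d with h | h
    · subst h; simp at hn; omega
    · exact h
  have h1 : univ.filter (fun z : ZMod n => d ∣ z.val)
      = (range c).image (fun i : ℕ => ((i * d : ℕ) : ZMod n)) := by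
    ext z
    simp only [mem_filter, mem_univ, true_and, mem_image, mem_range]
    constructor
    · rintro ⟨e, he⟩
      refine ⟨e, ?_, ?_⟩
      · have h2 := ZMod.val_lt z
        rw [he, hn, Nat.mul_comm d e] at h2
        exact Nat.lt_of_mul_lt_mul_right h2
      · rw [Nat.mul_comm e d, ← he, ZMod.natCast_zmod_val]
    · rintro ⟨i, hi, rfl⟩
      have h2 : i * d < n := by
        rw [hn]; exact Nat.mul_lt_mul_of_pos_right hi hd
      rw [ZMod.val_natCast, Nat.mod_eq_of_lt h2]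
      exact Dvd.intro_left i rfl
  rw [h1, card_image_of_injOn, card_range]
  intro i hi j hj hij
  simp only [coe_range, Set.mem_Iio] at hi hj
  have h2 : i * d < n := by
    rw [hn]; exact Nat.mul_lt_mul_of_pos_right hi hd
  have h3 : j * d < n := by
    rw [hn]; exact Nat.mul_lt_mul_of_pos_right hj hd
  have h4 : ((i * d : ℕ) : ZMod n).val = ((j * d : ℕ) : ZMod n).val := by
    simpa using congrArg ZMod.val hij
  rw [ZMod.val_natCast, ZMod.val_natCast, Nat.mod_eq_of_lt h2, Nat.mod_eq_of_lt h3] at h4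
  exact Nat.eq_of_mul_eq_mul_right hd h4

lemma card_eight_zero (a : ℕ) (ha : 1 ≤ a) :
    (univ.filter (fun z : ZMod (2 ^ (a + 2)) => 8 * z = 0)).card = 8 := by
  obtain ⟨k, rfl⟩ : ∃ k, a = k + 1 := ⟨a - 1, by omega⟩
  have hn : 2 ^ (k + 1 + 2) = 8 * 2 ^ k := by ring
  rw [← card_dvd_val (2 ^ (k + 1 + 2)) 8 (2 ^ k) hn]
  congr 1
  ext z
  simp only [mem_filter, mem_univ, true_and]
  have h1 : (8 : ZMod (2 ^ (k + 1 + 2))) * z = ((8 * z.val : ℕ) : ZMod (2 ^ (k + 1 + 2))) := by
    push_cast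
    rw [ZMod.natCast_zmod_val]
  rw [h1, ZMod.natCast_eq_zero_iff]
  have h2 : ∀ w : ℕ, 2 ^ (k + 1 + 2) ∣ 8 * w ↔ 2 ^ k ∣ w := by
    intro w
    rw [hn]
    exact Nat.mul_dvd_mul_iff_left (by norm_num)
  exact h2 _

lemma card_psi (a : ℕ) (ha : 1 ≤ a) (p : ZMod (2 ^ a)) (d : ZMod (2 ^ (a + 2))) :
    (univ.filter (fun x : HH a => 8 * (psi a p x - d) = 0)).card = 2 ^ (a + 3) := by
  rw [card_filter, Fintype.sum_prod_type]
  have h1 : ∀ x₁ : ZMod (2 ^ a), (∑ x₂ : ZMod (2 ^ (a + 2)),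
      if 8 * (psi a p (x₁, x₂) - d) = 0 then 1 else 0) = 8 := by
    intro x₁
    rw [← card_eight_zero a ha, card_filter]
    refine Fintype.sum_equiv (Equiv.addLeft (jj a (p * x₁) - d)) _ _ ?_
    intro x₂
    have h2 : psi a p (x₁, x₂) - d = jj a (p * x₁) - d + x₂ := by
      simp only [psi]; ring
    rw [h2]
    rfl
  rw [sum_congr rfl (fun x₁ _ => h1 x₁), sum_const, card_univ, ZMod.card]
  simp only [smul_eq_mul]
  ring

lemma card_phi (a : ℕ) (ha : 1 ≤ a) (q : ZMod (2 ^ a)) (d : ZMod (2 ^ (a + 2))) :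
    (univ.filter (fun x : HH a => 4 * (phi a q x - d) = 0)).card ≤ 2 ^ (a + 3) := by
  rw [card_filter, Fintype.sum_prod_type]
  have h1 : ∀ x₁ : ZMod (2 ^ a), (∑ x₂ : ZMod (2 ^ (a + 2)),
      if 4 * (phi a q (x₁, x₂) - d) = 0 then 1 else 0) ≤ 8 := by
    intro x₁
    rw [← card_filter]
    by_cases h2 : ∃ x₀ : ZMod (2 ^ (a + 2)), 4 * (phi a q (x₁, x₀) - d) = 0
    · obtain ⟨x₀, h3⟩ := h2
      rw [← card_eight_zero a ha]
      refine card_le_card_of_injOn (fun x₂ => x₂ - x₀) ?_ ?_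
      · intro x₂ h4
        simp only [coe_filter, mem_univ, true_and, Set.mem_ofPred_eq] at h4 ⊢
        have h5 : 8 * (x₂ - x₀) = 4 * (phi a q (x₁, x₂) - d) - 4 * (phi a q (x₁, x₀) - d) := by
          simp only [phi]; ring
        rw [h5, h4, h3, sub_zero]
      · intro x _ y _ hxy
        exact sub_left_injective hxy
    · have h3 : univ.filter (fun x₂ : ZMod (2 ^ (a + 2)) => 4 * (phi a q (x₁, x₂) - d) = 0)
          = ∅ := by
        apply filter_eq_empty_iff.mpr
        intro x _ hx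
        exact h2 ⟨x, hx⟩
      rw [h3, card_empty]
      exact Nat.zero_le _
  calc (∑ x₁ : ZMod (2 ^ a), ∑ x₂ : ZMod (2 ^ (a + 2)),
      if 4 * (phi a q (x₁, x₂) - d) = 0 then 1 else 0) ≤ ∑ x₁ : ZMod (2 ^ a), 8 :=
        sum_le_sum (fun x₁ _ => h1 x₁)
    _ = 2 ^ (a + 3) := by
        rw [sum_const, card_univ, ZMod.card]
        simp only [smul_eq_mul]
        ring

lemma card_even (a : ℕ) (ha : 1 ≤ a) :
    (univ.filter (fun q : ZMod (2 ^ a) => Even q.val)).card = 2 ^ (a - 1) := by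
  obtain ⟨k, rfl⟩ : ∃ k, a = k + 1 := ⟨a - 1, by omega⟩
  have hn : 2 ^ (k + 1) = 2 ^ k * 2 := by ring
  rw [Nat.add_sub_cancel, ← card_dvd_val (2 ^ (k + 1)) (2 ^ k) 2 hn]
  congr 1
  ext z
  simp only [mem_filter, mem_univ, true_and, even_iff_two_dvd]

section
variable {a b : ℕ} {R : Type} [DecidableEq R] {g : R → HH a → E}
  {rP : ZMod (2 ^ a) → R} {YP : ZMod (2 ^ a) → ZMod (2 ^ (a + 2)) → E}
  {dP : ZMod (2 ^ a) → ZMod (2 ^ (a + 2))} {yP : ZMod (2 ^ a) → ZMod 2 × ZMod 2}
  {rQ : ZMod (2 ^ a) → R} {YQ : ZMod (2 ^ a) → ZMod (2 ^ (a + 2)) → E}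
  {dQ : ZMod (2 ^ a) → ZMod (2 ^ (a + 2))} {yQ : ZMod (2 ^ a) → ZMod 2 × ZMod 2}

theorem count (ha : 2 ≤ a) (D : Data a b R g rP YP dP yP rQ YQ dQ yQ) (r : R) :
    (univ.filter (fun p => rP p = r)).card
      ≤ (univ.filter (fun q => rQ q = r ∧ Even q.val)).card := by
  classical
  have h1 : (univ.filter (fun p => rP p = r)).biUnion
        (fun p => univ.filter (fun x : HH a => 8 * (psi a p x - dP p) = 0))
      ⊆ (univ.filter (fun q => rQ q = r ∧ Even q.val)).biUnion
        (fun q => univ.filter (fun x : HH a => 4 * (phi a q x - dQ q) = 0)) := by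
    intro x hx
    simp only [mem_biUnion, mem_filter, mem_univ, true_and] at hx ⊢
    obtain ⟨p, hp, hpx⟩ := hx
    have h2 := par3 ha D r x
    have h3 : (∑ p', if rP p' = r ∧ 8 * (psi a p' x - dP p') = 0 then yP p' else 0) = yP p := by
      rw [sum_eq_single p]
      · rw [if_pos ⟨hp, hpx⟩]
      · intro p' _ hne
        rw [if_neg]
        rintro ⟨h4, h5⟩
        exact disj ha D p p' (Ne.symm hne) (hp.trans h4.symm) x ⟨hpx, h5⟩
      · intro h; exact absurd (mem_univ p) h
    rw [h3] at h2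
    have h4 : (∑ q, if rQ q = r ∧ Even q.val ∧ 4 * (phi a q x - dQ q) = 0 then yQ q else 0)
        ≠ 0 := by
      rw [← h2]
      exact (D.famP p).y_ne
    obtain ⟨q, _, hq⟩ := exists_ne_zero_of_sum_ne_zero h4
    refine ⟨q, ?_⟩
    by_contra h5
    apply hq
    rw [if_neg]
    rintro ⟨h6, h7, h8⟩
    exact h5 ⟨⟨h6, h7⟩, h8⟩
  have h2 := card_le_card h1
  rw [card_biUnion] at h2
  · have h3 : ∑ p ∈ univ.filter (fun p => rP p = r),
        (univ.filter (fun x : HH a => 8 * (psi a p x - dP p) = 0)).card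
        = (univ.filter (fun p => rP p = r)).card * 2 ^ (a + 3) := by
      rw [sum_congr rfl (fun p _ => card_psi a (by omega) p (dP p)), sum_const, smul_eq_mul]
    rw [h3] at h2
    have h4 := h2.trans card_biUnion_le
    have h5 : ∑ q ∈ univ.filter (fun q => rQ q = r ∧ Even q.val),
        (univ.filter (fun x : HH a => 4 * (phi a q x - dQ q) = 0)).card
        ≤ (univ.filter (fun q => rQ q = r ∧ Even q.val)).card * 2 ^ (a + 3) := by
      refine (sum_le_sum (fun q _ => card_phi a (by omega) q (dQ q))).trans ?_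
      rw [sum_const, smul_eq_mul]
    exact Nat.le_of_mul_le_mul_right (h4.trans h5) (by positivity)
  · intro p hp q hq hpq
    rw [mem_coe, mem_filter] at hp hq
    rw [Function.onFun, disjoint_left]
    intro x hx hy
    rw [mem_filter] at hx hy
    exact disj ha D p q hpq (hp.2.trans hq.2.symm) x ⟨hx.2, hy.2⟩

theorem no_data [Fintype R] (ha : 2 ≤ a) (D : Data a b R g rP YP dP yP rQ YQ dQ yQ) : False := by
  classical
  have h1 : (univ : Finset (ZMod (2 ^ a))).card
      = ∑ r : R, (univ.filter (fun p => rP p = r)).card :=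
    card_eq_sum_card_fiberwise (fun p _ => mem_coe.mpr (mem_univ _))
  have h2 : (univ.filter (fun q : ZMod (2 ^ a) => Even q.val)).card
      = ∑ r : R, (univ.filter (fun q => rQ q = r ∧ Even q.val)).card := by
    rw [card_eq_sum_card_fiberwise (f := rQ) (t := univ) (fun p _ => mem_coe.mpr (mem_univ _))]
    refine sum_congr rfl (fun r _ => ?_)
    rw [filter_filter]
    congr 1
    ext q
    simp only [mem_filter, mem_univ, true_and]
    exact and_comm
  have h3 : (univ : Finset (ZMod (2 ^ a))).card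
      ≤ (univ.filter (fun q : ZMod (2 ^ a) => Even q.val)).card := by
    rw [h1, h2]
    exact sum_le_sum (fun r _ => count ha D r)
  rw [card_univ, ZMod.card, card_even a (by omega)] at h3
  have h4 : 2 ^ (a - 1) < 2 ^ a := Nat.pow_lt_pow_right (by norm_num) (by omega)
  omega

end
end G
end MP82
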