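import Pool.Agent.Lib.MP_82ec8b_co.G.Val

/-!
# PB-Cross: orthogonality and energy over invariant sets

`cross_zero`: translate by `τ` (`Finset.sum_bij`/`sum_nbij'` with `x ↦ x + τ`): the sum equals its
negative, and `E` has no 2-torsion.

`energy_three`: expand `(f₁ + f₂ + f₃) * star (f₁ + f₂ + f₃)` and use `mul_star_eq`; all mixed sums
vanish (`f₂ * star f₁ = star (f₁ * star f₂)`); then `f₃` contributes `∑ N (f₃ x) ≥ 0`.

`energy_fibre`: for `x ∈ C` put `S x = ∑ i ∈ range 8, N (Y (ℓ x + i * 2 ^ (a - 1))) = 2 * 9 ^ b`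
(by `Fam.energy`). As `C` is invariant under `τ = (0, 2 ^ (a - 1))` and
`ℓ (x + i • τ) = ℓ x + i * 2 ^ (a - 1)`, each of the eight sums
`∑ x ∈ C, N (Y (ℓ x + i * 2 ^ (a - 1)))` equals `∑ x ∈ C, N (Y (ℓ x))`. Hence
`8 * ∑ x ∈ C, N (Y (ℓ x)) = C.card * (2 * 9 ^ b)`.
-/

namespace MP82
namespace G
open Finset

variable {H : Type} [AddCommGroup H] [Fintype H] [DecidableEq H]

private lemma sum_shift {M : Type*} [AddCommMonoid M] (C : Finset H) (τ : H)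
    (hC : ∀ x, x ∈ C ↔ x + τ ∈ C) (g : H → M) : ∑ x ∈ C, g (x + τ) = ∑ x ∈ C, g x :=
  Finset.sum_equiv (Equiv.addRight τ) (fun x => by simpa using hC x) (fun x _ => by simp)

lemma cross_zero (C : Finset H) (τ : H) (hC : ∀ x, x ∈ C ↔ x + τ ∈ C) (f₁ f₂ : H → E)
    (h₁ : ∀ x, f₁ (x + τ) = f₁ x) (h₂ : ∀ x, f₂ (x + τ) = - f₂ x) :
    ∑ x ∈ C, f₁ x * star (f₂ x) = 0 := by
  have h := sum_shift C τ hC (fun x => f₁ x * star (f₂ x))
  simp only [h₁, h₂, star_neg, mul_neg, sum_neg_distrib] at h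
  generalize ∑ x ∈ C, f₁ x * star (f₂ x) = S at h
  have hre : -S.re = S.re := by rw [← QuadraticAlgebra.re_neg, h]
  have him : -S.im = S.im := by rw [← QuadraticAlgebra.im_neg, h]
  ext
  · simp only [QuadraticAlgebra.re_zero]; omega
  · simp only [QuadraticAlgebra.im_zero]; omega

private def T : E →+ ℤ where
  toFun t := 2 * t.re - t.im
  map_zero' := by simp
  map_add' x y := by simp; ring

private lemma N_add3 (x y z : E) :
    N (x + y + z) = N x + N y + N z + T (x * star y) + T (x * star z) + T (y * star z) := by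
  simp [N, T]; ring

lemma energy_three (C : Finset H) (f₁ f₂ f₃ : H → E)
    (h12 : ∑ x ∈ C, f₁ x * star (f₂ x) = 0) (h13 : ∑ x ∈ C, f₁ x * star (f₃ x) = 0)
    (h23 : ∑ x ∈ C, f₂ x * star (f₃ x) = 0) :
    ∑ x ∈ C, N (f₁ x) + ∑ x ∈ C, N (f₂ x) ≤ ∑ x ∈ C, N (f₁ x + f₂ x + f₃ x) := by
  have e12 : ∑ x ∈ C, T (f₁ x * star (f₂ x)) = 0 := by rw [← map_sum, h12, map_zero]
  have e13 : ∑ x ∈ C, T (f₁ x * star (f₃ x)) = 0 := by rw [← map_sum, h13, map_zero]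
  have e23 : ∑ x ∈ C, T (f₂ x * star (f₃ x)) = 0 := by rw [← map_sum, h23, map_zero]
  have e3 : 0 ≤ ∑ x ∈ C, N (f₃ x) := sum_nonneg fun x _ => N_nonneg _
  simp only [N_add3, sum_add_distrib]
  omega

lemma energy_fibre {m : ℕ} (C : Finset H) (τ : H) (hC : ∀ x, x ∈ C ↔ x + τ ∈ C)
    (ℓ : H → ZMod (2 ^ m)) (hℓ : ∀ x y, ℓ (x + y) = ℓ x + ℓ y) (Y : ZMod (2 ^ m) → E) (w : ℤ)
    (hY : ∀ x ∈ C, ∑ i ∈ range 8, N (Y (ℓ x + i * ℓ τ)) = w) :
    8 * ∑ x ∈ C, N (Y (ℓ x)) = C.card * w := by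
  have key : ∀ i : ℕ, ∑ x ∈ C, N (Y (ℓ x + i * ℓ τ)) = ∑ x ∈ C, N (Y (ℓ x)) := by
    intro i
    induction i with
    | zero => simp
    | succ i ih =>
      rw [← ih, ← sum_shift C τ hC (fun x => N (Y (ℓ x + i * ℓ τ)))]
      refine sum_congr rfl fun x _ => ?_
      rw [hℓ]
      congr 2
      push_cast
      ring
  calc 8 * ∑ x ∈ C, N (Y (ℓ x)) = ∑ i ∈ range 8, ∑ x ∈ C, N (Y (ℓ x + i * ℓ τ)) := by
        simp only [key, sum_const, card_range]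
        simp
    _ = ∑ x ∈ C, ∑ i ∈ range 8, N (Y (ℓ x + i * ℓ τ)) := sum_comm
    _ = ∑ x ∈ C, w := sum_congr rfl hY
    _ = C.card * w := by simp

/-- `|z - w|² ≤ 4 M` if `|z|², |w|² ≤ M`. -/
lemma N_sub_le (z w : E) (M : ℤ) (hz : N z ≤ M) (hw : N w ≤ M) : N (z - w) ≤ 4 * M := by
  have h1 : N (z - w) + N (z + w) = 2 * N z + 2 * N w := by simp [N]; ring
  have h2 := N_nonneg (z + w)
  omega

end G
end MP82
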