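import Pool.Agent.Lib.MP_82ec8b_co.Basic

/-!
# Definitions for the general theorem (all 2-parts with `i ≠ j`)

`E = ℤ[ω]`, `N`, `red` are those of `Basic.lean`. The modulus `16` is replaced by `2 ^ m`.
-/

namespace MP82
namespace G
open Finset

variable {H : Type} [AddCommGroup H] [Fintype H] [DecidableEq H]

/-- Pushforward of `u` along `ℓ`. -/
def push {m : ℕ} (ℓ : H → ZMod (2 ^ m)) (u : H → E) (s : ZMod (2 ^ m)) : E :=
  ∑ x, if ℓ x = s then u x else 0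

/-- The anti-periodic component. -/
def cc {m : ℕ} (ℓ : H → ZMod (2 ^ m)) (u : H → E) (s : ZMod (2 ^ m)) : E :=
  push ℓ u s - push ℓ u (s + 2 ^ (m - 1))

/-- `x ↦ 4 x`, `ZMod (2 ^ a) → ZMod (2 ^ (a + 2))` (an additive injection, see `Val.lean`). -/
def jj (a : ℕ) (z : ZMod (2 ^ a)) : ZMod (2 ^ (a + 2)) := 4 * ((z.val : ℕ) : ZMod (2 ^ (a + 2)))

/-- The group `ℤ/2^a × ℤ/2^(a+2)`. -/
abbrev HH (a : ℕ) := ZMod (2 ^ a) × ZMod (2 ^ (a + 2))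

/-- Characters of level 1: `ψ_p(x) = 4 p x₁ + x₂`. -/
def psi (a : ℕ) (p : ZMod (2 ^ a)) (x : HH a) : ZMod (2 ^ (a + 2)) := jj a (p * x.1) + x.2

/-- Characters of level 2: `φ_q(x) = 4 q x₁ + 2 x₂`. -/
def phi (a : ℕ) (q : ZMod (2 ^ a)) (x : HH a) : ZMod (2 ^ (a + 2)) := jj a (q * x.1) + 2 * x.2

/-- The outcome of the descent for one character `ℓ : H → ZMod (2 ^ (a + 2))` and the family
`g r` (`r` in a finite set): exactly one `r` is active; its component is `2 ^ a * Y`, `Y` is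
antiperiodic, supported on one class modulo `2 ^ (a - 1)`, has energy `2 * 9 ^ b`, and modulo `2`
the function `Y s + Y (s + 2 ^ a)` is a nonzero constant `y` on one class modulo `2 ^ a` and `0`
elsewhere. -/
structure Fam (a b : ℕ) {R : Type} (ℓ : H → ZMod (2 ^ (a + 2))) (g : R → H → E)
    (r0 : R) (Y : ZMod (2 ^ (a + 2)) → E) (d : ZMod (2 ^ (a + 2))) (y : ZMod 2 × ZMod 2) :
    Prop where
  zero : ∀ r, r ≠ r0 → ∀ s, cc ℓ (g r) s = 0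
  comp : ∀ s, cc ℓ (g r0) s = 2 ^ a * Y s
  anti : ∀ s, Y (s + 2 ^ (a + 1)) = - Y s
  supp : ∀ s, 8 * (s - d) ≠ 0 → Y s = 0
  energy : ∀ s, 8 * (s - d) = 0 → ∑ i ∈ range 8, N (Y (s + i * 2 ^ (a - 1))) = 2 * 9 ^ b
  y_ne : y ≠ 0
  par : ∀ s, red (Y s) + red (Y (s + 2 ^ a)) = if 4 * (s - d) = 0 then y else 0

/-- The data for all characters of level 1 (`p`) and level 2 (`q`) of `HH a`. -/
structure Data (a b : ℕ) (R : Type) (g : R → HH a → E)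
    (rP : ZMod (2 ^ a) → R) (YP : ZMod (2 ^ a) → ZMod (2 ^ (a + 2)) → E)
    (dP : ZMod (2 ^ a) → ZMod (2 ^ (a + 2))) (yP : ZMod (2 ^ a) → ZMod 2 × ZMod 2)
    (rQ : ZMod (2 ^ a) → R) (YQ : ZMod (2 ^ a) → ZMod (2 ^ (a + 2)) → E)
    (dQ : ZMod (2 ^ a) → ZMod (2 ^ (a + 2))) (yQ : ZMod (2 ^ a) → ZMod 2 × ZMod 2) : Prop where
  famP : ∀ p, Fam a b (psi a p) g (rP p) (YP p) (dP p) (yP p)
  famQ : ∀ q, Fam a b (phi a q) g (rQ q) (YQ q) (dQ q) (yQ q)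
  bound : ∀ r x, N (g r x) ≤ 9 ^ (b - 1)
  one_le : 1 ≤ b

end G
end MP82
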