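import Pool.Agent.Lib.MP_82ec8b_co.G.Lev
import Pool.Agent.Lib.MP_82ec8b_co.G.Cross

/-!
# PB-Disj: the supports `B p = {x | 8 (ψ_p x - d_p) = 0}` with the same `rP` are disjoint

Suppose not. Among all pairs `(p, q)`, `p ≠ q`, `rP p = rP q = r`, `B p ∩ B q ≠ ∅`, choose one with
`v2 a (q - p)` maximal (`Finset.exists_max_image` over `univ : Finset (ZMod _ × ZMod _)` filtered);
`v2 a (q - p) = v2 a (p - q)` (or use the pair `(q,p)` which is also in the set: both values are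
`≤` the maximum, hence equal).
Let `C = B p ∩ B q` (a finset), `s = v2 a (q - p)`.
(1) `C` is invariant under `(0, 2 ^ (a - 1))`: both characters change by `2 ^ (a - 1)`,
  `8 * 2 ^ (a - 1) = 2 ^ (a + 2) = 0`.
(2) For `q' ≠ p` with `rP q' = r` and `B p ∩ B q' ≠ ∅`: `v2 a (q' - p) ≤ s`. By `exists_shift` with
  `z' = q' - p`, `z = q - p` there is `y` with `(q' - p) y = 2 ^ (a - 1)` and
  `(q - p) y ∈ {0, 2 ^ (a - 1)}`. Put `τ = (y, - jj a (p * y))`. Then `psi a p τ = 0`,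
  `psi a q' τ = jj a ((q' - p) y) = 2 ^ (a + 1)`, `psi a q τ = jj a ((q - p) y) ∈ {0, 2 ^ (a + 1)}`,
  so `C` is `τ`-invariant, `YP p ∘ psi a p` is `τ`-invariant and `YP q' ∘ psi a q'` is
  `τ`-antiinvariant (`Fam.anti`). `cross_zero`: `∑ x ∈ C, YP p (ψ_p x) * star (YP q' (ψ_q' x)) = 0`.
  If `B p ∩ B q' = ∅` the sum is `0` by `Fam.supp`.
  Same with `p` and `q` exchanged.
(3) `level1`: `g r x - g r (x + h) = YP p (ψ_p x) + YP q (ψ_q x) + rest x`, the rest being the sum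
  over the other `q'` with `rP q' = r`; by (2) and `energy_three`
  `∑_C N(YP p ψ_p) + ∑_C N(YP q ψ_q) ≤ ∑_C N(g r x - g r (x+h)) ≤ 4 * 9 ^ (b - 1) * C.card`
  (`N_sub_le`, `Data.bound`).
(4) `energy_fibre` (with `τ = (0, 2 ^ (a-1))`, `w = 2 * 9 ^ b`): `8 * ∑_C N(YP p ψ_p) = C.card * (2 * 9 ^ b)`,
  same for `q`. Hence `C.card * (4 * 9 ^ b) ≤ 32 * 9 ^ (b - 1) * C.card`, i.e. `36 ≤ 32`. Contradiction
  (`C` is nonempty).
-/

namespace MP82
namespace G
open Finset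

section
variable {a b : ℕ} {R : Type} [DecidableEq R] {g : R → HH a → E}
  {rP : ZMod (2 ^ a) → R} {YP : ZMod (2 ^ a) → ZMod (2 ^ (a + 2)) → E}
  {dP : ZMod (2 ^ a) → ZMod (2 ^ (a + 2))} {yP : ZMod (2 ^ a) → ZMod 2 × ZMod 2}
  {rQ : ZMod (2 ^ a) → R} {YQ : ZMod (2 ^ a) → ZMod (2 ^ (a + 2)) → E}
  {dQ : ZMod (2 ^ a) → ZMod (2 ^ (a + 2))} {yQ : ZMod (2 ^ a) → ZMod 2 × ZMod 2}

private lemma eight_half (a : ℕ) (ha : 2 ≤ a) :
    (8 : ZMod (2 ^ (a + 2))) * 2 ^ (a - 1) = 0 := by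
  obtain ⟨k, rfl⟩ : ∃ k, a = k + 1 := ⟨a - 1, by omega⟩
  have h := pow_self (k + 1 + 2)
  rw [show k + 1 + 2 = k + 3 by ring] at h
  have e : k + 1 - 1 = k := by omega
  rw [e]
  have h2 := pow_self (k + 1 + 2)
  have e3 : (2 : ZMod (2 ^ (k + 1 + 2))) ^ (k + 1 + 2) = 8 * 2 ^ k := by
    rw [pow_add (2 : ZMod (2 ^ (k + 1 + 2))) (k + 1) 2, pow_add (2 : ZMod (2 ^ (k + 1 + 2))) k 1]
    ring
  rw [← e3]
  exact h2

private lemma eight_top (a : ℕ) : (8 : ZMod (2 ^ (a + 2))) * 2 ^ (a + 1) = 0 := by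
  have h2 := pow_self (a + 2)
  have e3 : (8 : ZMod (2 ^ (a + 2))) * 2 ^ (a + 1) = 4 * 2 ^ (a + 2) := by
    rw [pow_add (2 : ZMod (2 ^ (a + 2))) a 1, pow_add (2 : ZMod (2 ^ (a + 2))) a 2]
    ring
  rw [e3, h2, mul_zero]

private lemma cross_pair (D : Data a b R g rP YP dP yP rQ YQ dQ yQ)
    (p₁ p₂ : ZMod (2 ^ a)) (τ : HH a) (h₁ : psi a p₁ τ = 0) (h₂ : psi a p₂ τ = 2 ^ (a + 1))
    (C : Finset (HH a)) (hC : ∀ x, x ∈ C ↔ x + τ ∈ C) :
    ∑ x ∈ C, YP p₁ (psi a p₁ x) * star (YP p₂ (psi a p₂ x)) = 0 := by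
  refine cross_zero C τ hC (fun x => YP p₁ (psi a p₁ x)) (fun x => YP p₂ (psi a p₂ x)) ?_ ?_
  · intro x
    show YP p₁ (psi a p₁ (x + τ)) = YP p₁ (psi a p₁ x)
    rw [psi_add, h₁, add_zero]
  · intro x
    show YP p₂ (psi a p₂ (x + τ)) = - YP p₂ (psi a p₂ x)
    rw [psi_add, h₂]
    exact (D.famP p₂).anti _

private lemma psi_shift (a : ℕ) (p y : ZMod (2 ^ a)) (q : ZMod (2 ^ a)) :
    psi a q (y, - jj a (p * y)) = jj a ((q - p) * y) := by
  unfold psi
  show jj a (q * y) + - jj a (p * y) = _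
  rw [← sub_eq_add_neg, ← jj_sub]
  congr 1
  ring

private lemma psi_zero_fst (a : ℕ) (p : ZMod (2 ^ a)) (t : ZMod (2 ^ (a + 2))) :
    psi a p (0, t) = t := by
  unfold psi
  show jj a (p * 0) + t = t
  rw [mul_zero, jj_zero, zero_add]

private lemma inv_iff (p q : ZMod (2 ^ a)) (C : Finset (HH a))
    (hC : ∀ x, x ∈ C ↔ 8 * (psi a p x - dP p) = 0 ∧ 8 * (psi a q x - dP q) = 0)
    (τ : HH a) (hp : 8 * psi a p τ = 0) (hq : 8 * psi a q τ = 0) :
    ∀ x, x ∈ C ↔ x + τ ∈ C := by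
  intro x
  rw [hC, hC, psi_add, psi_add]
  have e1 : 8 * (psi a p x + psi a p τ - dP p) = 8 * (psi a p x - dP p) := by
    linear_combination hp
  have e2 : 8 * (psi a q x + psi a q τ - dP q) = 8 * (psi a q x - dP q) := by
    linear_combination hq
  rw [e1, e2]

/-- The main computation, for a pair which is extremal in the sense of `hmax₁`, `hmax₂`. -/
private lemma main_pair (ha : 2 ≤ a) (D : Data a b R g rP YP dP yP rQ YQ dQ yQ)
    (p q : ZMod (2 ^ a)) (r : R) (hpq : p ≠ q) (hrp : rP p = r) (hrq : rP q = r)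
    (hmax₁ : ∀ q', q' ≠ p → rP q' = r →
      (∃ x, 8 * (psi a p x - dP p) = 0 ∧ 8 * (psi a q' x - dP q') = 0) →
        v2 a (q' - p) ≤ v2 a (q - p))
    (hmax₂ : ∀ q', q' ≠ q → rP q' = r →
      (∃ x, 8 * (psi a q x - dP q) = 0 ∧ 8 * (psi a q' x - dP q') = 0) →
        v2 a (q' - q) ≤ v2 a (q - p))
    (hne : ∃ x, 8 * (psi a p x - dP p) = 0 ∧ 8 * (psi a q x - dP q) = 0) : False := by
  classical
  obtain ⟨x₀, hx₀⟩ := hne
  set C : Finset (HH a) := Finset.univ.filter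
    (fun x => 8 * (psi a p x - dP p) = 0 ∧ 8 * (psi a q x - dP q) = 0) with hCdef
  have hC : ∀ x, x ∈ C ↔ 8 * (psi a p x - dP p) = 0 ∧ 8 * (psi a q x - dP q) = 0 := by
    intro x
    rw [hCdef, Finset.mem_filter]
    simp
  have h1a : 1 ≤ a := by omega
  -- first family of orthogonality relations
  have or₁ : ∀ q', q' ≠ p → rP q' = r →
      ∑ x ∈ C, YP p (psi a p x) * star (YP q' (psi a q' x)) = 0 := by
    intro q' hq' hr'
    by_cases hex : ∃ x, 8 * (psi a p x - dP p) = 0 ∧ 8 * (psi a q' x - dP q') = 0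
    · obtain ⟨y, hy1, hy2⟩ := exists_shift a h1a (q - p) (q' - p) (sub_ne_zero.2 hq')
        (hmax₁ q' hq' hr' hex)
      refine cross_pair D p q' (y, - jj a (p * y)) ?_ ?_ C ?_
      · rw [psi_shift, sub_self, zero_mul, jj_zero]
      · rw [psi_shift, hy1, jj_half a h1a]
      · apply inv_iff p q C hC
        · rw [psi_shift, sub_self, zero_mul, jj_zero, mul_zero]
        · rw [psi_shift]
          rcases hy2 with h | h
          · rw [h, jj_zero, mul_zero]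
          · rw [h, jj_half a h1a, eight_top]
    · apply Finset.sum_eq_zero
      intro x hx
      have h0 : YP q' (psi a q' x) = 0 := by
        apply (D.famP q').supp
        intro h
        exact hex ⟨x, ((hC x).1 hx).1, h⟩
      rw [h0, star_zero, mul_zero]
  have or₂ : ∀ q', q' ≠ q → rP q' = r →
      ∑ x ∈ C, YP q (psi a q x) * star (YP q' (psi a q' x)) = 0 := by
    intro q' hq' hr'
    by_cases hex : ∃ x, 8 * (psi a q x - dP q) = 0 ∧ 8 * (psi a q' x - dP q') = 0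
    · obtain ⟨y, hy1, hy2⟩ := exists_shift a h1a (q - p) (q' - q) (sub_ne_zero.2 hq')
        (hmax₂ q' hq' hr' hex)
      refine cross_pair D q q' (y, - jj a (q * y)) ?_ ?_ C ?_
      · rw [psi_shift, sub_self, zero_mul, jj_zero]
      · rw [psi_shift, hy1, jj_half a h1a]
      · apply inv_iff p q C hC
        · rw [psi_shift]
          have e : (p - q) * y = - ((q - p) * y) := by ring
          rw [e, jj_neg]
          rcases hy2 with h | h
          · rw [h, jj_zero, neg_zero, mul_zero]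
          · rw [h, jj_half a h1a, mul_neg, eight_top, neg_zero]
        · rw [psi_shift, sub_self, zero_mul, jj_zero, mul_zero]
    · apply Finset.sum_eq_zero
      intro x hx
      have h0 : YP q' (psi a q' x) = 0 := by
        apply (D.famP q').supp
        intro h
        exact hex ⟨x, ((hC x).1 hx).2, h⟩
      rw [h0, star_zero, mul_zero]
  set T : Finset (ZMod (2 ^ a)) := Finset.univ.filter (fun q' => rP q' = r ∧ q' ≠ p ∧ q' ≠ q)
    with hT
  have h13 : ∑ x ∈ C, YP p (psi a p x) * star (∑ q' ∈ T, YP q' (psi a q' x)) = 0 := by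
    simp only [star_sum, Finset.mul_sum]
    rw [Finset.sum_comm]
    apply Finset.sum_eq_zero
    intro q' hq'
    rw [hT, Finset.mem_filter] at hq'
    exact or₁ q' hq'.2.2.1 hq'.2.1
  have h23 : ∑ x ∈ C, YP q (psi a q x) * star (∑ q' ∈ T, YP q' (psi a q' x)) = 0 := by
    simp only [star_sum, Finset.mul_sum]
    rw [Finset.sum_comm]
    apply Finset.sum_eq_zero
    intro q' hq'
    rw [hT, Finset.mem_filter] at hq'
    exact or₂ q' hq'.2.2.2 hq'.2.1
  have h12 := or₁ q (Ne.symm hpq) hrq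
  have en := energy_three C (fun x => YP p (psi a p x)) (fun x => YP q (psi a q x))
    (fun x => ∑ q' ∈ T, YP q' (psi a q' x)) h12 h13 h23
  have lev : ∀ x, YP p (psi a p x) + YP q (psi a q x) + ∑ q' ∈ T, YP q' (psi a q' x)
      = g r x - g r (x + (0, 2 ^ (a + 1))) := by
    intro x
    rw [level1 h1a D r x, ← Finset.sum_filter]
    have e1 : Finset.univ.filter (fun q' => rP q' = r) = insert p (insert q T) := by
      ext q'
      simp only [hT, Finset.mem_filter, Finset.mem_univ, true_and, Finset.mem_insert]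
      constructor
      · intro h
        by_cases h1 : q' = p
        · exact Or.inl h1
        · by_cases h2 : q' = q
          · exact Or.inr (Or.inl h2)
          · exact Or.inr (Or.inr ⟨h, h1, h2⟩)
      · rintro (h | h | h)
        · rw [h]; exact hrp
        · rw [h]; exact hrq
        · exact h.1
    have n1 : q ∉ T := by
      simp [hT]
    have n2 : p ∉ insert q T := by
      simp [hT, hpq]
    rw [e1, Finset.sum_insert n2, Finset.sum_insert n1]
    ring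
  have bd : ∑ x ∈ C, N (YP p (psi a p x) + YP q (psi a q x) + ∑ q' ∈ T, YP q' (psi a q' x))
      ≤ (C.card : ℤ) * (4 * 9 ^ (b - 1)) := by
    have h : ∀ x ∈ C, N (YP p (psi a p x) + YP q (psi a q x) + ∑ q' ∈ T, YP q' (psi a q' x))
        ≤ 4 * 9 ^ (b - 1) := by
      intro x _
      rw [lev]
      exact N_sub_le _ _ _ (D.bound r _) (D.bound r _)
    have h2 := Finset.sum_le_card_nsmul C _ _ h
    rw [nsmul_eq_mul] at h2
    exact h2
  have t8 : 8 * psi a p ((0, 2 ^ (a - 1)) : HH a) = 0 := by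
    rw [psi_zero_fst, eight_half a ha]
  have t8' : 8 * psi a q ((0, 2 ^ (a - 1)) : HH a) = 0 := by
    rw [psi_zero_fst, eight_half a ha]
  have inv := inv_iff p q C hC (0, 2 ^ (a - 1)) t8 t8'
  have f₁ := energy_fibre C (0, 2 ^ (a - 1)) inv (psi a p) (psi_add a p) (YP p) (2 * 9 ^ b) (by
    intro x hx
    rw [psi_zero_fst]
    exact (D.famP p).energy _ ((hC x).1 hx).1)
  have f₂ := energy_fibre C (0, 2 ^ (a - 1)) inv (psi a q) (psi_add a q) (YP q) (2 * 9 ^ b) (by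
    intro x hx
    rw [psi_zero_fst]
    exact (D.famP q).energy _ ((hC x).1 hx).2)
  have hpos : 0 < C.card := Finset.card_pos.2 ⟨x₀, (hC x₀).2 hx₀⟩
  have hpos' : (0 : ℤ) < C.card := by exact_mod_cast hpos
  have hb : (9 : ℤ) ^ b = 9 * 9 ^ (b - 1) := by
    obtain ⟨k, hk⟩ : ∃ k, b = k + 1 := ⟨b - 1, by have := D.one_le; omega⟩
    rw [hk]
    simp only [Nat.add_sub_cancel]
    ring
  rw [hb] at f₁ f₂
  have hq9 : (0 : ℤ) < 9 ^ (b - 1) := by positivity
  have hprod : (0 : ℤ) < (C.card : ℤ) * 9 ^ (b - 1) := mul_pos hpos' hq9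
  have en' := le_trans en bd
  nlinarith

theorem disj (ha : 2 ≤ a) (D : Data a b R g rP YP dP yP rQ YQ dQ yQ) (p q : ZMod (2 ^ a))
    (hpq : p ≠ q) (hr : rP p = rP q) (x : HH a) :
    ¬ (8 * (psi a p x - dP p) = 0 ∧ 8 * (psi a q x - dP q) = 0) := by
  classical
  intro hx
  set S : Finset (ZMod (2 ^ a) × ZMod (2 ^ a)) := Finset.univ.filter
    (fun z => z.1 ≠ z.2 ∧ rP z.1 = rP p ∧ rP z.2 = rP p ∧
      ∃ x, 8 * (psi a z.1 x - dP z.1) = 0 ∧ 8 * (psi a z.2 x - dP z.2) = 0) with hS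
  have hmem : ∀ z₁ z₂, (z₁, z₂) ∈ S ↔ (z₁ ≠ z₂ ∧ rP z₁ = rP p ∧ rP z₂ = rP p ∧
      ∃ x, 8 * (psi a z₁ x - dP z₁) = 0 ∧ 8 * (psi a z₂ x - dP z₂) = 0) := by
    intro z₁ z₂
    rw [hS, Finset.mem_filter]
    simp
  have hne : S.Nonempty := ⟨(p, q), (hmem p q).2 ⟨hpq, rfl, hr.symm, x, hx⟩⟩
  obtain ⟨⟨u, v⟩, huv, hmax⟩ := Finset.exists_max_image S (fun z => v2 a (z.2 - z.1)) hne
  obtain ⟨h1, h2, h3, h4⟩ := (hmem u v).1 huv
  refine main_pair ha D u v (rP p) h1 h2 h3 ?_ ?_ h4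
  · intro q' hq' hr' hex
    exact hmax (u, q') ((hmem u q').2 ⟨Ne.symm hq', h2, hr', hex⟩)
  · intro q' hq' hr' hex
    exact hmax (v, q') ((hmem v q').2 ⟨Ne.symm hq', h3, hr', hex⟩)

end
end G
end MP82
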