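import Pool.Agent.Lib.MP_82ec8b_co.M1Field

/-! The descent for `n = 2 ^ m * 3 ^ K`. -/

namespace MP82
namespace G
open Finset NumberField

section field

set_option linter.unusedSectionVars false

variable {n : ℕ} [NeZero n] {F : Type} [Field F] [NumberField F] [IsCyclotomicExtension {n} ℚ F]
  {ζ : F} (hζ : IsPrimitiveRoot ζ n)

include hζ

/-- Descent, divisibility part. -/
lemma dvd_sg {m K e2 e3 u i j : ℕ} (hn : n = 2 ^ m * 3 ^ K) (hu : u.Coprime n)
    (h3 : u ≡ 3 ^ e3 [MOD 2 ^ m]) (h2 : u ≡ 2 ^ e2 [MOD 3 ^ K]) (X Xb : 𝓞 F)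
    (hX : X * Xb = 2 ^ i * 3 ^ j) : X ∣ sg hζ u X := by
  have key : ∀ I : Ideal (𝓞 F), I ∣ Ideal.span {((2 : 𝓞 F) ^ i * 3 ^ j)} →
      ∀ w ∈ I, sg hζ u w ∈ I := by
    intro I
    induction I using UniqueFactorizationMonoid.induction_on_prime with
    | h₁ =>
      intro _ w hw
      simp only [Submodule.zero_eq_bot, Ideal.mem_bot] at hw ⊢
      rw [hw, map_zero]
    | h₂ I hI =>
      intro _ w _
      rw [Ideal.isUnit_iff] at hI
      rw [hI]; trivial
    | h₃ I P hI hP ih =>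
      intro hdvd w hw
      have hP' : P.IsPrime := (Ideal.prime_iff_isPrime hP.ne_zero).1 hP
      have hmem : ((2 : 𝓞 F) ^ i * 3 ^ j) ∈ P := by
        have := (dvd_mul_right P I).trans hdvd
        rw [Ideal.dvd_span_singleton] at this
        exact this
      have hst : ∀ w ∈ P, sg hζ u w ∈ P := by
        rcases hP'.mem_or_mem hmem with h | h
        · have h2P : ((2 : ℕ) : 𝓞 F) ∈ P := by
            exact_mod_cast hP'.mem_of_pow_mem _ h
          exact stable_prime hζ (a := m) (n' := 3 ^ K) Nat.prime_two (by rw [hn]; ring) hu h2 P hP'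
            h2P
        · have h3P : ((3 : ℕ) : 𝓞 F) ∈ P := by
            exact_mod_cast hP'.mem_of_pow_mem _ h
          exact stable_prime hζ (a := K) (n' := 2 ^ m) Nat.prime_three hn hu h3 P hP' h3P
      have hst2 := ih ((dvd_mul_left I P).trans hdvd)
      have h4 : Ideal.map (sg hζ u) (P * I) ≤ P * I := by
        rw [Ideal.map_mul]
        refine Ideal.mul_mono ?_ ?_
        · rw [Ideal.map_le_iff_le_comap]; exact hst
        · rw [Ideal.map_le_iff_le_comap]; exact hst2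
      exact h4 (Ideal.mem_map_of_mem _ hw)
  have h1 := key (Ideal.span {X}) (by
    rw [Ideal.dvd_span_singleton, ← hX]
    exact Ideal.mul_mem_right _ _ (Ideal.mem_span_singleton_self X)) X
    (Ideal.mem_span_singleton_self X)
  exact Ideal.mem_span_singleton.1 h1

/-- The descent: `σ X = ζ^k X`. -/
theorem descent {m K e2 e3 u i j : ℕ} (hm : 1 ≤ m) (hn : n = 2 ^ m * 3 ^ K) (hu : u.Coprime n)
    (h3 : u ≡ 3 ^ e3 [MOD 2 ^ m]) (h2 : u ≡ 2 ^ e2 [MOD 3 ^ K]) (X : 𝓞 F)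
    (hX : X * sg hζ (n - 1) X = 2 ^ i * 3 ^ j) : ∃ k : ℕ, sg hζ u X = hζ.toInteger ^ k * X := by
  have hn1 : 1 < n := by
    rw [hn]
    have h1 := Nat.one_le_pow K 3 (by norm_num)
    have h2 : 2 ^ 1 ≤ 2 ^ m := Nat.pow_le_pow_right (by norm_num) hm
    nlinarith
  have he : Even n := by
    rw [hn]
    exact (Nat.even_pow.2 ⟨even_two, by omega⟩).mul_right _
  obtain ⟨ε, hε⟩ := dvd_sg hζ hn hu h3 h2 X _ hX
  have hX0 : ((2 : 𝓞 F) ^ i * 3 ^ j) ≠ 0 :=
    mul_ne_zero (pow_ne_zero _ (by norm_num)) (pow_ne_zero _ (by norm_num))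
  have h4 : (2 : 𝓞 F) ^ i * 3 ^ j = (ε * sg hζ (n - 1) ε) * (2 ^ i * 3 ^ j) := by
    calc (2 : 𝓞 F) ^ i * 3 ^ j = sg hζ u (2 ^ i * 3 ^ j) := by
          rw [map_mul, map_pow, map_pow, map_ofNat, map_ofNat]
      _ = sg hζ u X * sg hζ (n - 1) (sg hζ u X) := by
        rw [← hX, map_mul, sg_comm hζ hu (coprime_pred hζ hn1)]
      _ = (ε * sg hζ (n - 1) ε) * (X * sg hζ (n - 1) X) := by rw [hε, map_mul]; ring
      _ = _ := by rw [hX]
  have h5 : ε * sg hζ (n - 1) ε = 1 := by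
    have := mul_right_cancel₀ hX0 (h4.symm.trans (one_mul _).symm)
    exact this
  obtain ⟨k, hk⟩ := eq_pow_of_conj hζ hn1 he ε h5
  exact ⟨k, by rw [hε, hk, mul_comm]⟩

end field
end G
end MP82
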