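import Pool.Agent.Lib.MP_82ec8b_co.M1Char
import Pool.Agent.Lib.MP_82ec8b_co.G.MField

/-! Character sums for `ZMod (2 ^ n)`; powers of `9` modulo `2 ^ n`. -/

namespace MP82
namespace G
open Finset NumberField

/-- powers of `9` modulo `2 ^ n` -/
lemma nine_pow (k : ℕ) : ∃ w : ℤ, (9 : ℤ) ^ (2 ^ k) = 1 + 2 ^ (k + 3) * (1 + 2 * w) := by
  induction k with
  | zero => exact ⟨0, by norm_num⟩
  | succ k ih =>
    obtain ⟨w, hw⟩ := ih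
    refine ⟨w + 2 ^ (k + 1) * (1 + 2 * w) ^ 2, ?_⟩
    rw [pow_succ 2 k, pow_mul, hw]
    ring

lemma nine_step (K : ℕ) (hK : 3 ≤ K) (e : ℕ) (t y : ℤ) (h : (9 : ℤ) ^ e = 1 + 8 * t + 2 ^ K * y) :
    ∃ e' : ℕ, ∃ y' : ℤ, (9 : ℤ) ^ e' = 1 + 8 * t + 2 ^ K * (y + 1 + 2 * y') := by
  obtain ⟨k, rfl⟩ : ∃ k, K = k + 3 := ⟨K - 3, by omega⟩
  obtain ⟨w, hw⟩ := nine_pow k
  refine ⟨e + 2 ^ k, w + (4 * t + 2 ^ (k + 2) * y) * (1 + 2 * w), ?_⟩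
  rw [pow_add, hw, h]
  ring

lemma nine_gen (K : ℕ) (hK : 3 ≤ K) : ∀ t : ℤ, ∃ e : ℕ, ∃ y : ℤ,
    (9 : ℤ) ^ e = 1 + 8 * t + 2 ^ K * y := by
  induction K, hK using Nat.le_induction with
  | base => intro t; exact ⟨0, -t, by ring⟩
  | succ K hK ih =>
    intro t
    obtain ⟨e, y, h⟩ := ih t
    rcases Int.even_or_odd' y with ⟨z, rfl | rfl⟩
    · exact ⟨e, z, by rw [h]; ring⟩
    · obtain ⟨e', y', h'⟩ := nine_step K hK e t _ h
      exact ⟨e', z + 1 + y', by rw [h']; ring⟩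

lemma two_pow_self (n : ℕ) : (2 : ZMod (2 ^ n)) ^ n = 0 := by
  have := ZMod.natCast_self (2 ^ n)
  push_cast at this
  exact this

lemma nine_gen_zmod (n : ℕ) (hn : 3 ≤ n) (t : ZMod (2 ^ n)) :
    ∃ e : ℕ, (1 + 8 * t : ZMod (2 ^ n)) = 9 ^ e := by
  obtain ⟨e, y, h⟩ := nine_gen n hn (t.cast : ℤ)
  refine ⟨e, ?_⟩
  have h1 := congrArg (fun z : ℤ => (z : ZMod (2 ^ n))) h
  push_cast at h1
  rw [h1, two_pow_self]
  simp

/-- The geometric sum `Σ_{i<2^(n-3)} u^i` for `u ≡ 9 mod 2^n` is `2^(n-3)` times an odd number. -/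
lemma geom_nine (n : ℕ) (hn : 3 ≤ n) (u : ℕ) (hu : u ≡ 9 [MOD 2 ^ n]) :
    ¬ (2 ^ (n - 2) ∣ ∑ i ∈ range (2 ^ (n - 3)), u ^ i) := by
  intro h
  obtain ⟨k, rfl⟩ : ∃ k, n = k + 3 := ⟨n - 3, by omega⟩
  have e1 : k + 3 - 3 = k := by omega
  have e2 : k + 3 - 2 = k + 1 := by omega
  rw [e1, e2] at h
  have h1 : (∑ i ∈ range (2 ^ k), u ^ i) ≡ (∑ i ∈ range (2 ^ k), 9 ^ i) [MOD 2 ^ (k + 1)] := by
    have hu' : u ≡ 9 [MOD 2 ^ (k + 1)] := hu.of_dvd (pow_dvd_pow 2 (by omega))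
    apply Nat.ModEq.sum
    intro i _
    exact hu'.pow i
  have h2 : 2 ^ (k + 1) ∣ ∑ i ∈ range (2 ^ k), 9 ^ i := by
    rwa [Nat.ModEq.dvd_iff h1 dvd_rfl] at h
  obtain ⟨q, hq⟩ := h2
  have h3 : (∑ i ∈ range (2 ^ k), (9 : ℤ) ^ i) * (9 - 1) = 9 ^ (2 ^ k) - 1 :=
    geom_sum_mul 9 (2 ^ k)
  have h4 : (∑ i ∈ range (2 ^ k), (9 : ℤ) ^ i) = 2 ^ (k + 1) * q := by exact_mod_cast hq
  obtain ⟨w, hw⟩ := nine_pow k
  rw [h4, hw] at h3
  have h5 : (2 : ℤ) ^ (k + 3) * (2 * q) = 2 ^ (k + 3) * (1 + 2 * w) := by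
    have : (2 : ℤ) ^ (k + 3) = 2 ^ (k + 1) * 4 := by ring
    rw [this] at h3 ⊢
    linarith
  have h6 := mul_left_cancel₀ (pow_ne_zero _ (by norm_num)) h5
  omega

lemma two_mul_eq_zero' (n : ℕ) (hn : 1 ≤ n) (z : ZMod (2 ^ n)) :
    2 * z = 0 ↔ (z = 0 ∨ z = 2 ^ (n - 1)) := by
  obtain ⟨k, rfl⟩ : ∃ k, n = k + 1 := ⟨n - 1, by omega⟩
  simp only [Nat.add_sub_cancel]
  constructor
  · intro h
    have h1 : ((2 * z.val : ℕ) : ZMod (2 ^ (k + 1))) = 0 := by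
      push_cast; rw [ZMod.natCast_zmod_val]; exact h
    rw [ZMod.natCast_eq_zero_iff] at h1
    have h1' : 2 * 2 ^ k ∣ 2 * z.val := by
      have : 2 * 2 ^ k = 2 ^ (k + 1) := by ring
      rw [this]; exact h1
    obtain ⟨q, hq⟩ : 2 ^ k ∣ z.val := Nat.dvd_of_mul_dvd_mul_left (by norm_num) h1'
    have h3 : z.val < 2 ^ (k + 1) := ZMod.val_lt z
    have h4 : q < 2 := by
      rw [hq, pow_succ] at h3
      exact Nat.lt_of_mul_lt_mul_left h3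
    have h5 : z = ((2 ^ k * q : ℕ) : ZMod (2 ^ (k + 1))) := by
      rw [← hq, ZMod.natCast_zmod_val]
    interval_cases q
    · left; rw [h5]; simp
    · right; rw [h5]; push_cast; ring
  · rintro (h | h)
    · rw [h, mul_zero]
    · rw [h]
      have : (2 : ZMod (2 ^ (k + 1))) * 2 ^ k = 2 ^ (k + 1) := by ring
      rw [this, two_pow_self]

lemma half_ne' (n : ℕ) (hn : 1 ≤ n) : (2 : ZMod (2 ^ n)) ^ (n - 1) ≠ 0 := by
  intro h
  have h1 : ((2 ^ (n - 1) : ℕ) : ZMod (2 ^ n)) = 0 := by push_cast; exact h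
  rw [ZMod.natCast_eq_zero_iff] at h1
  have h2 := Nat.le_of_dvd (by positivity) h1
  have h3 : 2 ^ (n - 1) < 2 ^ n := Nat.pow_lt_pow_right (by norm_num) (by omega)
  omega

section char

set_option linter.unusedSectionVars false

variable {R : Type} [CommRing R] [IsDomain R] [CharZero R]

lemma char_half (n : ℕ) (hn : 1 ≤ n) {ζ : R} (hζ : IsPrimitiveRoot ζ (2 ^ n)) :
    AddChar.zmodChar (2 ^ n) hζ.pow_eq_one (2 ^ (n - 1)) = -1 := by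
  have hlt : 2 ^ (n - 1) < 2 ^ n := Nat.pow_lt_pow_right (by norm_num) (by omega)
  have hc : (2 : ZMod (2 ^ n)) ^ (n - 1) = ((2 ^ (n - 1) : ℕ) : ZMod (2 ^ n)) := by push_cast; rfl
  rw [hc, AddChar.zmodChar_apply, ZMod.val_cast_of_lt hlt]
  have h1 : (ζ ^ 2 ^ (n - 1)) ^ 2 = 1 := by
    rw [← pow_mul, ← pow_succ]
    have : n - 1 + 1 = n := by omega
    rw [this]; exact hζ.pow_eq_one
  have h2 : (ζ ^ 2 ^ (n - 1) - 1) * (ζ ^ 2 ^ (n - 1) + 1) = 0 := by linear_combination h1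
  rcases mul_eq_zero.1 h2 with h | h
  · exact absurd (sub_eq_zero.1 h) (hζ.pow_ne_one_of_pos_of_lt (by positivity) hlt)
  · exact eq_neg_of_add_eq_zero_left h

lemma sum_char_two (n : ℕ) (hn : 1 ≤ n) {ζ : R} (hζ : IsPrimitiveRoot ζ (2 ^ n))
    (d : ZMod (2 ^ n)) :
    ∑ t : ZMod (2 ^ n), AddChar.zmodChar (2 ^ n) hζ.pow_eq_one ((1 + 2 * t) * d)
      = if d = 0 then (2 ^ n : R) else if d = 2 ^ (n - 1) then -2 ^ n else 0 := by
  have h : ∀ t : ZMod (2 ^ n), AddChar.zmodChar (2 ^ n) hζ.pow_eq_one ((1 + 2 * t) * d)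
      = AddChar.zmodChar (2 ^ n) hζ.pow_eq_one d
        * AddChar.zmodChar (2 ^ n) hζ.pow_eq_one (t * (2 * d)) := by
    intro t
    rw [← AddChar.map_add_eq_mul]
    congr 1; ring
  simp only [h, ← mul_sum]
  rw [sum_char hζ]
  by_cases hd0 : d = 0
  · subst hd0; simp
  · by_cases hd8 : d = 2 ^ (n - 1)
    · subst hd8
      rw [if_pos ((two_mul_eq_zero' n hn _).2 (Or.inr rfl)), if_neg hd0, if_pos rfl,
        char_half n hn hζ]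
      push_cast; ring
    · rw [if_neg, if_neg hd0, if_neg hd8, mul_zero]
      rw [two_mul_eq_zero' n hn]; tauto

end char

end G
end MP82
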