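import Pool.Agent.Lib.MP_82ec8b_co.M1
import Pool.Agent.Lib.MP_82ec8b_co.G.MMain

/-! # PB-M1: the descent theorem for `ZMod (2 ^ m)` -/

namespace MP82
namespace G
open Finset NumberField

section m1

set_option linter.unusedSectionVars false

variable {n k : ℕ} {F : Type} [Field F] [NumberField F]
  [IsCyclotomicExtension {2 ^ n * 3 ^ (k + 1)} ℚ F] {ζ : F}
  (hζ : IsPrimitiveRoot ζ (2 ^ n * 3 ^ (k + 1)))

include hζ

/-- the embedding of the Eisenstein integers -/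
noncomputable def io : E →+* 𝓞 F := iota ((hζ.toInteger ^ 2 ^ n) ^ 3 ^ k) (omega_rel k (hxi hζ))

lemma inversion (hn : 1 ≤ n) (A : ZMod (2 ^ n) → ZMod (3 ^ (k + 1)) → ℤ) (s0 : ZMod (2 ^ n)) (r : ℕ) :
    (2 ^ n * 3 ^ (k + 1) : 𝓞 F) * io hζ (comp (k + 1) (A s0) r - comp (k + 1) (A (s0 + 2 ^ (n - 1))) r)
      = ∑ t : ZMod (2 ^ n), ∑ t' : ZMod (3 ^ (k + 1)), e1 hζ (-((1 + 2 * t) * s0))
        * e2 hζ (-((1 + 3 * t') * r)) * XX hζ A (1 + 2 * t) (1 + 3 * t') := by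
  symm
  calc ∑ t : ZMod (2 ^ n), ∑ t' : ZMod (3 ^ (k + 1)), e1 hζ (-((1 + 2 * t) * s0))
        * e2 hζ (-((1 + 3 * t') * r)) * XX hζ A (1 + 2 * t) (1 + 3 * t')
      = ∑ t : ZMod (2 ^ n), ∑ t' : ZMod (3 ^ (k + 1)), ∑ p : ZMod (2 ^ n) × ZMod (3 ^ (k + 1)),
          (A p.1 p.2 : 𝓞 F) * (e1 hζ ((1 + 2 * t) * (p.1 - s0))
            * e2 hζ ((1 + 3 * t') * (p.2 - r))) := by
        refine sum_congr rfl fun t _ => sum_congr rfl fun t' _ => ?_
        unfold XX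
        rw [mul_sum]
        refine sum_congr rfl fun p _ => ?_
        rw [chi_apply]
        have h1 : e1 hζ ((1 + 2 * t) * (p.1 - s0))
            = e1 hζ (-((1 + 2 * t) * s0)) * e1 hζ ((1 + 2 * t) * p.1) := by
          rw [← AddChar.map_add_eq_mul]; congr 1; ring
        have h2 : e2 hζ ((1 + 3 * t') * (p.2 - r))
            = e2 hζ (-((1 + 3 * t') * r)) * e2 hζ ((1 + 3 * t') * p.2) := by
          rw [← AddChar.map_add_eq_mul]; congr 1; ring
        rw [h1, h2]; ring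
    _ = ∑ p : ZMod (2 ^ n) × ZMod (3 ^ (k + 1)), (A p.1 p.2 : 𝓞 F)
          * ((∑ t : ZMod (2 ^ n), e1 hζ ((1 + 2 * t) * (p.1 - s0)))
            * (∑ t' : ZMod (3 ^ (k + 1)), e2 hζ ((1 + 3 * t') * (p.2 - r)))) := by
        rw [sum_congr rfl fun t _ => sum_comm, sum_comm]
        refine sum_congr rfl fun p _ => ?_
        rw [sum_mul_sum, mul_sum]
        refine sum_congr rfl fun t _ => ?_
        rw [mul_sum]
    _ = ∑ s : ZMod (2 ^ n), (if s - s0 = 0 then (2 ^ n : 𝓞 F)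
          else if s - s0 = 2 ^ (n - 1) then -2 ^ n else 0)
          * ((3 ^ (k + 1) : 𝓞 F) * io hζ (comp (k + 1) (A s) r)) := by
        rw [Fintype.sum_prod_type]
        refine sum_congr rfl fun s _ => ?_
        have h3 : io hζ (comp (k + 1) (A s) r) = ∑ c, (A s c : 𝓞 F) *
            (if 3 * (c - (r : ZMod (3 ^ (k + 1)))) = 0 then
              e2 hζ (c - (r : ZMod (3 ^ (k + 1)))) else 0) := by
          unfold io e2
          rw [sum_comp k (hxi hζ)]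
        rw [h3, mul_sum, mul_sum]
        refine sum_congr rfl fun c _ => ?_
        have h4 := sum_char_two n hn (heta hζ) (s - s0)
        have h5 := sum_char_three (k + 1) (hxi hζ) (c - (r : ZMod (3 ^ (k + 1))))
        unfold e1
        rw [h4]
        unfold e2
        rw [h5]
        simp only
        split_ifs <;> ring
    _ = (2 ^ n * 3 ^ (k + 1) : 𝓞 F) *
          io hζ (comp (k + 1) (A s0) r - comp (k + 1) (A (s0 + 2 ^ (n - 1))) r) := by
        rw [map_sub]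
        have h6 : ∀ s : ZMod (2 ^ n),
            (if s - s0 = 0 then (2 ^ n : 𝓞 F)
              else if s - s0 = 2 ^ (n - 1) then -2 ^ n else 0)
            * ((3 ^ (k + 1) : 𝓞 F) * io hζ (comp (k + 1) (A s) r))
            = (if s = s0 then 2 ^ n * ((3 ^ (k + 1) : 𝓞 F) * io hζ (comp (k + 1) (A s) r)) else 0)
              - (if s = s0 + 2 ^ (n - 1) then
                  2 ^ n * ((3 ^ (k + 1) : 𝓞 F) * io hζ (comp (k + 1) (A s) r)) else 0) := by
          intro s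
          have h7 : ∀ s s0 : ZMod (2 ^ n), (s - s0 = 0) ↔ (s = s0) := fun s s0 => sub_eq_zero
          have h8 : ∀ s s0 : ZMod (2 ^ n), (s - s0 = 2 ^ (n - 1)) ↔ (s = s0 + 2 ^ (n - 1)) := by
            intro s s0
            rw [sub_eq_iff_eq_add, add_comm]
          have h9 : ∀ s0 : ZMod (2 ^ n), s0 ≠ s0 + 2 ^ (n - 1) := by
            intro s0 h
            exact half_ne' n hn (left_eq_add.mp h)
          simp only [h7, h8]
          split_ifs with ha hb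
          · exfalso; exact h9 s0 (ha.symm.trans hb)
          · ring
          · ring
          · ring
        simp only [h6, sum_sub_distrib, sum_ite_eq', mem_univ, if_true]
        ring

/-- The sum over the odd residues. -/
noncomputable def WW (A : ZMod (2 ^ n) → ZMod (3 ^ (k + 1)) → ℤ) (s : ZMod (2 ^ n)) : 𝓞 F :=
  ∑ t : ZMod (2 ^ n), e1 hζ (-((1 + 2 * t) * s)) * XX hζ A (1 + 2 * t) 1

lemma inversion2 (hn : 1 ≤ n) (A : ZMod (2 ^ n) → ZMod (3 ^ (k + 1)) → ℤ) (κ : ZMod (3 ^ (k + 1)))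
    (hκ : ∀ (a : ZMod (2 ^ n)) (t : ZMod (3 ^ (k + 1))),
      XX hζ A (1 + 2 * a) (1 + 3 * t) = e2 hζ (3 * t * κ) * XX hζ A (1 + 2 * a) 1)
    (s0 : ZMod (2 ^ n)) (r : ℕ) :
    (2 ^ n : 𝓞 F) * io hζ (comp (k + 1) (A s0) r - comp (k + 1) (A (s0 + 2 ^ (n - 1))) r)
      = if 3 * (κ - (r : ZMod (3 ^ (k + 1)))) = 0 then
          e2 hζ (-(r : ZMod (3 ^ (k + 1)))) * WW hζ A s0 else 0 := by
  have h := inversion hζ hn A s0 r
  have h1 : ∑ t : ZMod (2 ^ n), ∑ t' : ZMod (3 ^ (k + 1)), e1 hζ (-((1 + 2 * t) * s0))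
        * e2 hζ (-((1 + 3 * t') * r)) * XX hζ A (1 + 2 * t) (1 + 3 * t')
      = ∑ t : ZMod (2 ^ n), (e1 hζ (-((1 + 2 * t) * s0)) * XX hζ A (1 + 2 * t) 1)
        * (e2 hζ (-(r : ZMod (3 ^ (k + 1)))) *
          ∑ t' : ZMod (3 ^ (k + 1)), e2 hζ (t' * (3 * (κ - (r : ZMod (3 ^ (k + 1))))))) := by
    refine sum_congr rfl fun t _ => ?_
    rw [mul_sum, mul_sum]
    refine sum_congr rfl fun t' _ => ?_
    rw [hκ]
    have h2 : e2 hζ (-((1 + 3 * t') * (r : ZMod (3 ^ (k + 1))))) * e2 hζ (3 * t' * κ)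
        = e2 hζ (-(r : ZMod (3 ^ (k + 1))))
          * e2 hζ (t' * (3 * (κ - (r : ZMod (3 ^ (k + 1)))))) := by
      rw [← AddChar.map_add_eq_mul, ← AddChar.map_add_eq_mul]; congr 1; ring
    calc e1 hζ (-((1 + 2 * t) * s0)) * e2 hζ (-((1 + 3 * t') * (r : ZMod (3 ^ (k + 1)))))
          * (e2 hζ (3 * t' * κ) * XX hζ A (1 + 2 * t) 1)
        = e1 hζ (-((1 + 2 * t) * s0)) * XX hζ A (1 + 2 * t) 1
          * (e2 hζ (-((1 + 3 * t') * (r : ZMod (3 ^ (k + 1))))) * e2 hζ (3 * t' * κ)) := by ring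
      _ = _ := by rw [h2]
  have h3 : ∑ t' : ZMod (3 ^ (k + 1)), e2 hζ (t' * (3 * (κ - (r : ZMod (3 ^ (k + 1))))))
      = if 3 * (κ - (r : ZMod (3 ^ (k + 1)))) = 0 then (3 ^ (k + 1) : 𝓞 F) else 0 := by
    unfold e2
    rw [sum_char (hxi hζ)]
    push_cast
    rfl
  rw [h1, ← sum_mul, h3] at h
  have h30 : (3 ^ (k + 1) : 𝓞 F) ≠ 0 := pow_ne_zero _ (by norm_num)
  apply mul_left_cancel₀ h30
  rw [← mul_assoc, mul_comm ((3 : 𝓞 F) ^ (k + 1)) (2 ^ n), h]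
  unfold WW
  split_ifs
  · ring
  · ring

/-- Correlation of `WW`. -/
lemma WW_corr (hn : 1 ≤ n) (A : ZMod (2 ^ n) → ZMod (3 ^ (k + 1)) → ℤ) (M : ℤ)
    (hA : ∀ d v, ∑ s, ∑ c, A s c * A (s + d) (c + v) = if d = 0 ∧ v = 0 then M else 0)
    (j : ZMod (2 ^ n)) :
    ∑ s, WW hζ A s * sg hζ (2 ^ n * 3 ^ (k + 1) - 1) (WW hζ A (s + j))
      = if j = 0 then (2 * (2 ^ n) ^ 2 * M : 𝓞 F)
        else if j = 2 ^ (n - 1) then -(2 * (2 ^ n) ^ 2 * M) else 0 := by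
  have hconj : ∀ s, sg hζ (2 ^ n * 3 ^ (k + 1) - 1) (WW hζ A s)
      = ∑ t : ZMod (2 ^ n), e1 hζ ((1 + 2 * t) * s) * XX hζ A (-(1 + 2 * t)) (-1) := by
    intro s
    unfold WW
    rw [map_sum]
    refine sum_congr rfl fun t _ => ?_
    rw [map_mul, sg_conj_XX, sg_e1 hζ (coprime_pred hζ (one_lt_n hζ)), cast_pred_2]
    congr 2; ring
  have h1 : ∀ s, WW hζ A s * sg hζ (2 ^ n * 3 ^ (k + 1) - 1) (WW hζ A (s + j))
      = ∑ t : ZMod (2 ^ n), ∑ t' : ZMod (2 ^ n), e1 hζ (s * (2 * (t' - t)))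
        * (e1 hζ ((1 + 2 * t') * j) * (XX hζ A (1 + 2 * t) 1 * XX hζ A (-(1 + 2 * t')) (-1))) := by
    intro s
    rw [hconj]
    unfold WW
    rw [sum_mul_sum]
    refine sum_congr rfl fun t _ => sum_congr rfl fun t' _ => ?_
    have h2 : e1 hζ (s * (2 * (t' - t))) * e1 hζ ((1 + 2 * t') * j)
        = e1 hζ (-((1 + 2 * t) * s)) * e1 hζ ((1 + 2 * t') * (s + j)) := by
      rw [← AddChar.map_add_eq_mul, ← AddChar.map_add_eq_mul]; congr 1; ring
    calc e1 hζ (-((1 + 2 * t) * s)) * XX hζ A (1 + 2 * t) 1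
          * (e1 hζ ((1 + 2 * t') * (s + j)) * XX hζ A (-(1 + 2 * t')) (-1))
        = (e1 hζ (-((1 + 2 * t) * s)) * e1 hζ ((1 + 2 * t') * (s + j)))
          * (XX hζ A (1 + 2 * t) 1 * XX hζ A (-(1 + 2 * t')) (-1)) := by ring
      _ = _ := by rw [← h2]; ring
  have h3 : ∀ t t' : ZMod (2 ^ n), ∑ s : ZMod (2 ^ n), e1 hζ (s * (2 * (t' - t)))
        * (e1 hζ ((1 + 2 * t') * j) * (XX hζ A (1 + 2 * t) 1 * XX hζ A (-(1 + 2 * t')) (-1)))
      = if 2 * (t' - t) = 0 then 2 ^ n * (e1 hζ ((1 + 2 * t) * j) * (M : 𝓞 F)) else 0 := by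
    intro t t'
    rw [← sum_mul]
    have h4 : ∑ s : ZMod (2 ^ n), e1 hζ (s * (2 * (t' - t)))
        = if 2 * (t' - t) = 0 then (2 ^ n : 𝓞 F) else 0 := by
      unfold e1
      rw [sum_char (heta hζ)]
      norm_num
    rw [h4]
    split_ifs with h5
    · have h6 : 1 + 2 * t' = 1 + 2 * t := by
        linear_combination h5
      rw [h6, XX_mul_conj hζ A M hA]
    · ring
  have h7 : ∀ t : ZMod (2 ^ n), ∑ t' : ZMod (2 ^ n),
      (if 2 * (t' - t) = 0 then 2 ^ n * (e1 hζ ((1 + 2 * t) * j) * (M : 𝓞 F)) else 0)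
      = 2 * 2 ^ n * (M : 𝓞 F) * e1 hζ ((1 + 2 * t) * j) := by
    intro t
    rw [← sum_filter, sum_const]
    have h8 : (univ.filter (fun t' : ZMod (2 ^ n) => 2 * (t' - t) = 0)).card = 2 := by
      have h81 : univ.filter (fun t' : ZMod (2 ^ n) => 2 * (t' - t) = 0)
          = {t, t + 2 ^ (n - 1)} := by
        ext t'
        simp only [mem_filter, mem_univ, true_and, mem_insert, mem_singleton]
        rw [two_mul_eq_zero' n hn, sub_eq_zero, sub_eq_iff_eq_add, add_comm]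
      rw [h81, card_pair]
      intro h
      exact half_ne' n hn (left_eq_add.mp h)
    rw [h8, two_nsmul]
    ring
  calc ∑ s, WW hζ A s * sg hζ (2 ^ n * 3 ^ (k + 1) - 1) (WW hζ A (s + j))
      = ∑ t : ZMod (2 ^ n), ∑ t' : ZMod (2 ^ n), ∑ s : ZMod (2 ^ n), e1 hζ (s * (2 * (t' - t)))
        * (e1 hζ ((1 + 2 * t') * j)
          * (XX hζ A (1 + 2 * t) 1 * XX hζ A (-(1 + 2 * t')) (-1))) := by
        simp only [h1]
        rw [sum_comm]
        refine sum_congr rfl fun t _ => ?_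
        rw [sum_comm]
    _ = ∑ t : ZMod (2 ^ n), 2 * 2 ^ n * (M : 𝓞 F) * e1 hζ ((1 + 2 * t) * j) := by
        simp only [h3, h7]
    _ = _ := by
        rw [← mul_sum]
        have h9 := sum_char_two n hn (heta hζ) j
        unfold e1
        rw [h9]
        split_ifs <;> ring

/-- Compatibility of `io` with complex conjugation. -/
lemma io_star (z : E) : io hζ (star z) = sg hζ (2 ^ n * 3 ^ (k + 1) - 1) (io hζ z) := by
  have hω := omega_rel k (hxi hζ)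
  set w := (hζ.toInteger ^ 2 ^ n) ^ 3 ^ k with hw
  have h1 : io hζ z = (z.re : 𝓞 F) + (z.im : 𝓞 F) * w := rfl
  have h2 : io hζ (star z) = ((star z).re : 𝓞 F) + ((star z).im : 𝓞 F) * w := rfl
  rw [h1, h2, map_add, map_mul, map_intCast, map_intCast]
  have h3 : sg hζ (2 ^ n * 3 ^ (k + 1) - 1) w = -1 - w := by
    have h4 : sg hζ (2 ^ n * 3 ^ (k + 1) - 1) w * w = 1 := by
      have h5 : w = e2 hζ ((3 ^ k : ℕ) : ZMod (3 ^ (k + 1))) := by
        unfold e2; rw [AddChar.zmodChar_apply']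
      rw [h5, sg_e2 hζ (coprime_pred hζ (one_lt_n hζ)), cast_pred_3, ← AddChar.map_add_eq_mul]
      simp
    have h6 : w ^ 3 = 1 := by linear_combination (w - 1) * hω
    have h7 : sg hζ (2 ^ n * 3 ^ (k + 1) - 1) w = w ^ 2 := by
      calc sg hζ (2 ^ n * 3 ^ (k + 1) - 1) w = sg hζ (2 ^ n * 3 ^ (k + 1) - 1) w * w ^ 3 := by
            rw [h6, mul_one]
        _ = (sg hζ (2 ^ n * 3 ^ (k + 1) - 1) w * w) * w ^ 2 := by ring
        _ = w ^ 2 := by rw [h4, one_mul]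
    rw [h7]; linear_combination hω
  rw [h3]
  simp only [QuadraticAlgebra.re_star, QuadraticAlgebra.im_star]
  push_cast
  ring

theorem M1_aux (hn : 3 ≤ n) (A : ZMod (2 ^ n) → ZMod (3 ^ (k + 1)) → ℤ) (i j : ℕ)
    (hA : ∀ d v, ∑ s, ∑ c, A s c * A (s + d) (c + v)
      = if d = 0 ∧ v = 0 then 2 ^ i * 3 ^ j else 0) :
    ∃ r0 : Fin (3 ^ k),
      (∀ r : Fin (3 ^ k), r ≠ r0 → ∀ s,
        comp (k + 1) (A s) r - comp (k + 1) (A (s + 2 ^ (n - 1))) r = 0) ∧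
      (∃ e : ZMod (2 ^ n), ∀ s : ZMod (2 ^ n), 8 * (s - e) ≠ 0 →
        comp (k + 1) (A s) r0 - comp (k + 1) (A (s + 2 ^ (n - 1))) r0 = 0) ∧
      (∀ t : ZMod (2 ^ n), ∑ s, (comp (k + 1) (A s) r0 - comp (k + 1) (A (s + 2 ^ (n - 1))) r0)
          * star (comp (k + 1) (A (s + t)) r0 - comp (k + 1) (A (s + t + 2 ^ (n - 1))) r0)
        = if t = 0 then ((2 * (2 ^ i * 3 ^ j) : ℤ) : E)
          else if t = 2 ^ (n - 1) then ((-(2 * (2 ^ i * 3 ^ j)) : ℤ) : E) else 0) := by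
  have hn1 : 1 ≤ n := by omega
  obtain ⟨κ, hκ⟩ := exists_kappa' hζ hn1 A hA
  obtain ⟨e, he⟩ := exists_e hζ hn A hA
  have hinj : Function.Injective (io hζ) := iota_inj _ _
  have hinv := inversion2 hζ hn1 A κ hκ
  have h16 : (2 ^ n : 𝓞 F) ≠ 0 := pow_ne_zero _ (by norm_num)
  have hpos : 0 < 3 ^ k := by positivity
  -- the active index
  set r0 : Fin (3 ^ k) := ⟨κ.val % 3 ^ k, Nat.mod_lt _ hpos⟩ with hr0
  have hact : ∀ r : Fin (3 ^ k), 3 * (κ - ((r : ℕ) : ZMod (3 ^ (k + 1)))) = 0 ↔ r = r0 := by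
    intro r
    have hr : (r : ℕ) < 3 ^ k := r.2
    have h1 : 3 * (κ - ((r : ℕ) : ZMod (3 ^ (k + 1)))) = 0 ↔
        ((3 * κ.val : ℕ) : ZMod (3 ^ (k + 1))) = ((3 * (r : ℕ) : ℕ) : ZMod (3 ^ (k + 1))) := by
      push_cast
      rw [ZMod.natCast_zmod_val, mul_sub, sub_eq_zero]
    rw [h1, ZMod.natCast_eq_natCast_iff]
    rw [three_modEq k κ.val (r : ℕ)]
    constructor
    · intro h
      apply Fin.ext
      rw [hr0]
      have h3 : κ.val % 3 ^ k = (r : ℕ) % 3 ^ k := h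
      simp only
      rw [h3, Nat.mod_eq_of_lt hr]
    · intro h
      rw [h, hr0]
      exact (Nat.mod_modEq _ _).symm
  have hr0act : 3 * (κ - ((r0 : ℕ) : ZMod (3 ^ (k + 1)))) = 0 := (hact r0).2 rfl
  have hC : ∀ s, (2 ^ n : 𝓞 F) * io hζ (comp (k + 1) (A s) r0
        - comp (k + 1) (A (s + 2 ^ (n - 1))) r0)
      = e2 hζ (-((r0 : ℕ) : ZMod (3 ^ (k + 1)))) * WW hζ A s := by
    intro s
    rw [hinv s r0, if_pos hr0act]
  have hz : ∀ s, WW hζ A s = 0 →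
      comp (k + 1) (A s) r0 - comp (k + 1) (A (s + 2 ^ (n - 1))) r0 = 0 := by
    intro s hs
    have h1 := hC s
    rw [hs, mul_zero] at h1
    rcases mul_eq_zero.1 h1 with h | h
    · exact absurd h h16
    · exact (map_eq_zero_iff _ hinj).1 h
  refine ⟨r0, ?_, ⟨e, ?_⟩, ?_⟩
  · intro r hr s
    have h1 := hinv s r
    rw [if_neg (fun h => hr ((hact r).1 h))] at h1
    rcases mul_eq_zero.1 h1 with h | h
    · exact absurd h h16
    · exact (map_eq_zero_iff _ hinj).1 h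
  · -- support
    intro s hs
    apply hz
    have hsym : WW hζ A s = e1 hζ (8 * (e - s)) * WW hζ A s := by
      conv_lhs => unfold WW
      rw [← Equiv.sum_comp (Equiv.addRight (4 : ZMod (2 ^ n)))]
      unfold WW
      rw [mul_sum]
      refine sum_congr rfl fun t _ => ?_
      simp only [Equiv.coe_addRight]
      rw [he t, ← mul_assoc, ← mul_assoc, ← AddChar.map_add_eq_mul, ← AddChar.map_add_eq_mul]
      congr 2; ring
    have hne : e1 hζ (8 * (e - s)) ≠ 1 := by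
      intro h
      apply hs
      have h0 : 8 * (e - s) = 0 := by
        unfold e1 at h
        rw [AddChar.zmodChar_apply] at h
        have h2 := (heta hζ).dvd_of_pow_eq_one _ h
        have h3 : (8 * (e - s)).val = 0 := by
          have h4 : (8 * (e - s)).val < 2 ^ n := ZMod.val_lt _
          exact Nat.eq_zero_of_dvd_of_lt h2 h4
        exact (ZMod.val_eq_zero _).1 h3
      linear_combination -h0
    have h3 : (e1 hζ (8 * (e - s)) - 1) * WW hζ A s = 0 := by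
      linear_combination -hsym
    exact (mul_eq_zero.1 h3).resolve_left (sub_ne_zero.2 hne)
  · intro t
    apply hinj
    have h256 : ((2 ^ n) ^ 2 : 𝓞 F) ≠ 0 := pow_ne_zero _ h16
    apply mul_left_cancel₀ h256
    rw [map_sum, mul_sum]
    have h1 : ∀ s : ZMod (2 ^ n), ((2 ^ n) ^ 2 : 𝓞 F) * io hζ ((comp (k + 1) (A s) r0
          - comp (k + 1) (A (s + 2 ^ (n - 1))) r0)
          * star (comp (k + 1) (A (s + t)) r0 - comp (k + 1) (A (s + t + 2 ^ (n - 1))) r0))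
        = WW hζ A s * sg hζ (2 ^ n * 3 ^ (k + 1) - 1) (WW hζ A (s + t)) := by
      intro s
      rw [map_mul, io_star]
      have h2 := hC s
      have h3 := congrArg (sg hζ (2 ^ n * 3 ^ (k + 1) - 1)) (hC (s + t))
      rw [map_mul, map_mul, map_pow, map_ofNat, sg_e2 hζ (coprime_pred hζ (one_lt_n hζ)),
        cast_pred_3] at h3
      have h4 : e2 hζ (-((r0 : ℕ) : ZMod (3 ^ (k + 1))))
          * e2 hζ (-1 * -((r0 : ℕ) : ZMod (3 ^ (k + 1)))) = 1 := by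
        rw [← AddChar.map_add_eq_mul]; simp
      calc ((2 ^ n) ^ 2 : 𝓞 F) * (io hζ (comp (k + 1) (A s) r0
              - comp (k + 1) (A (s + 2 ^ (n - 1))) r0)
            * sg hζ (2 ^ n * 3 ^ (k + 1) - 1)
              (io hζ (comp (k + 1) (A (s + t)) r0 - comp (k + 1) (A (s + t + 2 ^ (n - 1))) r0)))
          = (2 ^ n * io hζ (comp (k + 1) (A s) r0 - comp (k + 1) (A (s + 2 ^ (n - 1))) r0))
            * (2 ^ n * sg hζ (2 ^ n * 3 ^ (k + 1) - 1)
              (io hζ (comp (k + 1) (A (s + t)) r0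
                - comp (k + 1) (A (s + t + 2 ^ (n - 1))) r0))) := by ring
        _ = (e2 hζ (-((r0 : ℕ) : ZMod (3 ^ (k + 1)))) * WW hζ A s)
            * (e2 hζ (-1 * -((r0 : ℕ) : ZMod (3 ^ (k + 1))))
              * sg hζ (2 ^ n * 3 ^ (k + 1) - 1) (WW hζ A (s + t))) := by rw [h2, h3]
        _ = (e2 hζ (-((r0 : ℕ) : ZMod (3 ^ (k + 1))))
              * e2 hζ (-1 * -((r0 : ℕ) : ZMod (3 ^ (k + 1)))))
            * (WW hζ A s * sg hζ (2 ^ n * 3 ^ (k + 1) - 1) (WW hζ A (s + t))) := by ring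
        _ = _ := by rw [h4, one_mul]
    rw [sum_congr rfl fun s _ => h1 s, WW_corr hζ hn1 A (2 ^ i * 3 ^ j) hA t]
    split_ifs
    · rw [map_intCast]; push_cast; ring
    · rw [map_intCast]; push_cast; ring
    · rw [map_zero]; ring

end m1

theorem M1 (m K : ℕ) (hm : 3 ≤ m) (hK : 1 ≤ K) (A : ZMod (2 ^ m) → ZMod (3 ^ K) → ℤ) (i j : ℕ)
    (hA : ∀ d v, ∑ s, ∑ c, A s c * A (s + d) (c + v)
      = if d = 0 ∧ v = 0 then 2 ^ i * 3 ^ j else 0) :
    ∃ r0 : Fin (3 ^ (K - 1)),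
      (∀ r : Fin (3 ^ (K - 1)), r ≠ r0 → ∀ s,
        MP82.comp K (A s) r - MP82.comp K (A (s + 2 ^ (m - 1))) r = 0) ∧
      (∃ e : ZMod (2 ^ m), ∀ s : ZMod (2 ^ m), 8 * (s - e) ≠ 0 →
        MP82.comp K (A s) r0 - MP82.comp K (A (s + 2 ^ (m - 1))) r0 = 0) ∧
      (∀ t : ZMod (2 ^ m), ∑ s, (MP82.comp K (A s) r0 - MP82.comp K (A (s + 2 ^ (m - 1))) r0)
          * star (MP82.comp K (A (s + t)) r0 - MP82.comp K (A (s + t + 2 ^ (m - 1))) r0)
        = if t = 0 then ((2 * (2 ^ i * 3 ^ j) : ℤ) : E)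
          else if t = 2 ^ (m - 1) then ((-(2 * (2 ^ i * 3 ^ j)) : ℤ) : E) else 0) := by
  obtain ⟨k, rfl⟩ : ∃ k, K = k + 1 := ⟨K - 1, by omega⟩
  have hc : IsCyclotomicExtension {2 ^ m * 3 ^ (k + 1)} ℚ
      (CyclotomicField (2 ^ m * 3 ^ (k + 1)) ℚ) :=
    CyclotomicField.isCyclotomicExtension _ ℚ
  have hn : NumberField (CyclotomicField (2 ^ m * 3 ^ (k + 1)) ℚ) :=
    IsCyclotomicExtension.numberField {2 ^ m * 3 ^ (k + 1)} ℚ _
  exact M1_aux (IsCyclotomicExtension.zeta_spec (2 ^ m * 3 ^ (k + 1)) ℚ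
    (CyclotomicField (2 ^ m * 3 ^ (k + 1)) ℚ)) hm A i j hA

end G
end MP82
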