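import Pool.Agent.Lib.MP_82ec8b_co.G.Defs

/-!
# PB-Val: powers of two in `ZMod (2 ^ a)` and the map `jj`

All proofs are elementary. `ZMod.natCast_self_eq_zero`/`ZMod.natCast_self`, `ZMod.natCast_zmod_val`,
`ZMod.natCast_eq_zero_iff` are the main tools.

* `pow_self`: `(2 : ZMod (2 ^ m)) ^ m = 0` (cast of `2 ^ m`).
* `jj_natCast`: `jj a (n : ZMod (2 ^ a)) = 4 * n`: `(n : ZMod (2^a)).val = n % 2 ^ a`, and
  `4 * n` and `4 * (n % 2 ^ a)` differ by a multiple of `4 * 2 ^ a = 2 ^ (a + 2)`.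
* `jj_add`: from `jj_natCast`, writing `z = (z.val : ZMod _)`.
* `jj_eq_zero_iff`: `4 * z.val ≡ 0 mod 2 ^ (a+2)` iff `2 ^ a ∣ z.val` iff `z = 0`.
* `exists_shift`: write `z'.val = 2 ^ v * o`, `o` odd, `v = v2 a z' < a`; `y = 2 ^ (a - 1 - v)`:
  `z' * y = 2 ^ (a - 1) * o = 2 ^ (a - 1)` as `o - 1` is even. If `z ≠ 0`, `z.val = 2 ^ w * o'`,
  `w ≥ v`: `z * y = 2 ^ (a - 1 + (w - v)) * o'`, which is `2 ^ (a - 1)` if `w = v`, `0` otherwise.
-/

namespace MP82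
namespace G
open Finset

lemma pow_self (m : ℕ) : (2 : ZMod (2 ^ m)) ^ m = 0 := by
  have h := ZMod.natCast_self (2 ^ m)
  push_cast at h
  exact h

/-- Twice the half period is zero. -/
lemma half_add (m : ℕ) (hm : 1 ≤ m) : (2 : ZMod (2 ^ m)) ^ (m - 1) + 2 ^ (m - 1) = 0 := by
  have h : (2 : ZMod (2 ^ m)) ^ (m - 1) + 2 ^ (m - 1) = 2 ^ (m - 1 + 1) := by ring
  rw [h, Nat.sub_add_cancel hm, pow_self]

lemma half_ne (m : ℕ) (hm : 1 ≤ m) : (2 : ZMod (2 ^ m)) ^ (m - 1) ≠ 0 := by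
  intro h
  have h' : ((2 ^ (m - 1) : ℕ) : ZMod (2 ^ m)) = 0 := by push_cast; exact h
  rw [ZMod.natCast_eq_zero_iff] at h'
  have h2 := (Nat.pow_dvd_pow_iff_le_right (by norm_num : 1 < 2)).1 h'
  omega

/-- `z` is killed by `2` iff it is `0` or the half period. -/
lemma two_mul_eq_zero_iff (m : ℕ) (hm : 1 ≤ m) (z : ZMod (2 ^ m)) :
    2 * z = 0 ↔ (z = 0 ∨ z = 2 ^ (m - 1)) := by
  have : NeZero (2 ^ m) := ⟨by positivity⟩
  constructor
  · intro h
    have hz : ((z.val : ℕ) : ZMod (2 ^ m)) = z := ZMod.natCast_zmod_val z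
    have h1 : ((2 * z.val : ℕ) : ZMod (2 ^ m)) = 0 := by
      push_cast; rw [hz]; exact h
    rw [ZMod.natCast_eq_zero_iff] at h1
    have hpow : 2 ^ m = 2 * 2 ^ (m - 1) := by
      rw [← pow_succ', Nat.sub_add_cancel hm]
    obtain ⟨k, hk0⟩ := h1
    have hk : z.val = 2 ^ (m - 1) * k := by
      have h3 : 2 * z.val = 2 * (2 ^ (m - 1) * k) := by
        rw [hk0]
        calc 2 ^ m * k = (2 * 2 ^ (m - 1)) * k := congrArg (fun t => t * k) hpow
          _ = _ := by ring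
      exact Nat.eq_of_mul_eq_mul_left (by norm_num) h3
    have hlt : 2 ^ (m - 1) * k < 2 * 2 ^ (m - 1) := by
      have h5 : z.val < 2 ^ m := ZMod.val_lt z
      rw [hk] at h5
      exact lt_of_lt_of_eq h5 hpow
    have hp : 0 < 2 ^ (m - 1) := by positivity
    have hk2 : k < 2 := by
      by_contra hc
      push Not at hc
      nlinarith
    have hk3 : k = 0 ∨ k = 1 := by omega
    rcases hk3 with rfl | rfl
    · left
      rw [← hz, hk]; simp
    · right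
      rw [← hz, hk]; push_cast; ring
  · rintro (rfl | rfl)
    · simp
    · have := half_add m hm
      rw [two_mul]; exact this

lemma four_mul_pow (a : ℕ) : (4 : ZMod (2 ^ (a + 2))) * 2 ^ a = 0 := by
  have h := pow_self (a + 2)
  have h2 : (4 : ZMod (2 ^ (a + 2))) * 2 ^ a = 2 ^ (a + 2) := by ring
  rw [h2, h]

lemma jj_natCast (a n : ℕ) : jj a (n : ZMod (2 ^ a)) = 4 * (n : ZMod (2 ^ (a + 2))) := by
  unfold jj
  rw [ZMod.val_natCast]
  have h : (n : ZMod (2 ^ (a + 2))) = ((n % 2 ^ a + 2 ^ a * (n / 2 ^ a) : ℕ) : ZMod (2 ^ (a + 2))) := by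
    rw [Nat.mod_add_div]
  conv_rhs => rw [h]
  push_cast
  rw [mul_add, ← mul_assoc, four_mul_pow]
  ring

@[simp] lemma jj_zero (a : ℕ) : jj a 0 = 0 := by
  have h := jj_natCast a 0
  simpa using h

lemma jj_add (a : ℕ) (z w : ZMod (2 ^ a)) : jj a (z + w) = jj a z + jj a w := by
  have : NeZero (2 ^ a) := ⟨by positivity⟩
  have hz : ((z.val : ℕ) : ZMod (2 ^ a)) = z := ZMod.natCast_zmod_val z
  have hw : ((w.val : ℕ) : ZMod (2 ^ a)) = w := ZMod.natCast_zmod_val w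
  have h : z + w = ((z.val + w.val : ℕ) : ZMod (2 ^ a)) := by push_cast; rw [hz, hw]
  rw [h, jj_natCast]
  unfold jj
  push_cast
  ring

lemma jj_neg (a : ℕ) (z : ZMod (2 ^ a)) : jj a (-z) = - jj a z := by
  have h := jj_add a z (-z)
  rw [add_neg_cancel, jj_zero] at h
  exact (neg_eq_of_add_eq_zero_right h.symm).symm

lemma jj_sub (a : ℕ) (z w : ZMod (2 ^ a)) : jj a (z - w) = jj a z - jj a w := by
  rw [sub_eq_add_neg, jj_add, jj_neg, sub_eq_add_neg]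

lemma jj_eq_zero_iff (a : ℕ) (z : ZMod (2 ^ a)) : jj a z = 0 ↔ z = 0 := by
  have : NeZero (2 ^ a) := ⟨by positivity⟩
  constructor
  · intro h
    unfold jj at h
    have h1 : ((4 * z.val : ℕ) : ZMod (2 ^ (a + 2))) = 0 := by push_cast; exact h
    rw [ZMod.natCast_eq_zero_iff] at h1
    have hpow : 2 ^ (a + 2) = 4 * 2 ^ a := by ring
    rw [hpow] at h1
    have h2 : 2 ^ a ∣ z.val := Nat.dvd_of_mul_dvd_mul_left (by norm_num) h1
    have h3 : z.val = 0 := Nat.eq_zero_of_dvd_of_lt h2 (ZMod.val_lt z)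
    exact (ZMod.val_eq_zero z).1 h3
  · rintro rfl
    simp

/-- `jj` of the half period is the half period. -/
lemma jj_half (a : ℕ) (ha : 1 ≤ a) : jj a (2 ^ (a - 1)) = 2 ^ (a + 1) := by
  have h : (2 : ZMod (2 ^ a)) ^ (a - 1) = ((2 ^ (a - 1) : ℕ) : ZMod (2 ^ a)) := by push_cast; rfl
  rw [h, jj_natCast]
  push_cast
  have h2 : (4 : ZMod (2 ^ (a + 2))) * 2 ^ (a - 1) = 2 ^ (a - 1 + 2) := by ring
  rw [h2]
  congr 1
  omega

/-- `jj` of the quarter period. -/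
lemma jj_quarter (a : ℕ) (ha : 2 ≤ a) (q : ZMod (2 ^ a)) :
    (Even q.val → jj a (q * 2 ^ (a - 2)) = 0 ∨ jj a (q * 2 ^ (a - 2)) = 2 ^ (a + 1)) ∧
    (Odd q.val → jj a (q * 2 ^ (a - 2)) = 2 ^ a ∨ jj a (q * 2 ^ (a - 2)) = 2 ^ a + 2 ^ (a + 1)) := by
  have : NeZero (2 ^ a) := ⟨by positivity⟩
  have hq : ((q.val : ℕ) : ZMod (2 ^ a)) = q := ZMod.natCast_zmod_val q
  have h : q * 2 ^ (a - 2) = ((q.val * 2 ^ (a - 2) : ℕ) : ZMod (2 ^ a)) := by push_cast; rw [hq]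
  have h4 : (4 : ZMod (2 ^ (a + 2))) * 2 ^ (a - 2) = 2 ^ a := by
    have h5 : (4 : ZMod (2 ^ (a + 2))) * 2 ^ (a - 2) = 2 ^ (a - 2 + 2) := by ring
    rw [h5, Nat.sub_add_cancel ha]
  have hj : jj a (q * 2 ^ (a - 2)) = (q.val : ZMod (2 ^ (a + 2))) * 2 ^ a := by
    rw [h, jj_natCast]
    push_cast
    calc (4 : ZMod (2 ^ (a + 2))) * ((q.val : ZMod (2 ^ (a + 2))) * 2 ^ (a - 2))
        = (q.val : ZMod (2 ^ (a + 2))) * (4 * 2 ^ (a - 2)) := by ring
      _ = _ := by rw [h4]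
  have h0 : (4 : ZMod (2 ^ (a + 2))) * 2 ^ a = 0 := four_mul_pow a
  rw [hj]
  constructor
  · rintro ⟨k, hk⟩
    rw [hk]
    rcases Nat.even_or_odd' k with ⟨l, rfl | rfl⟩
    · left
      push_cast
      calc ((2 * (l : ZMod (2 ^ (a + 2))) + 2 * l) * 2 ^ a) = l * (4 * 2 ^ a) := by ring
        _ = 0 := by rw [h0, mul_zero]
    · right
      push_cast
      calc ((2 * (l : ZMod (2 ^ (a + 2))) + 1 + (2 * l + 1)) * 2 ^ a)
          = l * (4 * 2 ^ a) + 2 ^ (a + 1) := by ring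
        _ = _ := by rw [h0, mul_zero, zero_add]
  · rintro ⟨k, hk⟩
    rw [hk]
    rcases Nat.even_or_odd' k with ⟨l, rfl | rfl⟩
    · left
      push_cast
      calc ((2 * (2 * (l : ZMod (2 ^ (a + 2)))) + 1) * 2 ^ a) = l * (4 * 2 ^ a) + 2 ^ a := by ring
        _ = _ := by rw [h0, mul_zero, zero_add]
    · right
      push_cast
      calc ((2 * (2 * (l : ZMod (2 ^ (a + 2))) + 1) + 1) * 2 ^ a)
          = l * (4 * 2 ^ a) + (2 ^ a + 2 ^ (a + 1)) := by ring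
        _ = _ := by rw [h0, mul_zero, zero_add]

/-- The 2-adic valuation (`a` for `0`). -/
def v2 (a : ℕ) (z : ZMod (2 ^ a)) : ℕ := if z = 0 then a else padicValNat 2 z.val

lemma v2_spec (a : ℕ) (z : ZMod (2 ^ a)) (hz : z ≠ 0) :
    v2 a z < a ∧ ∃ k : ℕ, z = 2 ^ (v2 a z) * (2 * (k : ZMod (2 ^ a)) + 1) := by
  have : NeZero (2 ^ a) := ⟨by positivity⟩
  have hv : v2 a z = padicValNat 2 z.val := by unfold v2; rw [if_neg hz]
  have hne : z.val ≠ 0 := by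
    intro h
    exact hz ((ZMod.val_eq_zero z).1 h)
  have : Fact (Nat.Prime 2) := ⟨Nat.prime_two⟩
  have hdvd : 2 ^ padicValNat 2 z.val ∣ z.val := pow_padicValNat_dvd
  obtain ⟨o, ho⟩ := hdvd
  have hodd : Odd o := by
    rw [← Nat.not_even_iff_odd]
    rintro ⟨t, ht⟩
    have hd : 2 ^ (padicValNat 2 z.val + 1) ∣ z.val := by
      refine ⟨t, ?_⟩
      calc z.val = 2 ^ padicValNat 2 z.val * o := ho
        _ = 2 ^ padicValNat 2 z.val * (t + t) := by rw [ht]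
        _ = 2 ^ (padicValNat 2 z.val + 1) * t := by ring
    exact pow_succ_padicValNat_not_dvd hne hd
  obtain ⟨k, hk⟩ := hodd
  constructor
  · rw [hv]
    by_contra hc
    push Not at hc
    have h1 : 2 ^ a ∣ z.val := dvd_trans (pow_dvd_pow 2 hc) pow_padicValNat_dvd
    exact hne (Nat.eq_zero_of_dvd_of_lt h1 (ZMod.val_lt z))
  · refine ⟨k, ?_⟩
    rw [hv]
    have h1 : z = ((z.val : ℕ) : ZMod (2 ^ a)) := (ZMod.natCast_zmod_val z).symm
    have h2 : ((z.val : ℕ) : ZMod (2 ^ a)) = ((2 ^ padicValNat 2 z.val * o : ℕ) : ZMod (2 ^ a)) :=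
      congrArg _ ho
    rw [hk] at h2
    push_cast at h2
    exact h1.trans h2

lemma exists_shift (a : ℕ) (ha : 1 ≤ a) (z z' : ZMod (2 ^ a)) (hz' : z' ≠ 0)
    (h : v2 a z' ≤ v2 a z) :
    ∃ y, z' * y = 2 ^ (a - 1) ∧ (z * y = 0 ∨ z * y = 2 ^ (a - 1)) := by
  obtain ⟨hlt, k, hk⟩ := v2_spec a z' hz'
  generalize v2 a z' = v at *
  have h0 : (2 : ZMod (2 ^ a)) ^ a = 0 := pow_self a
  have hp : (2 : ZMod (2 ^ a)) ^ v * 2 ^ (a - 1 - v) = 2 ^ (a - 1) := by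
    rw [← pow_add]; congr 1; omega
  have hh : (2 : ZMod (2 ^ a)) * 2 ^ (a - 1) = 0 := by
    rw [← pow_succ', Nat.sub_add_cancel ha, h0]
  refine ⟨2 ^ (a - 1 - v), ?_, ?_⟩
  · calc z' * 2 ^ (a - 1 - v) = (2 ^ v * 2 ^ (a - 1 - v)) * (2 * (k : ZMod (2 ^ a)) + 1) := by
          rw [hk]; ring
      _ = k * (2 * 2 ^ (a - 1)) + 2 ^ (a - 1) := by rw [hp]; ring
      _ = _ := by rw [hh, mul_zero, zero_add]
  · by_cases hz : z = 0
    · left; rw [hz, zero_mul]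
    · obtain ⟨hlt2, l, hl⟩ := v2_spec a z hz
      generalize v2 a z = w at *
      have hcalc : z * 2 ^ (a - 1 - v) = 2 ^ (w - v) * 2 ^ (a - 1) * (2 * (l : ZMod (2 ^ a)) + 1) := by
        have hw : (2 : ZMod (2 ^ a)) ^ w = 2 ^ (w - v) * 2 ^ v := by
          rw [← pow_add]; congr 1; omega
        calc z * 2 ^ (a - 1 - v)
            = 2 ^ (w - v) * (2 ^ v * 2 ^ (a - 1 - v)) * (2 * (l : ZMod (2 ^ a)) + 1) := by
              rw [hl, hw]; ring
          _ = _ := by rw [hp]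
      rcases Nat.eq_or_lt_of_le h with heq | hlt3
      · right
        rw [hcalc, heq, Nat.sub_self, pow_zero, one_mul]
        calc (2 : ZMod (2 ^ a)) ^ (a - 1) * (2 * (l : ZMod (2 ^ a)) + 1)
            = l * (2 * 2 ^ (a - 1)) + 2 ^ (a - 1) := by ring
          _ = _ := by rw [hh, mul_zero, zero_add]
      · left
        rw [hcalc]
        have hwv : (2 : ZMod (2 ^ a)) ^ (w - v) = 2 ^ (w - v - 1) * 2 := by
          rw [← pow_succ]; congr 1; omega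
        rw [hwv]
        calc (2 : ZMod (2 ^ a)) ^ (w - v - 1) * 2 * 2 ^ (a - 1) * (2 * (l : ZMod (2 ^ a)) + 1)
            = 2 ^ (w - v - 1) * (2 * 2 ^ (a - 1)) * (2 * (l : ZMod (2 ^ a)) + 1) := by ring
          _ = 0 := by rw [hh]; ring

lemma psi_add (a : ℕ) (p : ZMod (2 ^ a)) (x y : HH a) :
    psi a p (x + y) = psi a p x + psi a p y := by
  unfold psi
  rw [Prod.fst_add, Prod.snd_add, mul_add, jj_add]
  ring

lemma phi_add (a : ℕ) (q : ZMod (2 ^ a)) (x y : HH a) :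
    phi a q (x + y) = phi a q x + phi a q y := by
  unfold phi
  rw [Prod.fst_add, Prod.snd_add, mul_add, jj_add]
  ring

end G
end MP82
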