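import Pool.Agent.Lib.MP_82ec8b_co.M2
import Pool.Agent.Lib.MP_82ec8b_co.G.Val

/-!
# PB-M2: the 2-adic analysis for `ZMod (2 ^ m)`

Let `q = 2 ^ (m - 3)`, `8 q = 0`. The support of `c` is contained in `{e + i q | i = 0..7}` (the
solutions of `8 (s - e) = 0`), `c (s + 4 q) = - c s` (`4 q = 2 ^ (m - 1)`). Put `c_i = c (e + i q)`,
`i = 0..3`. The correlation at `t = 0, q, 2 q` is a sum over the eight residues and gives
`MP82.M2.Q4 c_0 c_1 c_2 c_3 (4 ^ n * 9 ^ b)` (see `MP82.M2.Q4_of` for the case `m = 4`; the sum is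
twice the sum over four residues).
Induction on `n` on the statement for quadruples: `Q4 c_i (4 ^ n * 9 ^ b)` implies `c_i = 2 ^ n * y_i`
with `Q4 y_i (9 ^ b)`: `MP82.M2.Q4.even` (needs `4 ∣ M`) gives `c_i = 2 w_i` (`red_eq_zero_iff`), and
`Q4 (2 w_i) (4 M) → Q4 w_i M`.
Finally `MP82.M2.Q4.fin` for `Q4 y_i (9 ^ b)`: exactly one of `red (y_0 + y_2)`, `red (y_1 + y_3)` is
nonzero (`nz (y_0 + y_2) + nz (y_1 + y_3) = 1`): put `d = e`, `y = red (y_0 + y_2)` in the first case,
`d = e + q`, `y = red (y_1 + y_3)` in the second.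
`Y s := ` the value with `c s = 2 ^ n * Y s` (`Y = 0` off the support; on the support
`± y_i`; or simply choose `Y s` from `∃ w, c s = 2 ^ n * w`, and get everything about `Y` by cancelling
`2 ^ n`). The energy: for `8 (s - d) = 0` the points `s + i q`, `i < 8`, are again the eight residues
in a shifted order, and `N (-z) = N z`. The parity: for `8 (s - e) = 0`, `s = e + i q` and
`red (Y s) + red (Y (s + 2 q))` is `red (y_0 + y_2)` for even `i` and `red (y_1 + y_3)` for odd `i`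
(signs do not matter); `4 (s - d) = 0` iff `s - d` is an even multiple of `q`; off the support both
sides are `0` (`4 (s - d) = 0` implies `8 (s - e) = 0`).
-/

namespace MP82
namespace G
open Finset

private lemma sup_iff (j : ℕ) (z : ZMod (2 ^ (j + 3))) (hz : 8 * z = 0) :
    ∃ k : ℕ, k < 8 ∧ z = k * 2 ^ j := by
  have h1 : (((8 * z.val : ℕ)) : ZMod (2 ^ (j + 3))) = 0 := by
    push_cast
    rw [ZMod.natCast_zmod_val]
    exact hz
  rw [ZMod.natCast_eq_zero_iff] at h1
  have h2 : 2 ^ (j + 3) = 8 * 2 ^ j := by ring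
  have h1' : 8 * 2 ^ j ∣ 8 * z.val := dvd_trans (dvd_of_eq h2.symm) h1
  have h3 : 2 ^ j ∣ z.val := Nat.dvd_of_mul_dvd_mul_left (by norm_num) h1'
  obtain ⟨k, hk⟩ := h3
  refine ⟨k, ?_, ?_⟩
  · have h4 := z.val_lt
    rw [hk] at h4
    have h5 : 2 ^ j * k < 2 ^ j * 8 := by rw [pow_add] at h4; exact h4
    exact Nat.lt_of_mul_lt_mul_left h5
  · have h4 : z = ((z.val : ℕ) : ZMod (2 ^ (j + 3))) := (ZMod.natCast_zmod_val z).symm
    rw [h4, hk]
    push_cast
    ring

private lemma q_inj (j : ℕ) (i k : ℕ) (hi : i < 8) (hk : k < 8)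
    (h : (i : ZMod (2 ^ (j + 3))) * 2 ^ j = k * 2 ^ j) : i = k := by
  have h1 : (((i * 2 ^ j : ℕ)) : ZMod (2 ^ (j + 3))) = ((k * 2 ^ j : ℕ) : ZMod (2 ^ (j + 3))) := by
    push_cast
    exact h
  rw [ZMod.natCast_eq_natCast_iff'] at h1
  have h2 : 2 ^ (j + 3) = 8 * 2 ^ j := by ring
  have hp : 0 < 2 ^ j := by positivity
  rw [h2, Nat.mod_eq_of_lt (Nat.mul_lt_mul_of_pos_right hi hp),
    Nat.mod_eq_of_lt (Nat.mul_lt_mul_of_pos_right hk hp)] at h1
  exact Nat.eq_of_mul_eq_mul_right hp h1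

private lemma sum_eight (j : ℕ) (e : ZMod (2 ^ (j + 3))) (f : ZMod (2 ^ (j + 3)) → E)
    (hf : ∀ s, 8 * (s - e) ≠ 0 → f s = 0) :
    ∑ s, f s = ∑ i ∈ range 8, f (e + i * 2 ^ j) := by
  have h1 : ∑ s ∈ (range 8).image (fun i : ℕ => e + (i : ZMod (2 ^ (j + 3))) * 2 ^ j), f s
      = ∑ i ∈ range 8, f (e + i * 2 ^ j) := by
    apply Finset.sum_image
    intro i hi k hk hik
    simp only [coe_range, Set.mem_Iio] at hi hk
    exact q_inj j i k hi hk (add_left_cancel hik)
  rw [← h1]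
  symm
  apply Finset.sum_subset (Finset.subset_univ _)
  intro s _ hs
  apply hf
  intro h8
  apply hs
  obtain ⟨k, hk, hk'⟩ := sup_iff j _ h8
  rw [Finset.mem_image]
  refine ⟨k, Finset.mem_range.2 hk, ?_⟩
  rw [← hk']
  ring

private lemma descend (M : ℤ) : ∀ (n : ℕ) (c0 c1 c2 c3 : E), M2.Q4 c0 c1 c2 c3 (4 ^ n * M) →
    ∃ y0 y1 y2 y3 : E, c0 = 2 ^ n * y0 ∧ c1 = 2 ^ n * y1 ∧ c2 = 2 ^ n * y2 ∧ c3 = 2 ^ n * y3 ∧
      M2.Q4 y0 y1 y2 y3 M := by
  intro n
  induction n with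
  | zero =>
    intro c0 c1 c2 c3 h
    refine ⟨c0, c1, c2, c3, by simp, by simp, by simp, by simp, ?_⟩
    simpa using h
  | succ n ih =>
    intro c0 c1 c2 c3 h
    obtain ⟨r0, r1, r2, r3⟩ := h.even ⟨4 ^ n * M, by ring⟩
    obtain ⟨w0, rfl⟩ := (red_eq_zero_iff _).1 r0
    obtain ⟨w1, rfl⟩ := (red_eq_zero_iff _).1 r1
    obtain ⟨w2, rfl⟩ := (red_eq_zero_iff _).1 r2
    obtain ⟨w3, rfl⟩ := (red_eq_zero_iff _).1 r3
    have st : star (2 : E) = 2 := by
      rw [show (2 : E) = 1 + 1 by norm_num, star_add, star_one]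
    have hN : ∀ z : E, N (2 * z) = 4 * N z := by
      intro z
      have := N_intMul 2 z
      push_cast at this
      rw [this]
    have hq : M2.Q4 w0 w1 w2 w3 (4 ^ n * M) := by
      refine ⟨?_, ?_, ?_⟩
      · have h0 := h.s0
        simp only [hN] at h0
        have e4 : (4 : ℤ) ^ (n + 1) * M = 4 * (4 ^ n * M) := by ring
        rw [e4] at h0
        linarith
      · have h1 := h.s1
        simp only [star_mul, st] at h1
        apply M2.cancel_int 4 (by norm_num)
        push_cast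
        linear_combination h1
      · have h1 := h.s2
        simp only [star_mul, st] at h1
        apply M2.cancel_int 4 (by norm_num)
        push_cast
        linear_combination h1
    obtain ⟨y0, y1, y2, y3, e0, e1, e2, e3, hy⟩ := ih _ _ _ _ hq
    refine ⟨y0, y1, y2, y3, ?_, ?_, ?_, ?_, hy⟩
    · rw [e0]; ring
    · rw [e1]; ring
    · rw [e2]; ring
    · rw [e3]; ring

private lemma sum_per (F : ℕ → ℤ) (hF : ∀ i, F (i + 4) = F i) (w : ℤ)
    (h0 : F 0 + F 1 + F 2 + F 3 = w) (k : ℕ) : ∑ i ∈ range 8, F (k + i) = 2 * w := by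
  induction k with
  | zero =>
    have h4 := hF 0
    have h5 := hF 1
    have h6 := hF 2
    have h7 := hF 3
    simp only [Finset.sum_range_succ, Finset.sum_range_zero, zero_add] at *
    norm_num at h4 h5 h6 h7
    rw [h4, h5, h6, h7]
    linarith
  | succ k ih =>
    have h8 : F (k + 8) = F k := by
      have a1 := hF (k + 4)
      have a2 := hF k
      rw [← a2]
      exact a1
    have e1 : ∑ i ∈ range 8, F (k + 1 + i) = ∑ i ∈ range 8, F (k + (i + 1)) := by
      refine Finset.sum_congr rfl fun i _ => ?_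
      congr 1
      ring
    have e2 := Finset.sum_range_succ' (fun i => F (k + i)) 8
    have e3 := Finset.sum_range_succ (fun i => F (k + i)) 8
    simp only [add_zero] at e2
    rw [e1]
    linarith

private lemma par_per (G : ℕ → ZMod 2 × ZMod 2) (hG : ∀ i, G (i + 4) = G i) (k : ℕ) :
    G k + G (k + 2) = if Even k then G 0 + G 2 else G 1 + G 3 := by
  induction k using Nat.strong_induction_on with
  | _ k ih =>
    by_cases hk : k < 4
    · interval_cases k
      · simp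
      · rw [if_neg (by decide)]
      · rw [if_pos (by decide)]
        have := hG 0
        norm_num at this ⊢
        rw [this, add_comm]
      · rw [if_neg (by decide)]
        have := hG 1
        norm_num at this ⊢
        rw [this, add_comm]
    · obtain ⟨j, rfl⟩ : ∃ j, k = j + 4 := ⟨k - 4, by omega⟩
      have e1 := ih j (by omega)
      have e2 : G (j + 4 + 2) = G (j + 2) := by
        rw [show j + 4 + 2 = (j + 2) + 4 by ring]
        exact hG _
      rw [hG, e2, e1]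
      have : Even (j + 4) ↔ Even j := by
        simp [Nat.even_add, show Even 4 by decide]
      simp only [this]

private lemma nz_pair {u v : E} (h : nz u + nz v = 1) :
    (red u ≠ 0 ∧ red v = 0) ∨ (red u = 0 ∧ red v ≠ 0) := by
  unfold nz at h
  by_cases h1 : red u = 0
  · by_cases h2 : red v = 0
    · rw [if_pos h1, if_pos h2] at h
      omega
    · exact Or.inr ⟨h1, h2⟩
  · by_cases h2 : red v = 0
    · exact Or.inl ⟨h1, h2⟩
    · rw [if_neg h1, if_neg h2] at h
      omega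

private lemma M2aux (j : ℕ) (n b : ℕ) (c : ZMod (2 ^ (j + 3)) → E) (e : ZMod (2 ^ (j + 3)))
    (hanti : ∀ s, c (s + 4 * 2 ^ j) = - c s)
    (hsupp : ∀ s, 8 * (s - e) ≠ 0 → c s = 0)
    (hcorr : ∀ t : ZMod (2 ^ (j + 3)), ∑ s, c s * star (c (s + t))
      = if t = 0 then ((2 * (4 ^ n * 9 ^ b) : ℤ) : E)
        else if t = 4 * 2 ^ j then ((-(2 * (4 ^ n * 9 ^ b)) : ℤ) : E) else 0) :
    ∃ (Y : ZMod (2 ^ (j + 3)) → E) (d : ZMod (2 ^ (j + 3))) (y : ZMod 2 × ZMod 2),
      8 * (d - e) = 0 ∧ (∀ s, c s = 2 ^ n * Y s) ∧ (∀ s, Y (s + 4 * 2 ^ j) = - Y s) ∧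
      (∀ s, 8 * (s - d) ≠ 0 → Y s = 0) ∧
      (∀ s, 8 * (s - d) = 0 → ∑ i ∈ range 8, N (Y (s + i * 2 ^ j)) = 2 * 9 ^ b) ∧
      y ≠ 0 ∧
      (∀ s, red (Y s) + red (Y (s + 2 * 2 ^ j)) = if 4 * (s - d) = 0 then y else 0) := by
  have hq8 : (8 : ZMod (2 ^ (j + 3))) * 2 ^ j = 0 := by
    have h := pow_self (j + 3)
    rw [pow_add (2 : ZMod (2 ^ (j + 3))) j 3] at h
    rw [mul_comm]
    have e8 : (2 : ZMod (2 ^ (j + 3))) ^ 3 = 8 := by norm_num
    rw [e8] at h
    exact h
  have hq4 : (4 : ZMod (2 ^ (j + 3))) * 2 ^ j ≠ 0 := by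
    have h := half_ne (j + 3) (by omega)
    have e2 : j + 3 - 1 = j + 2 := by omega
    rw [e2, pow_add (2 : ZMod (2 ^ (j + 3))) j 2] at h
    have e4 : (2 : ZMod (2 ^ (j + 3))) ^ 2 = 4 := by norm_num
    rw [e4, mul_comm] at h
    exact h
  set C : ℕ → E := fun i => c (e + i * 2 ^ j) with hC
  have C4 : ∀ i, C (i + 4) = - C i := by
    intro i
    simp only [hC]
    rw [← hanti]
    congr 1
    push_cast
    ring
  have corr : ∀ t : ℕ, ∑ i ∈ range 8, C i * star (C (i + t))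
      = if ((t : ZMod (2 ^ (j + 3))) * 2 ^ j = 0) then ((2 * (4 ^ n * 9 ^ b) : ℤ) : E)
        else if ((t : ZMod (2 ^ (j + 3))) * 2 ^ j = 4 * 2 ^ j) then
          ((-(2 * (4 ^ n * 9 ^ b)) : ℤ) : E) else 0 := by
    intro t
    rw [← hcorr, sum_eight j e]
    · refine Finset.sum_congr rfl fun i _ => ?_
      simp only [hC]
      congr 3
      push_cast
      ring
    · intro s hs
      rw [hsupp s hs, zero_mul]
  have c0 := corr 0
  have c1 := corr 1
  have c2 := corr 2
  rw [if_pos (by simp)] at c0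
  have n1 : ¬ (((1 : ℕ) : ZMod (2 ^ (j + 3))) * 2 ^ j = 0) := by
    intro h
    have := q_inj j 1 0 (by norm_num) (by norm_num) (by rw [h]; simp)
    omega
  have n2 : ¬ (((2 : ℕ) : ZMod (2 ^ (j + 3))) * 2 ^ j = 0) := by
    intro h
    have := q_inj j 2 0 (by norm_num) (by norm_num) (by rw [h]; simp)
    omega
  have n3 : ¬ (((1 : ℕ) : ZMod (2 ^ (j + 3))) * 2 ^ j = 4 * 2 ^ j) := by
    intro h
    have := q_inj j 1 4 (by norm_num) (by norm_num) (by rw [h]; norm_num)
    omega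
  have n4 : ¬ (((2 : ℕ) : ZMod (2 ^ (j + 3))) * 2 ^ j = 4 * 2 ^ j) := by
    intro h
    have := q_inj j 2 4 (by norm_num) (by norm_num) (by rw [h]; norm_num)
    omega
  rw [if_neg n1, if_neg n3] at c1
  rw [if_neg n2, if_neg n4] at c2
  have v4 := C4 0
  have v5 := C4 1
  have v6 := C4 2
  have v7 := C4 3
  have v8 := C4 4
  have v9 := C4 5
  simp only [zero_add, Nat.reduceAdd] at v4 v5 v6 v7 v8 v9
  rw [v4] at v8
  rw [v5] at v9
  simp only [Finset.sum_range_succ, Finset.sum_range_zero, zero_add, add_zero, Nat.reduceAdd,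
    v4, v5, v6, v7, v8, v9, star_neg, neg_neg] at c0 c1 c2
  have hQ : M2.Q4 (C 0) (C 1) (C 2) (C 3) (4 ^ n * 9 ^ b) := by
    refine ⟨?_, ?_, ?_⟩
    · have h : ((N (C 0) + N (C 1) + N (C 2) + N (C 3) : ℤ) : E)
          = ((4 ^ n * 9 ^ b : ℤ) : E) := by
        push_cast
        rw [← mul_star_eq, ← mul_star_eq, ← mul_star_eq, ← mul_star_eq]
        apply M2.cancel_int 2 (by norm_num)
        push_cast at c0 ⊢
        linear_combination c0
      exact M2.int_cast_inj h
    · apply M2.two_cancel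
      linear_combination c1
    · apply M2.two_cancel
      linear_combination c2
  obtain ⟨y0, y1, y2, y3, f0, f1, f2, f3, hy⟩ := descend (9 ^ b) n _ _ _ _ hQ
  have canc : ∀ {z w : E}, 2 ^ n * z = 2 ^ n * w → z = w := by
    intro z w h
    apply M2.cancel_int (2 ^ n) (by positivity)
    push_cast
    exact h
  have hex : ∀ k : ℕ, ∃ w, C k = 2 ^ n * w := by
    intro k
    induction k using Nat.strong_induction_on with
    | _ k ih =>
      by_cases hk : k < 4
      · interval_cases k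
        · exact ⟨y0, f0⟩
        · exact ⟨y1, f1⟩
        · exact ⟨y2, f2⟩
        · exact ⟨y3, f3⟩
      · obtain ⟨i, rfl⟩ : ∃ i, k = i + 4 := ⟨k - 4, by omega⟩
        obtain ⟨w, hw⟩ := ih i (by omega)
        exact ⟨-w, by rw [C4, hw]; ring⟩
  have hex' : ∀ s, ∃ w, c s = 2 ^ n * w := by
    intro s
    by_cases hs : 8 * (s - e) = 0
    · obtain ⟨k, _, hk⟩ := sup_iff j _ hs
      obtain ⟨w, hw⟩ := hex k
      refine ⟨w, ?_⟩
      rw [← hw]
      simp only [hC]
      rw [← hk]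
      congr 1
      ring
    · exact ⟨0, by rw [hsupp s hs, mul_zero]⟩
  choose Y hY using hex'
  have Yanti : ∀ s, Y (s + 4 * 2 ^ j) = - Y s := by
    intro s
    apply canc
    rw [← hY, hanti, hY]
    ring
  have Ysupp : ∀ s, 8 * (s - e) ≠ 0 → Y s = 0 := by
    intro s hs
    apply canc
    rw [← hY, hsupp s hs, mul_zero]
  have z0 : Y (e + (0 : ℕ) * 2 ^ j) = y0 := by
    apply canc
    rw [← hY, ← f0]
  have z1 : Y (e + (1 : ℕ) * 2 ^ j) = y1 := by
    apply canc
    rw [← hY, ← f1]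
  have z2 : Y (e + (2 : ℕ) * 2 ^ j) = y2 := by
    apply canc
    rw [← hY, ← f2]
  have z3 : Y (e + (3 : ℕ) * 2 ^ j) = y3 := by
    apply canc
    rw [← hY, ← f3]
  have YN : ∀ k : ℕ, ∑ i ∈ range 8, N (Y (e + ((k + i : ℕ) : ZMod (2 ^ (j + 3))) * 2 ^ j))
      = 2 * 9 ^ b := by
    intro k
    apply sum_per (fun i : ℕ => N (Y (e + (i : ZMod (2 ^ (j + 3))) * 2 ^ j)))
    · intro i
      have e1 : e + ((i + 4 : ℕ) : ZMod (2 ^ (j + 3))) * 2 ^ j = e + i * 2 ^ j + 4 * 2 ^ j := by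
        push_cast
        ring
      show N (Y _) = N (Y _)
      rw [e1, Yanti]
      simp [N]
    · show N (Y _) + N (Y _) + N (Y _) + N (Y _) = _
      rw [z0, z1, z2, z3]
      exact hy.s0
  have energy : ∀ s, 8 * (s - e) = 0 → ∑ i ∈ range 8, N (Y (s + i * 2 ^ j)) = 2 * 9 ^ b := by
    intro s hs
    obtain ⟨k, _, hk⟩ := sup_iff j _ hs
    rw [← YN k]
    refine Finset.sum_congr rfl fun i _ => ?_
    congr 2
    push_cast
    have : s = e + k * 2 ^ j := by rw [← hk]; ring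
    rw [this]
    ring
  have par : ∀ k : ℕ, red (Y (e + (k : ZMod (2 ^ (j + 3))) * 2 ^ j))
      + red (Y (e + ((k + 2 : ℕ) : ZMod (2 ^ (j + 3))) * 2 ^ j))
      = if Even k then red (y0 + y2) else red (y1 + y3) := by
    intro k
    have h := par_per (fun i : ℕ => red (Y (e + (i : ZMod (2 ^ (j + 3))) * 2 ^ j))) (by
      intro i
      have e1 : e + ((i + 4 : ℕ) : ZMod (2 ^ (j + 3))) * 2 ^ j = e + i * 2 ^ j + 4 * 2 ^ j := by
        push_cast
        ring
      show red (Y _) = red (Y _)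
      rw [e1, Yanti, red_neg]) k
    rw [h, z0, z1, z2, z3, red_add, red_add]
  have h9 : ((9 ^ b : ℤ) : ZMod 2) = 1 := by
    push_cast
    have : (9 : ZMod 2) = 1 := by decide
    rw [this, one_pow]
  obtain ⟨_, _, q3⟩ := hy.fin h9
  have off : ∀ (d : ZMod (2 ^ (j + 3))) (y : ZMod 2 × ZMod 2), 8 * (d - e) = 0 →
      ∀ s, 8 * (s - e) ≠ 0 →
      red (Y s) + red (Y (s + 2 * 2 ^ j)) = if 4 * (s - d) = 0 then y else 0 := by
    intro d y hd s hs
    have h2 : 8 * (s + 2 * 2 ^ j - e) ≠ 0 := by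
      intro h
      apply hs
      linear_combination h - 2 * hq8
    rw [Ysupp s hs, Ysupp _ h2, if_neg]
    · simp
    · intro h
      apply hs
      linear_combination 2 * h + hd
  rcases nz_pair q3 with ⟨g1, g2⟩ | ⟨g1, g2⟩
  · refine ⟨Y, e, red (y0 + y2), by simp, hY, Yanti, Ysupp, energy, g1, ?_⟩
    intro s
    by_cases hs : 8 * (s - e) = 0
    · obtain ⟨k, _, hk⟩ := sup_iff j _ hs
      have e1 : s = e + k * 2 ^ j := by rw [← hk]; ring
      have e2 : s + 2 * 2 ^ j = e + ((k + 2 : ℕ) : ZMod (2 ^ (j + 3))) * 2 ^ j := by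
        rw [e1]; push_cast; ring
      have e3 : 4 * (s - e) = 0 ↔ Even k := by
        rw [hk]
        constructor
        · intro h
          by_contra hodd
          rw [Nat.not_even_iff_odd] at hodd
          obtain ⟨i, rfl⟩ := hodd
          apply hq4
          push_cast at h
          linear_combination h - i * hq8
        · rintro ⟨i, rfl⟩
          push_cast
          linear_combination i * hq8
      rw [e2]
      nth_rw 1 [e1]
      rw [par k, g2]
      simp only [e3]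
    · exact off e _ (by simp) s hs
  · have h8 : 8 * (e + 2 ^ j - e) = 0 := by linear_combination hq8
    refine ⟨Y, e + 2 ^ j, red (y1 + y3), h8, hY, Yanti, ?_, ?_, g2, ?_⟩
    · intro s hs
      apply Ysupp
      intro h
      apply hs
      linear_combination h - hq8
    · intro s hs
      apply energy
      linear_combination hs + hq8
    · intro s
      by_cases hs : 8 * (s - e) = 0
      · obtain ⟨k, _, hk⟩ := sup_iff j _ hs
        have e1 : s = e + k * 2 ^ j := by rw [← hk]; ring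
        have e2 : s + 2 * 2 ^ j = e + ((k + 2 : ℕ) : ZMod (2 ^ (j + 3))) * 2 ^ j := by
          rw [e1]; push_cast; ring
        have e3 : 4 * (s - (e + 2 ^ j)) = 0 ↔ ¬ Even k := by
          have e4 : 4 * (s - (e + 2 ^ j)) = 4 * (k * 2 ^ j) - 4 * 2 ^ j := by
            rw [← hk]; ring
          rw [e4]
          constructor
          · rintro h ⟨i, rfl⟩
            apply hq4
            push_cast at h
            linear_combination (i : ZMod (2 ^ (j + 3))) * hq8 - h
          · intro hodd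
            rw [Nat.not_even_iff_odd] at hodd
            obtain ⟨i, rfl⟩ := hodd
            push_cast
            linear_combination i * hq8
        rw [e2]
        nth_rw 1 [e1]
        rw [par k, g1]
        by_cases hk2 : Even k
        · rw [if_pos hk2, if_neg]
          rw [e3]
          exact not_not.2 hk2
        · rw [if_neg hk2, if_pos (e3.2 hk2)]
      · exact off _ _ h8 s hs

theorem M2 (m : ℕ) (hm : 3 ≤ m) (n b : ℕ) (c : ZMod (2 ^ m) → E) (e : ZMod (2 ^ m))
    (hanti : ∀ s, c (s + 2 ^ (m - 1)) = - c s)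
    (hsupp : ∀ s, 8 * (s - e) ≠ 0 → c s = 0)
    (hcorr : ∀ t : ZMod (2 ^ m), ∑ s, c s * star (c (s + t))
      = if t = 0 then ((2 * (4 ^ n * 9 ^ b) : ℤ) : E)
        else if t = 2 ^ (m - 1) then ((-(2 * (4 ^ n * 9 ^ b)) : ℤ) : E) else 0) :
    ∃ (Y : ZMod (2 ^ m) → E) (d : ZMod (2 ^ m)) (y : ZMod 2 × ZMod 2),
      8 * (d - e) = 0 ∧ (∀ s, c s = 2 ^ n * Y s) ∧ (∀ s, Y (s + 2 ^ (m - 1)) = - Y s) ∧
      (∀ s, 8 * (s - d) ≠ 0 → Y s = 0) ∧
      (∀ s, 8 * (s - d) = 0 → ∑ i ∈ range 8, N (Y (s + i * 2 ^ (m - 3))) = 2 * 9 ^ b) ∧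
      y ≠ 0 ∧
      (∀ s, red (Y s) + red (Y (s + 2 ^ (m - 2))) = if 4 * (s - d) = 0 then y else 0) := by
  obtain ⟨j, rfl⟩ : ∃ j, m = j + 3 := ⟨m - 3, by omega⟩
  have e1 : j + 3 - 1 = j + 2 := by omega
  have e2 : j + 3 - 2 = j + 1 := by omega
  have e3 : j + 3 - 3 = j := by omega
  have p1 : (2 : ZMod (2 ^ (j + 3))) ^ (j + 2) = 4 * 2 ^ j := by rw [pow_add]; ring
  have p2 : (2 : ZMod (2 ^ (j + 3))) ^ (j + 1) = 2 * 2 ^ j := by rw [pow_add]; ring
  rw [e1, p1] at hanti hcorr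
  rw [e1, e2, e3, p1, p2]
  exact M2aux j n b c e hanti hsupp hcorr

end G
end MP82
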