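import Pool.Agent.Lib.MP_82ec8b_co.M5
import Pool.Agent.Lib.MP_82ec8b_co.G.M1
import Pool.Agent.Lib.MP_82ec8b_co.G.M2

/-!
# PB-FamOf: from a perfect function on `H × ℤ/3^K` to `Fam`

`G_push_comp`, `G_corr_push`: copy of `MP82.push_comp`, `MP82.corr_push` (`M5.lean`) with `16`
replaced by `2 ^ m` (`MP82.compHom` can be used).
`act_of`: push forward along `ℓ` (`A s c = ∑ x, if ℓ x = s then F x c else 0`), apply `G.M1`
(compare `MP82.M5_act`): `cc ℓ (u r) s = comp K (A s) r - comp K (A (s + 2 ^ (m - 1))) r`.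
`fam_of`: `m = a + 2`, `2 ^ (2 a + 2) * 9 ^ b = 4 ^ (a + 1) * 9 ^ b = 2 ^ (2 a + 2) * 3 ^ (2 b)`.
`G.M2` with `c = cc ℓ (u r0)`, `n = a + 1`: `c s = 2 ^ (a + 1) * Y s`; and `c s = 2 * cc ℓ (g r0) s`
by linearity; cancel `2`. The fields of `Fam` are those of `G.M2` (`m - 1 = a + 1`, `m - 2 = a`,
`m - 3 = a - 1`).
-/

namespace MP82
namespace G
open Finset

variable {H : Type} [AddCommGroup H] [Fintype H] [DecidableEq H]

lemma push_comp (m K : ℕ) (F : H → ZMod (3 ^ K) → ℤ) (ℓ : H → ZMod (2 ^ m)) (r : ℕ)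
    (s : ZMod (2 ^ m)) :
    push ℓ (fun x => MP82.comp K (F x) r) s
      = MP82.comp K (∑ x, if ℓ x = s then F x else 0) r := by
  have h : MP82.comp K (∑ x, if ℓ x = s then F x else 0) r =
      MP82.compHom K r (∑ x, if ℓ x = s then F x else 0) := rfl
  rw [h, map_sum]
  unfold push
  refine sum_congr rfl fun x _ => ?_
  split_ifs
  · rfl
  · rw [map_zero]

lemma corr_push (m K : ℕ)
    (F : H → ZMod (3 ^ K) → ℤ) (M : ℤ)
    (hF : ∀ d v, ∑ x, ∑ c, F x c * F (x + d) (c + v)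
      = if d = 0 ∧ v = 0 then M else 0)
    (ℓ : H → ZMod (2 ^ m)) (hℓ : ∀ x y, ℓ (x + y) = ℓ x + ℓ y) (d : ZMod (2 ^ m))
    (v : ZMod (3 ^ K)) :
    ∑ s, ∑ c, (∑ x, if ℓ x = s then F x c else 0) * (∑ x, if ℓ x = s + d then F x (c + v) else 0)
      = if d = 0 ∧ v = 0 then M else 0 := by
  have h0 : ℓ 0 = 0 := by
    have := hℓ 0 0
    rw [add_zero] at this
    exact left_eq_add.mp this
  calc ∑ s, ∑ c, (∑ x, if ℓ x = s then F x c else 0) *
        (∑ x, if ℓ x = s + d then F x (c + v) else 0)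
      = ∑ s, ∑ c, ∑ x, ∑ w, (if ℓ x = s then (if ℓ w = d then F x c * F (x + w) (c + v) else 0)
          else 0) := by
        refine sum_congr rfl fun s _ => sum_congr rfl fun c _ => ?_
        rw [sum_mul]
        refine sum_congr rfl fun x _ => ?_
        by_cases hx : ℓ x = s
        · simp only [hx, if_true]
          rw [mul_sum, ← Equiv.sum_comp (Equiv.addLeft x)]
          refine sum_congr rfl fun w _ => ?_
          simp only [Equiv.coe_addLeft, hℓ, hx, add_right_inj]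
          split_ifs <;> simp
        · simp [hx]
    _ = ∑ w, ∑ x, ∑ c, (if ℓ w = d then F x c * F (x + w) (c + v) else 0) := by
        have e1 : ∀ s : ZMod (2 ^ m), ∑ c, ∑ x, ∑ w,
            (if ℓ x = s then (if ℓ w = d then F x c * F (x + w) (c + v) else 0) else 0) =
            ∑ x, (if ℓ x = s then ∑ c, ∑ w, (if ℓ w = d then F x c * F (x + w) (c + v) else 0)
              else 0) := by
          intro s
          rw [sum_comm]
          refine sum_congr rfl fun x _ => ?_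
          by_cases hx : ℓ x = s
          · simp [hx]
          · simp [hx]
        simp only [e1]
        rw [sum_comm]
        simp only [sum_ite_eq, mem_univ, if_true]
        rw [sum_comm (s := univ) (t := univ)
          (f := fun w x => ∑ c, (if ℓ w = d then F x c * F (x + w) (c + v) else 0))]
        exact sum_congr rfl fun x _ => sum_comm
    _ = ∑ w, (if ℓ w = d then (if w = 0 ∧ v = 0 then M else 0) else 0) := by
        refine sum_congr rfl fun w _ => ?_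
        by_cases hw : ℓ w = d
        · simp only [hw, if_true]
          exact hF w v
        · simp [hw]
    _ = if d = 0 ∧ v = 0 then M else 0 := by
        rw [sum_eq_single 0]
        · rw [h0]
          by_cases hd : d = 0
          · simp [hd]
          · simp [hd, Ne.symm hd]
        · intro w _ hw
          simp [hw]
        · simp

theorem act_of (m K : ℕ) (hm : 3 ≤ m) (hK : 1 ≤ K) (F : H → ZMod (3 ^ K) → ℤ) (i j : ℕ)
    (hF : ∀ d v, ∑ x, ∑ c, F x c * F (x + d) (c + v)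
      = if d = 0 ∧ v = 0 then 2 ^ i * 3 ^ j else 0)
    (ℓ : H → ZMod (2 ^ m)) (hℓ : ∀ x y, ℓ (x + y) = ℓ x + ℓ y) :
    ∃ r0 : Fin (3 ^ (K - 1)),
      (∀ r : Fin (3 ^ (K - 1)), r ≠ r0 → ∀ s, cc ℓ (fun x => MP82.comp K (F x) r) s = 0) ∧
      (∃ e : ZMod (2 ^ m), ∀ s : ZMod (2 ^ m), 8 * (s - e) ≠ 0 →
        cc ℓ (fun x => MP82.comp K (F x) r0) s = 0) ∧
      (∀ t : ZMod (2 ^ m), ∑ s, cc ℓ (fun x => MP82.comp K (F x) r0) s
          * star (cc ℓ (fun x => MP82.comp K (F x) r0) (s + t))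
        = if t = 0 then ((2 * (2 ^ i * 3 ^ j) : ℤ) : E)
          else if t = 2 ^ (m - 1) then ((-(2 * (2 ^ i * 3 ^ j)) : ℤ) : E) else 0) := by
  obtain ⟨A, hAdef⟩ : ∃ A : ZMod (2 ^ m) → ZMod (3 ^ K) → ℤ,
      A = fun s => ∑ x, if ℓ x = s then F x else 0 := ⟨_, rfl⟩
  have hAs : ∀ s c, A s c = ∑ x, if ℓ x = s then F x c else 0 := by
    intro s c
    rw [hAdef]
    simp only [Finset.sum_apply]
    refine sum_congr rfl fun x _ => ?_
    split_ifs <;> rfl
  have hA : ∀ d v, ∑ s, ∑ c, A s c * A (s + d) (c + v)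
      = if d = 0 ∧ v = 0 then 2 ^ i * 3 ^ j else 0 := by
    intro d v
    simp only [hAs]
    exact corr_push m K F _ hF ℓ hℓ d v
  obtain ⟨r0, h1, ⟨ε, h2⟩, h3⟩ := M1 m K hm hK A i j hA
  have hcc : ∀ (r : Fin (3 ^ (K - 1))) s, cc ℓ (fun x => MP82.comp K (F x) r) s =
      MP82.comp K (A s) r - MP82.comp K (A (s + 2 ^ (m - 1))) r := by
    intro r s
    unfold cc
    rw [push_comp, push_comp, hAdef]
  refine ⟨r0, fun r hr s => ?_, ⟨ε, fun s hs => ?_⟩, fun t => ?_⟩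
  · rw [hcc]; exact h1 r hr s
  · rw [hcc]; exact h2 s hs
  · simp only [hcc]
    exact h3 t

omit [AddCommGroup H] in
lemma cc_two (m : ℕ) (ℓ : H → ZMod (2 ^ m)) (g : H → E) (s : ZMod (2 ^ m)) :
    cc ℓ (fun x => 2 * g x) s = 2 * cc ℓ g s := by
  have h : ∀ s, push ℓ (fun x => 2 * g x) s = 2 * push ℓ g s := by
    intro s
    unfold push
    rw [mul_sum]
    refine sum_congr rfl fun x _ => ?_
    split_ifs <;> simp
  unfold cc
  rw [h, h, mul_sub]

lemma E_two_cancel {z w : E} (h : 2 * z = 2 * w) : z = w := by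
  rw [two_mul, two_mul] at h
  have h1 := congrArg QuadraticAlgebra.re h
  have h2 := congrArg QuadraticAlgebra.im h
  simp only [QuadraticAlgebra.re_add, QuadraticAlgebra.im_add] at h1 h2
  ext
  · omega
  · omega

lemma two_pow_add_self (m : ℕ) (hm : 1 ≤ m) : (2 : ZMod (2 ^ m)) ^ (m - 1) + 2 ^ (m - 1) = 0 := by
  rw [← two_mul, ← pow_succ', Nat.sub_add_cancel hm]
  have := ZMod.natCast_self (2 ^ m)
  push_cast at this
  exact this

omit [AddCommGroup H] in
lemma cc_anti' (m : ℕ) (hm : 1 ≤ m) (ℓ : H → ZMod (2 ^ m)) (u : H → E) (s : ZMod (2 ^ m)) :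
    cc ℓ u (s + 2 ^ (m - 1)) = - cc ℓ u s := by
  unfold cc
  rw [add_assoc, two_pow_add_self m hm, add_zero]
  ring

theorem fam_of (a b K : ℕ) (ha : 1 ≤ a) (hK : 1 ≤ K) (F : H → ZMod (3 ^ K) → ℤ)
    (hF : ∀ d v, ∑ x, ∑ c, F x c * F (x + d) (c + v)
      = if d = 0 ∧ v = 0 then 2 ^ (2 * a + 2) * 9 ^ b else 0)
    (g : Fin (3 ^ (K - 1)) → H → E) (hg : ∀ (r : Fin (3 ^ (K - 1))) x, MP82.comp K (F x) r = 2 * g r x)
    (ℓ : H → ZMod (2 ^ (a + 2))) (hℓ : ∀ x y, ℓ (x + y) = ℓ x + ℓ y) :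
    ∃ r0 Y d y, Fam a b ℓ g r0 Y d y := by
  have h9 : (9 : ℤ) ^ b = 3 ^ (2 * b) := by rw [pow_mul]; norm_num
  have h4 : (4 : ℤ) ^ (a + 1) = 2 ^ (2 * a + 2) := by
    rw [show 2 * a + 2 = 2 * (a + 1) by ring, pow_mul]; norm_num
  have hF' : ∀ d v, ∑ x, ∑ c, F x c * F (x + d) (c + v)
      = if d = 0 ∧ v = 0 then 2 ^ (2 * a + 2) * 3 ^ (2 * b) else 0 := by
    intro d v
    rw [hF d v, h9]
  obtain ⟨r0, h1, ⟨e, h2⟩, h3⟩ := act_of (a + 2) K (by omega) hK F (2 * a + 2) (2 * b) hF' ℓ hℓ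
  have hu : ∀ (r : Fin (3 ^ (K - 1))) s, cc ℓ (fun x => MP82.comp K (F x) r) s
      = 2 * cc ℓ (g r) s := by
    intro r s
    rw [← cc_two]
    congr 1
    funext x
    exact hg r x
  obtain ⟨Y, d, y, -, hY, hYa, hYs, hYe, hy, hYp⟩ := M2 (a + 2) (by omega) (a + 1) b
    (cc ℓ (fun x => MP82.comp K (F x) r0)) e
    (fun s => cc_anti' (a + 2) (by omega) ℓ _ s) h2 (by
      intro t
      rw [h4, h9]
      exact h3 t)
  refine ⟨r0, Y, d, y, ⟨?_, ?_, ?_, hYs, ?_, hy, ?_⟩⟩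
  · intro r hr s
    have := h1 r hr s
    rw [hu] at this
    exact E_two_cancel (by rw [this, mul_zero])
  · intro s
    have := hY s
    rw [hu, pow_succ', mul_assoc] at this
    exact E_two_cancel this
  · exact hYa
  · exact hYe
  · exact hYp

end G
end MP82
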