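import Pool.Agent.Lib.MP_82ec8b_co.G.FamOf

/-!
# PB-Far: the case `i + 4 ≤ j`

`ℓ x = x.2 : ZMod (2 ^ j)`, `m = j ≥ 4`. `act_of` with `t = 0`: `∑ s, N (c s) = 2 * 2 ^ (i + j) * 9 ^ b`
for `c = cc ℓ (u r0)` (`star_sum_mul_eq`). At most `8` values `s` contribute (`8 (s - e) = 0` has at most 8
solutions: `s.val`-argument or use: the solutions are `e + i * 2 ^ (j - 3)`, `i < 8`). Each `c s` is a
sum/difference of `2 * 2 ^ i` values `u r0 x` (`x.1` arbitrary, `x.2 = s` or `s + 2 ^ (j - 1)`), with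
`N (u r0 x) ≤ 4 * 9 ^ l` (`MP82.comp_N`), so `N (c s) ≤ (2 * 2 ^ i) ^ 2 * (4 * 9 ^ l)`
(`MP82.N_sum_le` in `M3.lean`: `N (∑ k ∈ K0, f k) ≤ K0.card * ∑ k ∈ K0, N (f k)`).
Hence `2 * 2 ^ (i + j) * 9 ^ b ≤ 8 * 16 * 4 ^ i * 9 ^ l`, but `2 ^ (i + j) ≥ 16 * 4 ^ i`,
`9 ^ b ≥ 9 * 9 ^ l`: `288 ≤ 128`. Contradiction.
-/

namespace MP82
namespace G
open Finset


lemma push_snd_eq_far (i j : ℕ) (u : ZMod (2 ^ i) × ZMod (2 ^ j) → E) (s : ZMod (2 ^ j)) :
    push (fun x : ZMod (2 ^ i) × ZMod (2 ^ j) => x.2) u s = ∑ x : ZMod (2 ^ i), u (x, s) := by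
  unfold push
  rw [Fintype.sum_prod_type]
  refine sum_congr rfl fun x _ => ?_
  simp

lemma N_sub_le_far (z w : E) : N (z - w) ≤ 2 * (N z + N w) := by
  have h : 2 * (N z + N w) - N (z - w) = N (z + w) := by
    simp only [N, QuadraticAlgebra.re_sub, QuadraticAlgebra.im_sub, QuadraticAlgebra.re_add,
      QuadraticAlgebra.im_add]
    ring
  have := MP82.N_nonneg (z + w)
  linarith

lemma card_eight_far (j : ℕ) (hj : 3 ≤ j) (e : ZMod (2 ^ j)) :
    (univ.filter fun s : ZMod (2 ^ j) => 8 * (s - e) = 0).card ≤ 8 := by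
  have hsub : (univ.filter fun s : ZMod (2 ^ j) => 8 * (s - e) = 0) ⊆
      (range 8).image (fun k : ℕ => e + ((k * 2 ^ (j - 3) : ℕ) : ZMod (2 ^ j))) := by
    intro s hs
    rw [mem_filter] at hs
    have hs := hs.2
    rw [mem_image]
    have hv : ((8 * (s - e).val : ℕ) : ZMod (2 ^ j)) = 0 := by
      push_cast
      rw [ZMod.natCast_zmod_val]
      exact hs
    rw [ZMod.natCast_eq_zero_iff] at hv
    obtain ⟨k, hk⟩ := hv
    have h2 : 2 ^ j = 8 * 2 ^ (j - 3) := by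
      rw [show (8 : ℕ) = 2 ^ 3 by norm_num, ← pow_add]
      congr 1
      omega
    have h3 : (s - e).val = k * 2 ^ (j - 3) := by
      have : 8 * (s - e).val = 8 * (k * 2 ^ (j - 3)) := by rw [hk, h2]; ring
      omega
    have hlt := ZMod.val_lt (s - e)
    refine ⟨k, ?_, ?_⟩
    · rw [mem_range]
      rw [h3, h2] at hlt
      by_contra hcon
      push Not at hcon
      have : 8 * 2 ^ (j - 3) ≤ k * 2 ^ (j - 3) := Nat.mul_le_mul_right _ hcon
      omega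
    · show e + ((k * 2 ^ (j - 3) : ℕ) : ZMod (2 ^ j)) = s
      rw [← h3, ZMod.natCast_zmod_val]
      ring
  calc _ ≤ _ := card_le_card hsub
    _ ≤ _ := card_image_le
    _ = 8 := by simp

theorem far (i j K l b : ℕ) (hK : 1 ≤ K) (hij : i + 4 ≤ j) (hl : l + 1 ≤ b)
    (F : ZMod (2 ^ i) × ZMod (2 ^ j) → ZMod (3 ^ K) → ℤ)
    (hB : ∀ x c, |F x c| ≤ 3 ^ l)
    (hF : ∀ d v, ∑ x, ∑ c, F x c * F (x + d) (c + v)
      = if d = 0 ∧ v = 0 then 2 ^ (i + j) * 9 ^ b else 0) : False := by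
  have h9 : (9 : ℤ) ^ b = 3 ^ (2 * b) := by rw [pow_mul]; norm_num
  have hF' : ∀ d v, ∑ x, ∑ c, F x c * F (x + d) (c + v)
      = if d = 0 ∧ v = 0 then 2 ^ (i + j) * 3 ^ (2 * b) else 0 := by
    intro d v
    rw [hF d v, h9]
  obtain ⟨r0, h1, ⟨e, h2⟩, h3⟩ := act_of j K (by omega) hK F (i + j) (2 * b) hF'
    (fun x => x.2) (fun x y => rfl)
  obtain ⟨u, hu⟩ : ∃ u : ZMod (2 ^ i) × ZMod (2 ^ j) → E, u = fun x => MP82.comp K (F x) r0 :=
    ⟨_, rfl⟩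
  rw [← hu] at h2 h3
  have huN : ∀ x, N (u x) ≤ 4 * 9 ^ l := by
    intro x
    rw [hu]
    exact MP82.comp_N K l (F x) (hB x) r0
  obtain ⟨c, hc⟩ : ∃ c : ZMod (2 ^ j) → E,
    c = cc (fun x : ZMod (2 ^ i) × ZMod (2 ^ j) => x.2) u := ⟨_, rfl⟩
  rw [← hc] at h2 h3
  have hE := h3 0
  simp only [add_zero, if_true] at hE
  rw [MP82.star_sum_mul_eq] at hE
  have hE' : ∑ s, N (c s) = 2 * (2 ^ (i + j) * 3 ^ (2 * b)) := by
    have := congrArg QuadraticAlgebra.re hE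
    rwa [QuadraticAlgebra.re_intCast, QuadraticAlgebra.re_intCast] at this
  have hcN : ∀ s, N (c s) ≤ 16 * 4 ^ i * 9 ^ l := by
    intro s
    have hcs : c s = ∑ x : ZMod (2 ^ i), (u (x, s) - u (x, s + 2 ^ (j - 1))) := by
      rw [hc]
      unfold cc
      rw [push_snd_eq_far, push_snd_eq_far, sum_sub_distrib]
    rw [hcs]
    have hcard : ((univ : Finset (ZMod (2 ^ i))).card : ℤ) = 2 ^ i := by
      rw [card_univ, ZMod.card]; push_cast; rfl
    calc N (∑ x : ZMod (2 ^ i), (u (x, s) - u (x, s + 2 ^ (j - 1))))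
        ≤ (univ : Finset (ZMod (2 ^ i))).card *
          ∑ x : ZMod (2 ^ i), N (u (x, s) - u (x, s + 2 ^ (j - 1))) := MP82.N_sum_le _ _
      _ ≤ (univ : Finset (ZMod (2 ^ i))).card * ∑ x : ZMod (2 ^ i), (16 * 9 ^ l : ℤ) := by
          refine mul_le_mul_of_nonneg_left (sum_le_sum fun x _ => ?_) (by positivity)
          have a1 := N_sub_le_far (u (x, s)) (u (x, s + 2 ^ (j - 1)))
          have a2 := huN (x, s)
          have a3 := huN (x, s + 2 ^ (j - 1))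
          linarith
      _ = 16 * 4 ^ i * 9 ^ l := by
          rw [sum_const, nsmul_eq_mul, hcard]
          rw [show (4 : ℤ) = 2 ^ 2 by norm_num, ← pow_mul, show 2 * i = i + i by ring, pow_add]
          ring
  have hsum : ∑ s, N (c s) ≤ 8 * (16 * 4 ^ i * 9 ^ l) := by
    calc ∑ s, N (c s)
        = ∑ s ∈ univ.filter (fun s : ZMod (2 ^ j) => 8 * (s - e) = 0), N (c s) := by
          rw [sum_filter]
          refine sum_congr rfl fun s _ => ?_
          split_ifs with h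
          · rfl
          · rw [h2 s h]; simp [N]
      _ ≤ ∑ s ∈ univ.filter (fun s : ZMod (2 ^ j) => 8 * (s - e) = 0),
            (16 * 4 ^ i * 9 ^ l : ℤ) := sum_le_sum fun s _ => hcN s
      _ = ((univ.filter fun s : ZMod (2 ^ j) => 8 * (s - e) = 0).card : ℤ)
            * (16 * 4 ^ i * 9 ^ l) := by rw [sum_const, nsmul_eq_mul]
      _ ≤ 8 * (16 * 4 ^ i * 9 ^ l) := by
          refine mul_le_mul_of_nonneg_right ?_ (by positivity)
          exact_mod_cast card_eight_far j (by omega) e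
  rw [hE'] at hsum
  obtain ⟨n, rfl⟩ : ∃ n, j = i + 4 + n := ⟨j - (i + 4), by omega⟩
  obtain ⟨q, rfl⟩ : ∃ q, b = l + 1 + q := ⟨b - (l + 1), by omega⟩
  rw [← h9] at hsum
  have e1 : (2 : ℤ) ^ (i + (i + 4 + n)) = 16 * 4 ^ i * 2 ^ n := by
    rw [show i + (i + 4 + n) = 2 * i + 4 + n by ring, pow_add, pow_add, pow_mul]
    norm_num
    ring
  have e2 : (9 : ℤ) ^ (l + 1 + q) = 9 * 9 ^ l * 9 ^ q := by
    rw [pow_add, pow_add]; ring
  rw [e1, e2] at hsum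
  have p1 : (1 : ℤ) ≤ 2 ^ n := one_le_pow₀ (by norm_num)
  have p2 : (1 : ℤ) ≤ 9 ^ q := one_le_pow₀ (by norm_num)
  have p3 : (0 : ℤ) < 4 ^ i * 9 ^ l := by positivity
  have p4 : (1 : ℤ) ≤ 2 ^ n * 9 ^ q := one_le_mul_of_one_le_of_one_le p1 p2
  nlinarith [mul_le_mul_of_nonneg_left p4 p3.le]

end G
end MP82
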