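import Pool.Agent.Lib.MP_82ec8b_co.G.Val

/-!
# PB-Inv: Fourier inversion over the families `psi` and `phi`
-/

namespace MP82
namespace G
open Finset

/-- The coefficient of the anti-periodic component. -/
def invKer {a : ℕ} (ℓ : HH a → ZMod (2 ^ (a + 2))) (d : HH a) : ℤ :=
  (if ℓ d = 0 then 1 else 0) - (if ℓ d = 2 ^ (a + 1) then 1 else 0)

lemma inv_cc_ker {a : ℕ} (ℓ : HH a → ZMod (2 ^ (a + 2))) (hℓ : ∀ x y, ℓ (x + y) = ℓ x + ℓ y)
    (g : HH a → E) (x : HH a) :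
    cc ℓ g (ℓ x) = ∑ d, invKer ℓ d • g (x + d) := by
  rw [← Equiv.sum_comp (Equiv.subRight x) (fun d => invKer ℓ d • g (x + d))]
  simp only [cc, push, ← sum_sub_distrib]
  refine sum_congr rfl fun y _ => ?_
  have e : x + (Equiv.subRight x) y = y := by simp
  rw [e]
  have h1 : ℓ y = ℓ (y - x) + ℓ x := by rw [← hℓ]; simp
  have h2 : (ℓ y = ℓ x) ↔ (ℓ (y - x) = 0) := by
    rw [h1]; simp
  have h3 : (ℓ y = ℓ x + 2 ^ (a + 2 - 1)) ↔ (ℓ (y - x) = 2 ^ (a + 1)) := by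
    rw [h1, add_comm (ℓ (y - x)) (ℓ x)]
    show ℓ x + ℓ (y - x) = ℓ x + 2 ^ (a + 1) ↔ _
    simp
  simp only [invKer, Equiv.subRight_apply, h2, h3]
  split_ifs <;> simp

lemma inv_ker_swap {a : ℕ} (ℓ ℓ' : HH a → ZMod (2 ^ (a + 2))) (d : HH a)
    (h : ℓ' d = ℓ d + 2 ^ (a + 1)) : invKer ℓ' d = - invKer ℓ d := by
  have h2 : (2 : ZMod (2 ^ (a + 2))) ^ (a + 1) + 2 ^ (a + 1) = 0 := half_add (a + 2) (by omega)
  have e1 : (ℓ' d = 0) ↔ (ℓ d = 2 ^ (a + 1)) := by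
    rw [h]
    constructor
    · intro h3
      have := congrArg (· + (2 : ZMod (2 ^ (a + 2))) ^ (a + 1)) h3
      simp only [add_assoc, h2, add_zero, zero_add] at this
      exact this
    · intro h3
      rw [h3, h2]
  have e2 : (ℓ' d = 2 ^ (a + 1)) ↔ (ℓ d = 0) := by
    rw [h]; simp
  simp only [invKer, e1, e2]
  ring

lemma inv_sum_ker_zero {a : ℕ} (F : ZMod (2 ^ a) → HH a → ZMod (2 ^ (a + 2))) (d : HH a)
    (p0 : ZMod (2 ^ a)) (h : ∀ p, F (p + p0) d = F p d + 2 ^ (a + 1)) :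
    ∑ p, invKer (F p) d = 0 := by
  have h1 : ∑ p, invKer (F p) d = ∑ p, invKer (F (p + p0)) d :=
    (Equiv.sum_comp (Equiv.addRight p0) (fun p => invKer (F p) d)).symm
  have h2 : ∑ p, invKer (F (p + p0)) d = - ∑ p, invKer (F p) d := by
    rw [← sum_neg_distrib]
    exact sum_congr rfl fun p _ => inv_ker_swap _ _ _ (h p)
  have h3 : ∑ p, invKer (F p) d = - ∑ p, invKer (F p) d := h1.trans h2
  omega

lemma inv_exists_p0 (a : ℕ) (ha : 1 ≤ a) (z : ZMod (2 ^ a)) (hz : z ≠ 0) :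
    ∃ p0, z * p0 = 2 ^ (a - 1) := by
  obtain ⟨y, hy, -⟩ := exists_shift a ha z z hz le_rfl
  exact ⟨y, hy⟩

lemma inv_psi_shift (a : ℕ) (ha : 1 ≤ a) (d : HH a) (p p0 : ZMod (2 ^ a)) (h : d.1 * p0 = 2 ^ (a - 1)) :
    psi a (p + p0) d = psi a p d + 2 ^ (a + 1) := by
  unfold psi
  rw [add_mul, jj_add, mul_comm p0, h, jj_half a ha]
  ring

lemma inv_phi_shift (a : ℕ) (ha : 1 ≤ a) (d : HH a) (p p0 : ZMod (2 ^ a)) (h : d.1 * p0 = 2 ^ (a - 1)) :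
    phi a (p + p0) d = phi a p d + 2 ^ (a + 1) := by
  unfold phi
  rw [add_mul, jj_add, mul_comm p0, h, jj_half a ha]
  ring

/-- Inversion: reduction to the sum over the second coordinate. -/
lemma inv_aux (a : ℕ) (ha : 1 ≤ a) (F : ZMod (2 ^ a) → HH a → ZMod (2 ^ (a + 2)))
    (hadd : ∀ p x y, F p (x + y) = F p x + F p y)
    (hshift : ∀ (d : HH a) (p p0 : ZMod (2 ^ a)), d.1 * p0 = 2 ^ (a - 1) →
      F (p + p0) d = F p d + 2 ^ (a + 1))
    (c : ZMod (2 ^ (a + 2)) → ℤ) (hc : ∀ p z, invKer (F p) (0, z) = c z)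
    (g : HH a → E) (x : HH a) :
    ∑ p, cc (F p) g (F p x) = 2 ^ a * ∑ z, c z • g (x + (0, z)) := by
  have h1 : ∑ p, cc (F p) g (F p x) = ∑ d, (∑ p, invKer (F p) d) • g (x + d) := by
    rw [sum_congr rfl fun p _ => inv_cc_ker (F p) (hadd p) g x, sum_comm]
    refine sum_congr rfl fun d _ => ?_
    rw [sum_smul]
  rw [h1, Fintype.sum_prod_type]
  rw [sum_eq_single (0 : ZMod (2 ^ a))]
  · rw [mul_sum]
    refine sum_congr rfl fun z _ => ?_
    rw [sum_congr rfl fun p _ => hc p z, sum_const, card_univ, ZMod.card]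
    simp only [nsmul_eq_mul, zsmul_eq_mul]
    push_cast
    ring
  · intro b _ hb
    refine sum_eq_zero fun z _ => ?_
    obtain ⟨p0, hp0⟩ := inv_exists_p0 a ha b hb
    rw [inv_sum_ker_zero F (b, z) p0 (fun p => hshift (b, z) p p0 hp0), zero_smul]
  · intro h
    exact absurd (mem_univ _) h

theorem inv_psi (a : ℕ) (ha : 1 ≤ a) (g : HH a → E) (x : HH a) :
    ∑ p, cc (psi a p) g (psi a p x) = 2 ^ a * (g x - g (x + (0, 2 ^ (a + 1)))) := by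
  rw [inv_aux a ha (psi a) (psi_add a) (inv_psi_shift a ha)
    (fun z => (if z = 0 then 1 else 0) - (if z = 2 ^ (a + 1) then 1 else 0))
    (by intro p z; simp [invKer, psi]) g x]
  congr 1
  simp only [sub_smul, ite_smul, one_smul, zero_smul, sum_sub_distrib, sum_ite_eq', mem_univ, if_true]
  congr 2
  simp

theorem inv_phi (a : ℕ) (ha : 1 ≤ a) (g : HH a → E) (x : HH a) :
    ∑ q, cc (phi a q) g (phi a q x)
      = 2 ^ a * ((g x + g (x + (0, 2 ^ (a + 1))))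
          - (g (x + (0, 2 ^ a)) + g (x + (0, 2 ^ a) + (0, 2 ^ (a + 1))))) := by
  have hne : (2 : ZMod (2 ^ (a + 2))) ^ (a + 1) ≠ 0 := half_ne (a + 2) (by omega)
  have htwo : ∀ z : ZMod (2 ^ (a + 2)), 2 * z = 0 ↔ (z = 0 ∨ z = 2 ^ (a + 1)) :=
    fun z => two_mul_eq_zero_iff (a + 2) (by omega) z
  have e1 : ∀ z : ZMod (2 ^ (a + 2)), ((if 2 * z = 0 then 1 else 0 : ℤ)) =
      (if z = 0 then 1 else 0) + (if z = 2 ^ (a + 1) then 1 else 0) := by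
    intro z
    rw [if_congr (htwo z) rfl rfl]
    by_cases h0 : z = 0
    · subst h0
      simp [Ne.symm hne]
    · simp [h0]
  have e2 : ∀ z : ZMod (2 ^ (a + 2)), ((if 2 * z = 2 ^ (a + 1) then 1 else 0 : ℤ)) =
      (if z = 2 ^ a then 1 else 0) + (if z = 2 ^ a + 2 ^ (a + 1) then 1 else 0) := by
    intro z
    have h1 : (2 * z = 2 ^ (a + 1)) ↔ (2 * (z - 2 ^ a) = 0) := by
      have hp : (2 : ZMod (2 ^ (a + 2))) ^ (a + 1) = 2 * 2 ^ a := by ring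
      rw [mul_sub, sub_eq_zero, hp]
    have h2 : (z - 2 ^ a = 0) ↔ (z = 2 ^ a) := sub_eq_zero
    have h3 : (z - 2 ^ a = 2 ^ (a + 1)) ↔ (z = 2 ^ a + 2 ^ (a + 1)) := sub_eq_iff_eq_add'
    rw [if_congr h1 rfl rfl, e1 (z - 2 ^ a), if_congr h2 rfl rfl, if_congr h3 rfl rfl]
  rw [inv_aux a ha (phi a) (phi_add a) (inv_phi_shift a ha)
    (fun z => (if 2 * z = 0 then 1 else 0) - (if 2 * z = 2 ^ (a + 1) then 1 else 0))
    (by intro p z; simp [invKer, phi]) g x]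
  congr 1
  simp only [e1, e2, sub_smul, add_smul, ite_smul, one_smul, zero_smul, sum_sub_distrib,
    sum_add_distrib, sum_ite_eq', mem_univ, if_true]
  have k0 : x + ((0 : ZMod (2 ^ a)), (0 : ZMod (2 ^ (a + 2)))) = x := by
    rw [show ((0 : ZMod (2 ^ a)), (0 : ZMod (2 ^ (a + 2)))) = 0 from rfl, add_zero]
  have k1 : x + ((0 : ZMod (2 ^ a)), (2 : ZMod (2 ^ (a + 2))) ^ a) + ((0 : ZMod (2 ^ a)), (2 : ZMod (2 ^ (a + 2))) ^ (a + 1))
      = x + ((0 : ZMod (2 ^ a)), (2 : ZMod (2 ^ (a + 2))) ^ a + 2 ^ (a + 1)) := by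
    rw [add_assoc]
    congr 1
    ext <;> simp
  rw [k0, k1]

end G
end MP82
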