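import Pool.Agent.Lib.MP_82ec8b_co.G.Inv

/-!
# PB-Lev: the two level identities
-/

namespace MP82
namespace G
open Finset

lemma lev_cancel (n : ℕ) (z w : E) (h : (2 : E) ^ n * z = 2 ^ n * w) : z = w := by
  induction n with
  | zero => simpa using h
  | succ n ih =>
    apply ih
    have h2 : (2 : E) * (2 ^ n * z) = 2 * (2 ^ n * w) := by
      have e : ∀ v : E, (2 : E) ^ (n + 1) * v = 2 * (2 ^ n * v) := fun v => by ring
      rw [← e, ← e, h]
    generalize (2 : E) ^ n * z = u at h2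
    generalize (2 : E) ^ n * w = v at h2
    rw [two_mul, two_mul] at h2
    have hr := congrArg QuadraticAlgebra.re h2
    have hi := congrArg QuadraticAlgebra.im h2
    rw [QuadraticAlgebra.re_add, QuadraticAlgebra.re_add] at hr
    rw [QuadraticAlgebra.im_add, QuadraticAlgebra.im_add] at hi
    ext
    · omega
    · omega

section
variable {a b : ℕ} {R : Type} [DecidableEq R] {g : R → HH a → E}
  {rP : ZMod (2 ^ a) → R} {YP : ZMod (2 ^ a) → ZMod (2 ^ (a + 2)) → E}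
  {dP : ZMod (2 ^ a) → ZMod (2 ^ (a + 2))} {yP : ZMod (2 ^ a) → ZMod 2 × ZMod 2}
  {rQ : ZMod (2 ^ a) → R} {YQ : ZMod (2 ^ a) → ZMod (2 ^ (a + 2)) → E}
  {dQ : ZMod (2 ^ a) → ZMod (2 ^ (a + 2))} {yQ : ZMod (2 ^ a) → ZMod 2 × ZMod 2}

lemma lev_fam {ℓ : HH a → ZMod (2 ^ (a + 2))} {r0 : R} {Y : ZMod (2 ^ (a + 2)) → E}
    {d : ZMod (2 ^ (a + 2))} {y : ZMod 2 × ZMod 2} (h : Fam a b ℓ g r0 Y d y) (r : R)
    (s : ZMod (2 ^ (a + 2))) : cc ℓ (g r) s = 2 ^ a * (if r0 = r then Y s else 0) := by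
  by_cases h0 : r0 = r
  · subst h0
    rw [if_pos rfl, h.comp]
  · rw [if_neg h0, mul_zero, h.zero r (fun e => h0 e.symm)]

theorem level1 (ha : 1 ≤ a) (D : Data a b R g rP YP dP yP rQ YQ dQ yQ) (r : R) (x : HH a) :
    g r x - g r (x + (0, 2 ^ (a + 1))) = ∑ p, if rP p = r then YP p (psi a p x) else 0 := by
  have h := inv_psi a ha (g r) x
  rw [sum_congr rfl fun p _ => lev_fam (D.famP p) r (psi a p x), ← mul_sum] at h
  exact (lev_cancel a _ _ h).symm

theorem level2 (ha : 1 ≤ a) (D : Data a b R g rP YP dP yP rQ YQ dQ yQ) (r : R) (x : HH a) :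
    (g r x + g r (x + (0, 2 ^ (a + 1))))
      - (g r (x + (0, 2 ^ a)) + g r (x + (0, 2 ^ a) + (0, 2 ^ (a + 1))))
      = ∑ q, if rQ q = r then YQ q (phi a q x) else 0 := by
  have h := inv_phi a ha (g r) x
  rw [sum_congr rfl fun q _ => lev_fam (D.famQ q) r (phi a q x), ← mul_sum] at h
  exact (lev_cancel a _ _ h).symm

end
end G
end MP82
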