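import Pool.Agent.Lib.MP_82ec8b_co.M5
import Pool.Agent.Lib.MP_82ec8b_co.G.Count
import Pool.Agent.Lib.MP_82ec8b_co.G.Far
import Pool.Agent.Lib.MP_82ec8b_co.G.Sq

/-!
# PB-Main: assembly

`near`: the case `j = i + 2`, `i = a ≥ 2`: `M0` gives `F`; `comp_two`: `comp K (F x) r = 2 * g r x`,
`N (g r x) ≤ 9 ^ l ≤ 9 ^ (b - 1)`; `fam_of` for all `psi a p`, `phi a q`; `no_data`.
-/

namespace MP82
namespace G
open Finset

/-- The contradiction from the function produced by `M0`, for the group `HH a`, `a ≥ 2`. -/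
lemma near_core (a k l b : ℕ) (ha : 2 ≤ a) (hk : 1 ≤ k) (hb : l + 1 ≤ b)
    (F : HH a → ZMod (3 ^ k) → ℤ)
    (ho : ∀ x c, Odd (F x c)) (hB : ∀ x c, |F x c| ≤ 3 ^ l)
    (hF : ∀ d v, ∑ x, ∑ c, F x c * F (x + d) (c + v)
      = if d = 0 ∧ v = 0 then 2 ^ (2 * a + 2) * 9 ^ b else 0) : False := by
  have hg0 : ∀ (r : Fin (3 ^ (k - 1))) (x : HH a), ∃ g, MP82.comp k (F x) r = 2 * g :=
    fun r x => comp_two k (F x) (ho x) r
  choose g hg using hg0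
  have hN : ∀ r x, N (g r x) ≤ 9 ^ (b - 1) := by
    intro r x
    have h1 := comp_N k l (F x) (hB x) r
    have h0 := N_intMul 2 (g r x)
    push_cast at h0
    rw [hg, h0] at h1
    have h2 : N (g r x) ≤ 9 ^ l := by linarith
    exact h2.trans (pow_le_pow_right₀ (by norm_num) (by omega))
  have hP : ∀ p, ∃ r0 Y d y, Fam a b (psi a p) g r0 Y d y := fun p =>
    fam_of a b k (by omega) hk F hF g hg (psi a p) (psi_add a p)
  have hQ : ∀ q, ∃ r0 Y d y, Fam a b (phi a q) g r0 Y d y := fun q =>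
    fam_of a b k (by omega) hk F hF g hg (phi a q) (phi_add a q)
  choose rP YP dP yP famP using hP
  choose rQ YQ dQ yQ famQ using hQ
  exact no_data ha (Data.mk famP famQ hN (by omega))

/-- Swapping the two factors of the 2-part. -/
lemma corr_swap {m n : ℕ} [NeZero m] [NeZero n] {C : Type} [Fintype C] [AddCommGroup C]
    [DecidableEq C] (F : ZMod m × ZMod n → C → ℤ) (M : ℤ)
    (hF : ∀ d v, ∑ x, ∑ c, F x c * F (x + d) (c + v) = if d = 0 ∧ v = 0 then M else 0)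
    (d : ZMod n × ZMod m) (v : C) :
    ∑ x : ZMod n × ZMod m, ∑ c, F (x.2, x.1) c * F ((x + d).2, (x + d).1) (c + v)
      = if d = 0 ∧ v = 0 then M else 0 := by
  have h1 := hF (d.2, d.1) v
  have h2 : ∑ x : ZMod n × ZMod m, ∑ c, F (x.2, x.1) c * F ((x + d).2, (x + d).1) (c + v) =
      ∑ x : ZMod m × ZMod n, ∑ c, F x c * F (x + (d.2, d.1)) (c + v) := by
    rw [← Equiv.sum_comp (Equiv.prodComm (ZMod m) (ZMod n))]
    rfl
  rw [h2, h1]
  have h3 : ((d.2, d.1) = (0 : ZMod m × ZMod n)) ↔ d = 0 := by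
    obtain ⟨d1, d2⟩ := d
    simp only [Prod.mk_eq_zero]
    tauto
  simp only [h3]

theorem near (a k l : ℕ) (ha : 2 ≤ a) (hkl : l < k)
    (A : ZMod (2 ^ a * 3 ^ k) → ZMod (2 ^ (a + 2) * 3 ^ l) → ℤ)
    (hA : IsPBA (2 ^ a * 3 ^ k) (2 ^ (a + 2) * 3 ^ l) A) : False := by
  have he : a + (a + 2) = 2 * a + 2 := by ring
  obtain ⟨b, F, _, hb, ho, hB, hF⟩ := M0 a (a + 2) k l ⟨a + 1, by ring⟩ hkl A hA
  rw [he] at hF
  exact near_core a k l b ha (by omega) hb F ho hB hF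

theorem near' (a k l : ℕ) (ha : 2 ≤ a) (hkl : l < k)
    (A : ZMod (2 ^ (a + 2) * 3 ^ k) → ZMod (2 ^ a * 3 ^ l) → ℤ)
    (hA : IsPBA (2 ^ (a + 2) * 3 ^ k) (2 ^ a * 3 ^ l) A) : False := by
  have he : (a + 2) + a = 2 * a + 2 := by ring
  obtain ⟨b, F, _, hb, ho, hB, hF⟩ := M0 (a + 2) a k l ⟨a + 1, by ring⟩ hkl A hA
  rw [he] at hF
  exact near_core a k l b ha (by omega) hb (fun x c => F (x.2, x.1) c) (fun x c => ho _ _)
    (fun x c => hB _ _) (corr_swap F _ hF)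

lemma main_lt (i j k l : ℕ) (hij : i ≠ j ∨ i ≤ 3) (hkl : l < k)
    (a : ZMod (2 ^ i * 3 ^ k) → ZMod (2 ^ j * 3 ^ l) → ℤ)
    (ha : IsPBA (2 ^ i * 3 ^ k) (2 ^ j * 3 ^ l) a) : False := by
  have he := even_exp i j k l a ha
  have hcases : (i = 0 ∧ j = 0) ∨
      ((i + j = 2 ∨ i + j = 4 ∨ i + j = 6) ∧ i ≤ j + 2 ∧ j ≤ i + 2) ∨
      (j = i + 2 ∧ 2 ≤ i) ∨ (i = j + 2 ∧ 2 ≤ j) ∨ i + 4 ≤ j ∨ j + 4 ≤ i := by
    obtain ⟨m, hm⟩ := he
    omega
  rcases hcases with ⟨rfl, rfl⟩ | ⟨h0, h1, h2⟩ | ⟨rfl, h2⟩ | ⟨rfl, h2⟩ | h4 | h4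
  · have h3 : ∀ n : ℕ, Odd (2 ^ 0 * 3 ^ n) := by
      intro n
      rw [pow_zero, one_mul]
      exact Odd.pow (by decide)
    have h1 := (odd_vol (h3 k) (h3 l) ha).1
    rw [pow_zero, one_mul] at h1
    have := Nat.one_lt_pow (show k ≠ 0 by omega) (show 1 < 3 by norm_num)
    omega
  · exact absurd (MP82.main i j k l h0 h1 h2 a ha) (by omega)
  · exact near i k l h2 hkl a ha
  · exact near' j k l h2 hkl a ha
  · obtain ⟨b, F, _, hb, _, hB, hF⟩ := M0 i j k l he hkl a ha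
    exact far i j k l b (by omega) h4 hb F hB hF
  · obtain ⟨b, F, _, hb, _, hB, hF⟩ := M0 i j k l he hkl a ha
    rw [add_comm i j] at hF
    exact far j i k l b (by omega) h4 hb (fun x c => F (x.2, x.1) c)
      (fun x c => hB _ _) (corr_swap F _ hF)

theorem main (i j k l : ℕ) (hij : i ≠ j ∨ i ≤ 3)
    (a : ZMod (2 ^ i * 3 ^ k) → ZMod (2 ^ j * 3 ^ l) → ℤ)
    (ha : IsPBA (2 ^ i * 3 ^ k) (2 ^ j * 3 ^ l) a) : k = l := by
  rcases lt_trichotomy k l with h | h | h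
  · exact (main_lt j i l k (by omega) h (fun x y => a y x) ha.transpose).elim
  · exact h
  · exact (main_lt i j k l hij h a ha).elim

end G
end MP82
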